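import Pool.Agent.Helper7.ACP.Defs

/-!
# The table algorithm

Vertices are numbers `< n`; a boundary is a list `b` of `K` slots, the value `0` meaning that the
slot is empty and `y + 1` that it holds the vertex `y`.  Types are codes `< N`, the operations on
types are given by constant tables.
-/

set_option autoImplicit false

namespace Pool.Agent.Helper7.ACP.Alg

/-- The constant tables of the algorithm. -/
structure Tables where
  /-- number of slots -/
  K : ℕ
  /-- number of types -/
  N : ℕ
  /-- the code of the type of the empty structure -/
  zero : ℕ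
  /-- sum of types, index `τ * N + τ'` -/
  plus : List ℕ
  /-- forgetting a slot, index `(i * 3 + a) * N + τ` -/
  forget : List ℕ
  /-- type of an arc, index the code of the mask -/
  arc : List ℕ
  /-- accepting types -/
  acc : List Bool

variable (t : Tables)

/-- An instance: the number of vertices and the adjacency matrix. -/
abbrev Inst := ℕ × List Bool

/-- The arc relation. -/
def arcB (I : Inst) (x y : ℕ) : Bool := I.2.getD (x * I.1 + y) false

/-- Adjacency in the underlying graph. -/
def adjB (I : Inst) (x y : ℕ) : Bool := arcB I x y || arcB I y x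

/-- Membership in a list of numbers. -/
def memL (S : List ℕ) (x : ℕ) : Bool := S.any (fun y => decide (y = x))

/-- Is `x` in a slot of `b`? -/
def inB (b : List ℕ) (x : ℕ) : Bool := (List.range t.K).any (fun i => decide (b.getD i 0 = x + 1))

/-- One round of the search for the component. -/
def stepC (I : Inst) (b : List ℕ) (S : List ℕ) : List ℕ :=
  (List.range I.1).filter
    (fun x => memL S x || (!(inB t b x) && S.any (fun y => adjB I y x)))

/-- The component of `c` after removing the vertices in the slots. -/
def compL (I : Inst) (b : List ℕ) (c : ℕ) : List ℕ :=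
  (stepC t I b)^[I.1] ((List.range I.1).filter (fun x => decide (x = c)))

/-- Slot `i` is empty or holds a vertex without neighbours in `S`. -/
def freeB (I : Inst) (b S : List ℕ) (i : ℕ) : Bool :=
  decide (b.getD i 0 = 0) || S.all (fun x => !(adjB I x (b.getD i 0 - 1)))

/-- Put `v` into slot `i`. -/
def setB (b : List ℕ) (i v : ℕ) : List ℕ :=
  (List.range t.K).map (fun j => bif decide (j = i) then v + 1 else b.getD j 0)

/-- The code of the positions of `x` and `y` in the slots. -/
def maskC (b : List ℕ) (x y : ℕ) : ℕ :=
  ((List.range t.K).map (fun j => (j, 4 ^ j))).foldl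
    (fun s p => s + ((bif decide (b.getD p.1 0 = x + 1) then 1 else 0) +
      (bif decide (b.getD p.1 0 = y + 1) then 2 else 0)) * p.2) 0

/-- Sum of types. -/
def plusC (a b : ℕ) : ℕ := t.plus.getD (a * t.N + b) 0

/-- Forget slot `i` with `a` agents. -/
def forgetC (i a c : ℕ) : ℕ := t.forget.getD ((i * 3 + a) * t.N + c) 0

/-- Add the arc `(x, y)`, if it is present, to the type `c`. -/
def addArc (I : Inst) (b : List ℕ) (c x y : ℕ) : ℕ :=
  bif arcB I x y then plusC t c (t.arc.getD (maskC t b x y) 0) else c

/-- The type of the arcs between `v` and the vertices outside `C`. -/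
def arcCode (I : Inst) (b C : List ℕ) (v : ℕ) : ℕ :=
  (List.range I.1).foldl (fun c y => bif memL C y then c else
    addArc t I b (addArc t I b c v y) y v) t.zero

/-- A fact: boundary and representative vertex; type and number of agents. -/
abbrev Fact := (List ℕ × ℕ) × (ℕ × ℕ)

/-- All boundaries. -/
def slotsL (n : ℕ) : ℕ → List (List ℕ)
  | 0 => [[]]
  | k + 1 => (slotsL n k).flatMap (fun b => (List.range (n + 1)).map (fun z => z :: b))

/-- All pairs of a type and a number of agents. -/
def pairsL (n : ℕ) : List (ℕ × ℕ) := List.range t.N ×ˢ List.range (2 * n + 1)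

/-- All possible facts. -/
def factsL (n : ℕ) : List Fact := (slotsL n t.K ×ˢ List.range n) ×ˢ pairsL t n

/-- Is the fact in the table? -/
def lookup (Tb : List Fact) (b : List ℕ) (c τ s : ℕ) : Bool :=
  Tb.any (fun e => (List.range t.K).all (fun i => decide (e.1.1.getD i 0 = b.getD i 0)) &&
    (decide (e.1.2 = c) && (decide (e.2.1 = τ) && decide (e.2.2 = s))))

/-- Representatives of the components of `S`. -/
def repsL (I : Inst) (b S : List ℕ) : List ℕ :=
  S.filter (fun c => (compL t I b c).all (fun x => decide (c ≤ x)))

/-- Combine the pairs in `P` with the facts for the components in `R`. -/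
def comb (n : ℕ) (Tb : List Fact) (b : List ℕ) (R : List ℕ) (P : List (ℕ × ℕ)) : List (ℕ × ℕ) :=
  R.foldl (fun P c => (pairsL t n).filter (fun q => P.any (fun p => (List.range t.N).any (fun τ =>
    decide (p.2 ≤ q.2) && (lookup t Tb b c τ (q.2 - p.2) && decide (plusC t p.1 τ = q.1)))))) P

/-- Can the fact be derived from the table, by choosing the vertex `v` and the slot `i`? -/
def derive1 (I : Inst) (Tb : List Fact) (f : Fact) (C : List ℕ) (v i : ℕ) : Bool :=
  freeB I f.1.1 C i &&
    (comb t I.1 Tb (setB t f.1.1 i v)
      (repsL t I (setB t f.1.1 i v) (C.filter (fun x => !(decide (x = v)))))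
      [(arcCode t I (setB t f.1.1 i v) C v, 0)]).any
        (fun p => (List.range 3).any (fun a => decide (forgetC t i a p.1 = f.2.1) &&
          decide (p.2 + a = f.2.2)))

/-- Can the fact be derived from the table? -/
def derive (I : Inst) (Tb : List Fact) (f : Fact) : Bool :=
  !(inB t f.1.1 f.1.2) && (compL t I f.1.1 f.1.2).any (fun v => (List.range t.K).any (fun i =>
    derive1 t I Tb f (compL t I f.1.1 f.1.2) v i))

/-- One round. -/
def step (I : Inst) (Tb : List Fact) : List Fact := (factsL t I.1).filter (derive t I Tb)

/-- The table. -/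
def table (I : Inst) : List Fact := (step t I)^[I.1] []

/-- The output. -/
def out (I : Inst) : ℕ :=
  ((List.range (2 * I.1 + 1)).filter (fun s => decide (1 ≤ s) && (List.range t.N).any (fun τ =>
    t.acc.getD τ false && lookup t (table t I) (List.replicate t.K 0) 0 τ s))).headD 0

end Pool.Agent.Helper7.ACP.Alg
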