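import Pool.Agent.Helper7.ACP.Defs

/-!
# Routes with the fewest runs

A route is a sequence of runs, each of which is a directed walk traversed forwards or backwards and
has an agent that can reach its tail. In a route with the fewest runs every vertex is on the
approach of at most two agents; if in addition its length is minimal it is a path.
-/

set_option autoImplicit false

namespace Pool.Agent.Helper7.ACP

open Relation

variable {V : Type}

/-- Arcs in direction `δ`. -/
def dir (A : V → V → Prop) (δ : Bool) (x y : V) : Prop := cond δ (A x y) (A y x)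

/-- Walks of the relation `R`; the list contains the vertices after the first one. -/
inductive Wk (R : V → V → Prop) : V → List V → V → Prop
  | nil (u : V) : Wk R u [] u
  | cons {u x w : V} {q : List V} : R u x → Wk R x q w → Wk R u (x :: q) w

theorem Wk.append {R : V → V → Prop} {u w v : V} {q q' : List V} (h : Wk R u q w)
    (h' : Wk R w q' v) : Wk R u (q ++ q') v := by
  induction h with
  | nil => exact h'
  | cons h1 _ ih => exact Wk.cons h1 (ih h')

theorem Wk.reach {R : V → V → Prop} {u w : V} {q : List V} (h : Wk R u q w) :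
    ReflTransGen R u w := by
  induction h with
  | nil => exact .refl
  | cons h1 _ ih => exact .head h1 ih

theorem exists_wk {R : V → V → Prop} {u w : V} (h : ReflTransGen R u w) : ∃ q, Wk R u q w := by
  induction h using ReflTransGen.head_induction_on with
  | refl => exact ⟨[], .nil _⟩
  | head h1 _ ih =>
    obtain ⟨q, hq⟩ := ih
    exact ⟨_, .cons h1 hq⟩

theorem Wk.split {R : V → V → Prop} {v : V} {p2 : List V} :
    ∀ {p1 : List V} {u : V}, Wk R u (p1 ++ p2) v →
      Wk R u p1 (p1.getLastD u) ∧ Wk R (p1.getLastD u) p2 v := by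
  intro p1
  induction p1 with
  | nil => intro u h; exact ⟨.nil _, h⟩
  | cons x p1 ih =>
    intro u h
    rw [List.cons_append] at h
    cases h with
    | cons h1 h2 =>
      obtain ⟨h3, h4⟩ := ih h2
      rw [List.getLastD_cons]
      exact ⟨.cons h1 h3, h4⟩

theorem Wk.last {R : V → V → Prop} {u v : V} {p : List V} (h : Wk R u p v) : p.getLastD u = v := by
  induction h with
  | nil => rfl
  | cons _ _ ih => rw [List.getLastD_cons]; exact ih

/-- A run to the tail. -/
theorem exists_wk_dir {A : V → V → Prop} {a b : V} (h : ReflTransGen A a b) :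
    (∃ q, Wk (dir A true) a q b) ∧ ∃ q, Wk (dir A false) b q a := by
  refine ⟨exists_wk h, exists_wk ?_⟩
  have h2 : dir A false = Function.swap A := rfl
  rw [h2]
  exact h.swap

/-- The routes: list of the vertices after the first, list of (agent, tail, direction). -/
inductive Rt (A : V → V → Prop) : V → V → List V → List (V × V × Bool) → Prop
  | nil (u : V) : Rt A u u [] []
  | cons {u w v s : V} {q p : List V} {L : List (V × V × Bool)} {δ : Bool} :
      Wk (dir A δ) u q w → ReflTransGen A s (cond δ u w) → Rt A w v p L →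
      Rt A u v (q ++ p) ((s, cond δ u w, δ) :: L)

variable {A : V → V → Prop}

theorem Rt.append {u w v : V} {p p' : List V} {L L' : List (V × V × Bool)}
    (h : Rt A u w p L) (h' : Rt A w v p' L') : Rt A u v (p ++ p') (L ++ L') := by
  induction h with
  | nil => exact h'
  | cons h1 h2 _ ih =>
    rw [List.append_assoc]
    exact Rt.cons h1 h2 (ih h')

theorem Rt.splitL {v : V} {Lb : List (V × V × Bool)} : ∀ {La : List (V × V × Bool)} {u : V}
    {p : List V}, Rt A u v p (La ++ Lb) →
    ∃ z pa pb, p = pa ++ pb ∧ Rt A u z pa La ∧ Rt A z v pb Lb := by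
  intro La
  induction La with
  | nil => intro u p h; exact ⟨u, [], p, rfl, .nil _, h⟩
  | cons e La ih =>
    intro u p h
    rw [List.cons_append] at h
    cases h with
    | cons h1 h2 h3 =>
      obtain ⟨z, pa, pb, hp, h4, h5⟩ := ih h3
      exact ⟨z, _, pb, by rw [hp, List.append_assoc], Rt.cons h1 h2 h4, h5⟩

theorem getLastD_app (p1 p2 : List V) (u : V) :
    (p1 ++ p2).getLastD u = p2.getLastD (p1.getLastD u) := by
  induction p1 generalizing u with
  | nil => rfl
  | cons x p1 ih => rw [List.cons_append, List.getLastD_cons, List.getLastD_cons, ih]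

theorem Rt.last {u v : V} {p : List V} {L : List (V × V × Bool)} (h : Rt A u v p L) :
    p.getLastD u = v := by
  induction h with
  | nil => rfl
  | cons h1 _ _ ih => rw [getLastD_app, h1.last]; exact ih

/-- Splitting a route at a vertex. -/
theorem Rt.split {u v : V} {p : List V} {L : List (V × V × Bool)} (h : Rt A u v p L) :
    ∀ {p1 p2 : List V}, p = p1 ++ p2 → L ≠ [] → ∃ La s t t1 t2 δ Lb,
      L = La ++ (s, t, δ) :: Lb ∧ Rt A u (p1.getLastD u) p1 (La ++ [(s, t1, δ)]) ∧
      Rt A (p1.getLastD u) v p2 ((s, t2, δ) :: Lb) := by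
  induction h with
  | nil => intro p1 p2 _ h; exact absurd rfl h
  | @cons u w v s q p L δ h1 h2 h3 ih =>
    intro p1 p2 hp _
    have key : ∀ a' : List V, q = p1 ++ a' → p2 = a' ++ p → ∃ La s' t t1 t2 δ' Lb,
        (s, cond δ u w, δ) :: L = La ++ (s', t, δ') :: Lb ∧
        Rt A u (p1.getLastD u) p1 (La ++ [(s', t1, δ')]) ∧
        Rt A (p1.getLastD u) v p2 ((s', t2, δ') :: Lb) := by
      intro a' hq hp2
      subst hq hp2
      obtain ⟨h4, h5⟩ := h1.split
      refine ⟨[], s, cond δ u w, cond δ u (p1.getLastD u), cond δ (p1.getLastD u) w, δ, L, rfl,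
        ?_, ?_⟩
      · have h6 : ReflTransGen A s (cond δ u (p1.getLastD u)) := by
          cases δ with
          | true => exact h2
          | false => exact ReflTransGen.trans h2 (by
              have h7 := h5.reach
              have h8 : dir A false = Function.swap A := rfl
              rw [h8] at h7
              exact h7.swap)
        have h7 := Rt.cons h4 h6 (Rt.nil _)
        rw [List.append_nil] at h7
        exact h7
      · refine Rt.cons h5 ?_ h3
        cases δ with
        | true => exact ReflTransGen.trans h2 h4.reach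
        | false => exact h2
    rcases List.append_eq_append_iff.mp hp with ⟨a, ha, hb⟩ | ⟨a, ha, hb⟩
    · by_cases hL : L = []
      · subst hL
        cases h3
        have hb' : a = [] ∧ p2 = [] := by simpa using hb.symm
        obtain ⟨rfl, rfl⟩ := hb'
        exact key [] (by simpa using ha.symm) rfl
      · obtain ⟨La, s', t, t1, t2, δ', Lb, h4, h5, h6⟩ := ih hb hL
        subst ha
        rw [getLastD_app, h1.last]
        refine ⟨(s, cond δ u w, δ) :: La, s', t, t1, t2, δ', Lb, by rw [h4]; rfl, ?_, h6⟩
        exact Rt.cons h1 h2 h5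
    · exact key a ha hb

/-- Merging two routes at a vertex inside a run. -/
theorem Rt.merge {z v s t2 : V} {δ : Bool} {p2 : List V} {Lb : List (V × V × Bool)}
    (h' : Rt A z v p2 ((s, t2, δ) :: Lb)) :
    ∀ {La : List (V × V × Bool)} {u t1 : V} {p1 : List V}, Rt A u z p1 (La ++ [(s, t1, δ)]) →
      ∃ t, Rt A u v (p1 ++ p2) (La ++ (s, t, δ) :: Lb) := by
  intro La
  induction La with
  | nil =>
    intro u t1 p1 h
    rw [List.nil_append] at h
    cases h with
    | @cons _ w _ _ q p _ _ h1 h2 h3 =>
      cases h3
      cases h' with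
      | @cons _ w' _ _ q' p' _ _ h4 h5 h6 =>
        refine ⟨cond δ u w', ?_⟩
        rw [List.append_nil, ← List.append_assoc]
        refine Rt.cons (h1.append h4) ?_ h6
        cases δ with
        | true => exact h2
        | false => exact h5
  | cons e La ih =>
    intro u t1 p1 h
    rw [List.cons_append] at h
    cases h with
    | cons h1 h2 h3 =>
      obtain ⟨t, ht⟩ := ih h3
      refine ⟨t, ?_⟩
      rw [List.append_assoc]
      exact Rt.cons h1 h2 ht

/-! ### Minimal routes -/

theorem not_nodup_split {u : V} {p : List V} (h : ¬ (u :: p).Nodup) :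
    ∃ p1 p2 p3, p = p1 ++ (p2 ++ p3) ∧ p2 ≠ [] ∧ p1.getLastD u = (p1 ++ p2).getLastD u := by
  induction p generalizing u with
  | nil => simp at h
  | cons x p ih =>
    by_cases hu : u ∈ x :: p
    · obtain ⟨a, b, hab⟩ := List.append_of_mem hu
      refine ⟨[], a ++ [u], b, by rw [hab]; simp, by simp, ?_⟩
      rw [List.nil_append, getLastD_app]
      rfl
    · have h2 : ¬ (x :: p).Nodup := fun h3 => h (List.nodup_cons.mpr ⟨hu, h3⟩)
      obtain ⟨p1, p2, p3, h3, h4, h5⟩ := ih h2
      exact ⟨x :: p1, p2, p3, by rw [h3]; rfl, h4, by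
        rw [List.cons_append, List.getLastD_cons, List.getLastD_cons, h5]⟩

variable [DecidableEq V]

/-- The agents used by the route are available. -/
def Avail (m : V → ℕ) (L : List (V × V × Bool)) : Prop := ∀ x, (L.map Prod.fst).count x ≤ m x

theorem Avail.of_sublist {m : V → ℕ} {L L' : List (V × V × Bool)} (h : Avail m L)
    (h' : (L'.map Prod.fst).Sublist (L.map Prod.fst)) : Avail m L' :=
  fun x => (h'.count_le x).trans (h x)

/-- A route with the fewest runs, and the shortest among these. -/
structure Min (A : V → V → Prop) (m : V → ℕ) (u v : V) (p : List V) (L : List (V × V × Bool)) :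
    Prop where
  rt : Rt A u v p L
  av : Avail m L
  min1 : ∀ p' L', Rt A u v p' L' → Avail m L' → L.length ≤ L'.length
  min2 : ∀ p' L', Rt A u v p' L' → Avail m L' → L'.length ≤ L.length → p.length ≤ p'.length

theorem exists_min {m : V → ℕ} {u v : V} {p : List V} {L : List (V × V × Bool)}
    (h : Rt A u v p L) (ha : Avail m L) : ∃ p L, Min A m u v p L := by
  classical
  have h1 : ∃ r, ∃ p L, Rt A u v p L ∧ Avail m L ∧ L.length = r := ⟨_, p, L, h, ha, rfl⟩
  have h2 : ∃ l, ∃ p L, Rt A u v p L ∧ Avail m L ∧ L.length = Nat.find h1 ∧ p.length = l := by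
    obtain ⟨p, L, h3, h4, h5⟩ := Nat.find_spec h1
    exact ⟨_, p, L, h3, h4, h5, rfl⟩
  obtain ⟨p0, L0, h3, h4, h5, h6⟩ := Nat.find_spec h2
  refine ⟨p0, L0, h3, h4, fun p' L' h7 h8 => ?_, fun p' L' h7 h8 h9 => ?_⟩
  · rw [h5]
    exact Nat.find_min' h1 ⟨p', L', h7, h8, rfl⟩
  · rw [h6]
    refine Nat.find_min' h2 ⟨p', L', h7, h8, ?_, rfl⟩
    exact le_antisymm (h9.trans h5.le) (Nat.find_min' h1 ⟨p', L', h7, h8, rfl⟩)

/-- The walk of a minimal route is a path. -/
theorem Min.nodup {m : V → ℕ} {u v : V} {p : List V} {L : List (V × V × Bool)}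
    (h : Min A m u v p L) : (u :: p).Nodup := by
  by_contra hn
  obtain ⟨p1, p2, p3, hp, hne, hl⟩ := not_nodup_split hn
  have hL : L ≠ [] := by
    rintro rfl
    have h1 := h.rt
    cases h1
    simp at hp
    exact hne hp.2.1
  obtain ⟨La, s, t, t1, t2, δ, Lb, e1, h1, h2⟩ := h.rt.split hp hL
  obtain ⟨La', s', t', t1', t2', δ', Lb', e2, h3, h4⟩ := h2.split rfl (by simp)
  have hz : p2.getLastD (p1.getLastD u) = p1.getLastD u := by rw [← getLastD_app, ← hl]
  rw [hz] at h4
  have hlen : (p1 ++ p3).length < p.length := by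
    rw [hp]
    have : 0 < p2.length := List.length_pos_iff.mpr hne
    simp only [List.length_append]
    omega
  cases La' with
  | nil =>
    rw [List.nil_append, List.cons.injEq, Prod.mk.injEq, Prod.mk.injEq] at e2
    obtain ⟨⟨rfl, rfl, rfl⟩, rfl⟩ := e2
    obtain ⟨t3, h5⟩ := h4.merge h1
    have h6 := h.min2 _ _ h5 (h.av.of_sublist (by rw [e1]; simp)) (by rw [e1]; simp)
    omega
  | cons e La'' =>
    rw [List.cons_append, List.cons.injEq] at e2
    obtain ⟨rfl, e2⟩ := e2
    have h5 := h1.append h4
    have h6 := h.min2 _ _ h5 (h.av.of_sublist (by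
      rw [e1, e2]
      simp only [List.map_append, List.map_cons, List.map_nil, List.append_assoc]
      refine List.Sublist.append (List.Sublist.refl _) ?_
      simp)) (by rw [e1, e2]; simp only [List.length_append, List.length_cons, List.length_nil]; omega)
    omega

/-- The exchange lemma. -/
theorem Min.exchange {m : V → ℕ} {u v w : V} {p : List V} {La Lm Lb : List (V × V × Bool)}
    {e1 e2 : V × V × Bool} (h : Min A m u v p (La ++ e1 :: (Lm ++ e2 :: Lb)))
    (h1 : ReflTransGen A e1.1 w) (h1' : ReflTransGen A w e1.2.1)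
    (h2 : ReflTransGen A e2.1 w) (h2' : ReflTransGen A w e2.2.1) : Lm = [] := by
  obtain ⟨x, pa, pb, -, h3, h4⟩ := h.rt.splitL
  obtain ⟨y, pc, pd, -, h5, h6⟩ := Rt.splitL (La := e1 :: Lm) (by simpa using h4)
  have hx : ReflTransGen A w x := by
    cases h5 with
    | @cons _ w' _ _ q _ _ δ h7 _ _ =>
      cases δ with
      | true => exact h1'
      | false =>
        refine ReflTransGen.trans h1' ?_
        have h8 := h7.reach
        have h9 : dir A false = Function.swap A := rfl
        rw [h9] at h8
        exact h8.swap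
  obtain ⟨y', hy, hy'⟩ : ∃ y', ReflTransGen A w y' ∧ ∃ pe, Rt A y' v pe Lb := by
    cases h6 with
    | @cons _ w' _ _ q _ _ δ h7 _ h8 =>
      refine ⟨w', ?_, _, h8⟩
      cases δ with
      | true => exact ReflTransGen.trans h2' h7.reach
      | false => exact h2'
  obtain ⟨pe, h7⟩ := hy'
  obtain ⟨q1, hq1⟩ := (exists_wk_dir hx).2
  obtain ⟨q2, hq2⟩ := (exists_wk_dir hy).1
  have h8 : Rt A u v (pa ++ (q1 ++ (q2 ++ pe)))
      (La ++ (e1.1, w, false) :: (e2.1, w, true) :: Lb) :=
    h3.append (Rt.cons hq1 h1 (Rt.cons hq2 h2 h7))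
  have h9 := h.min1 _ _ h8 (h.av.of_sublist (by
    simp only [List.map_append, List.map_cons]
    refine List.Sublist.append (List.Sublist.refl _) ?_
    refine List.Sublist.cons_cons _ ?_
    exact List.sublist_append_right _ _))
  simp only [List.length_append, List.length_cons] at h9
  exact List.eq_nil_of_length_eq_zero (by omega)

omit [DecidableEq V] in
theorem countP_le_two {τ : Type*} {P : τ → Bool} : ∀ {L : List τ},
    (∀ La e1 Lm e2 Lb, L = La ++ e1 :: (Lm ++ e2 :: Lb) → P e1 = true → P e2 = true → Lm = []) →
    L.countP P ≤ 2 := by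
  intro L
  induction L with
  | nil => intro _; simp
  | cons a L ih =>
    intro H
    have H' := ih (fun La e1 Lm e2 Lb h h1 h2 => H (a :: La) e1 Lm e2 Lb (by rw [h]; rfl) h1 h2)
    by_cases ha : P a = true
    · rw [List.countP_cons_of_pos ha]
      have h1 : L.countP P ≤ 1 := by
        cases L with
        | nil => simp
        | cons b L =>
          have h2 : L.countP P = 0 := by
            rw [List.countP_eq_zero]
            intro c hc hPc
            obtain ⟨x, y, hxy⟩ := List.append_of_mem hc
            have := H [] a (b :: x) c y (by rw [hxy]; rfl) ha hPc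
            exact absurd this (by simp)
          rw [List.countP_cons, h2]
          split <;> omega
      omega
    · rw [List.countP_cons_of_neg ha]
      exact H'

/-- Every vertex is on the approach of at most two agents. -/
theorem Min.through {m : V → ℕ} {u v : V} {p : List V} {L : List (V × V × Bool)}
    (h : Min A m u v p L) (w : V) (P : V × V × Bool → Bool)
    (hP : ∀ e, P e = true → ReflTransGen A e.1 w ∧ ReflTransGen A w e.2.1) :
    L.countP P ≤ 2 := by
  refine countP_le_two (fun La e1 Lm e2 Lb e h1 h2 => ?_)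
  subst e
  exact h.exchange (hP _ h1).1 (hP _ h1).2 (hP _ h2).1 (hP _ h2).2

end Pool.Agent.Helper7.ACP
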