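import Pool.Agent.Helper7.ACP.Local

/-!
# Valid placements and routes
-/

set_option autoImplicit false

namespace Pool.Agent.Helper7.ACP

open Relation

variable {V : Type} {A : V → V → Prop}

/-- Clearing with paths. -/
def ClearsP (A : V → V → Prop) (x : V) (π : List V) : Prop :=
  ∃ q : List V, q.Nodup ∧ DWalk A q ∧ q.head? = some x ∧ π <:+: q

/-- Clearing with walks. -/
def ClearsW (A : V → V → Prop) (x : V) (π : List V) : Prop :=
  ∃ q : List V, DWalk A q ∧ q.head? = some x ∧ π <:+: q

theorem clears_false : Clears false A = ClearsP A := by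
  funext x π
  simp [Clears, ClearsP]

theorem clears_true : Clears true A = ClearsW A := by
  funext x π
  simp [Clears, ClearsW]

theorem ClearsP.byWalk {x : V} {π : List V} (h : ClearsP A x π) : ClearsW A x π := by
  obtain ⟨q, -, h1, h2, h3⟩ := h
  exact ⟨q, h1, h2, h3⟩

theorem isChain_of_wk {R : V → V → Prop} {u w : V} {q : List V} (h : Wk R u q w) :
    (u :: q).IsChain R := by
  induction h with
  | nil => exact List.isChain_singleton _
  | cons h1 _ ih => exact List.isChain_cons_cons.mpr ⟨h1, ih⟩

theorem wk_of_isChain {R : V → V → Prop} {q : List V} : ∀ {u w : V},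
    (u :: (q ++ [w])).IsChain R → Wk R u (q ++ [w]) w := by
  induction q with
  | nil =>
    intro u w h
    exact .cons (List.isChain_cons_cons.mp h).1 (.nil _)
  | cons x q ih =>
    intro u w h
    rw [List.cons_append] at h ⊢
    obtain ⟨h1, h2⟩ := List.isChain_cons_cons.mp h
    exact .cons h1 (ih h2)

/-- The vertex is joined to all vertices of a walk that starts there. -/
theorem reach_of_walk {q : List V} : ∀ {x : V}, DWalk A q → q.head? = some x → ∀ y ∈ q,
    ReflTransGen A x y := by
  induction q with
  | nil => intro x _ h; simp at h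
  | cons a q ih =>
    intro x h hx y hy
    simp only [List.head?_cons, Option.some.injEq] at hx
    subst hx
    rcases List.mem_cons.mp hy with rfl | hy
    · exact .refl
    · cases q with
      | nil => simp at hy
      | cons b q =>
        obtain ⟨h1, h2⟩ := List.isChain_cons_cons.mp h
        exact .head h1 (ih h2 rfl y hy)

theorem ClearsW.reach {x y : V} {π : List V} (h : ClearsW A x π) (hy : y ∈ π) :
    ReflTransGen A x y := by
  obtain ⟨q, h1, h2, h3⟩ := h
  exact reach_of_walk h1 h2 y (h3.subset hy)

theorem route_of_concat {Cl : V → List V → Prop} (hCl : ∀ x π, Cl x π → ClearsW A x π) {α : ℕ}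
    {c : Fin α → V} {l : List (Fin α)} {P : List V} (h : Concat A Cl c l P) :
    ∃ u p L, P = u :: p ∧ Rt A u (p.getLastD u) p L ∧ (L.map Prod.fst).Sublist (l.map c) := by
  induction h with
  | done v => exact ⟨v, [], [], rfl, .nil _, by simp⟩
  | empty _ ih =>
    obtain ⟨u, p, L, h1, h2, h3⟩ := ih
    exact ⟨u, p, L, h1, h2, h3.cons _⟩
  | @segment a l π P v hs _ ih =>
    obtain ⟨u, p, L, h1, h2, h3⟩ := ih
    rw [List.cons.injEq] at h1
    obtain ⟨rfl, rfl⟩ := h1
    cases π with
    | nil => exact ⟨v, P, L, rfl, h2, h3.cons _⟩
    | cons x π =>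
      refine ⟨x, π ++ v :: P, ?_⟩
      have hl : (π ++ v :: P).getLastD x = P.getLastD v := by
        rw [getLastD_app, List.getLastD_cons]
      rw [hl, show π ++ v :: P = (π ++ [v]) ++ P by simp]
      rcases hs with ⟨h4, h5⟩ | ⟨h4, h5⟩
      · have h6 : Wk (dir A true) x (π ++ [v]) v := wk_of_isChain h4
        have h7 : ReflTransGen A (c a) x := (hCl _ _ h5).reach (by simp)
        exact ⟨_, by simp, Rt.cons (δ := true) h6 h7 h2, by
          rw [List.map_cons, List.map_cons]; exact h3.cons_cons _⟩
      · have h6 : Wk (dir A false) x (π ++ [v]) v := by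
          refine wk_of_isChain ?_
          unfold DWalk at h4
          rw [List.isChain_reverse] at h4
          exact h4
        have h7 : ReflTransGen A (c a) v := (hCl _ _ h5).reach (by simp)
        exact ⟨_, by simp, Rt.cons (δ := false) h6 h7 h2, by
          rw [List.map_cons, List.map_cons]; exact h3.cons_cons _⟩

theorem concat_done {Cl : V → List V → Prop} {α : ℕ} {c : Fin α → V} (v : V)
    (l : List (Fin α)) : Concat A Cl c l [v] := by
  induction l with
  | nil => exact .done v
  | cons a l ih => exact .empty ih

/-- What is needed to clear directed paths. -/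
def ClOK (A : V → V → Prop) (Cl : V → List V → Prop) : Prop :=
  ∀ (s x : V) (π : List V), DWalk A (x :: π) → ReflTransGen A s x → Cl s (x :: π)

theorem clears_ok : ClOK A (ClearsW A) := by
  intro s x π h h1
  obtain ⟨q, hq⟩ := exists_wk h1
  rcases List.eq_nil_or_concat q with rfl | ⟨q', y, rfl⟩
  · cases hq
    exact ⟨_, h, rfl, List.infix_refl _⟩
  · rw [List.concat_eq_append] at hq
    have h2 := hq.last
    rw [getLastD_app] at h2
    have h3 : y = x := h2
    subst h3
    refine ⟨s :: (q' ++ y :: π), ?_, rfl, ⟨s :: q', [], by simp⟩⟩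
    have h4 := isChain_of_wk hq
    unfold DWalk at h ⊢
    rw [← List.cons_append] at h4 ⊢
    rw [List.isChain_append] at h4 ⊢
    exact ⟨h4.1, h, fun a ha b hb => h4.2.2 a ha b (by simpa using hb)⟩

theorem concat_of_route {Cl : V → List V → Prop} (hCl : ClOK A Cl) {α : ℕ} {c : Fin α → V}
    {u v : V} {p : List V} {L : List (V × V × Bool)} (h : Rt A u v p L) :
    ∀ {J : List (Fin α)} (K : List (Fin α)), J.map c = L.map Prod.fst →
      Concat A Cl c (J ++ K) (u :: p) := by
  induction h with
  | nil u => intro J K _; exact concat_done u _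
  | @cons u w v s q p L δ h1 h2 h3 ih =>
    intro J K hJ
    cases J with
    | nil => simp at hJ
    | cons a J =>
      rw [List.map_cons, List.map_cons, List.cons.injEq] at hJ
      obtain ⟨ha, hJ⟩ := hJ
      simp only at ha
      subst ha
      have h4 := ih K hJ
      have h5 := isChain_of_wk h1
      have h6 := h1.last
      rcases List.eq_nil_or_concat q with rfl | ⟨q', y, rfl⟩
      · cases h1
        exact .empty h4
      · rw [List.concat_eq_append] at h1 h5 h6 ⊢
        rw [getLastD_app] at h6
        have h7 : y = w := h6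
        subst h7
        have h8 := Concat.segment (A := A) (Cl := Cl) (a := a) (π := u :: q') ?_ h4
        · rw [show u :: (q' ++ [y] ++ p) = u :: q' ++ y :: p by simp]
          exact h8
        · cases δ with
          | true =>
            left
            rw [List.cons_append]
            exact ⟨h5, hCl _ _ _ h5 h2⟩
          | false =>
            right
            have h9 : DWalk A (y :: (u :: q').reverse) := by
              unfold DWalk
              rw [show y :: (u :: q').reverse = (u :: (q' ++ [y])).reverse by simp,
                List.isChain_reverse]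
              exact h5
            rw [List.reverse_append, List.reverse_singleton, List.singleton_append]
            exact ⟨h9, hCl _ _ _ h9 h2⟩

theorem Rt.isChain {u v : V} {p : List V} {L : List (V × V × Bool)} (h : Rt A u v p L) :
    (u :: p).IsChain (fun x y => A x y ∨ A y x) := by
  induction h with
  | nil => exact List.isChain_singleton _
  | @cons u w v s q p L δ h1 _ _ ih =>
    have h5 : (u :: q).IsChain (fun x y => A x y ∨ A y x) :=
      (isChain_of_wk h1).imp (fun a b hab => by
        cases δ with
        | true => exact Or.inl hab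
        | false => exact Or.inr hab)
    have h6 := h1.last
    rcases List.eq_nil_or_concat q with rfl | ⟨q', y, rfl⟩
    · cases h1
      exact ih
    · rw [List.concat_eq_append] at h5 h6 ⊢
      rw [getLastD_app] at h6
      have h7 : y = w := h6
      subst h7
      rw [show u :: (q' ++ [y] ++ p) = u :: q' ++ y :: p by simp]
      rw [← List.cons_append] at h5
      rw [List.isChain_append] at h5 ⊢
      exact ⟨h5.1, ih, fun a ha b hb => h5.2.2 a ha b (by simpa using hb)⟩

theorem isChain_under {P : List V} (h : P.IsChain (fun x y => A x y ∨ A y x)) (hn : P.Nodup) :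
    P.IsChain (under A).Adj := by
  induction P with
  | nil => exact List.isChain_nil
  | cons x P ih =>
    cases P with
    | nil => exact List.isChain_singleton _
    | cons y P =>
      obtain ⟨h1, h2⟩ := List.isChain_cons_cons.mp h
      rw [List.nodup_cons] at hn
      refine List.isChain_cons_cons.mpr ⟨⟨?_, h1⟩, ih h2 hn.2⟩
      rintro rfl
      exact hn.1 (by simp)

variable [DecidableEq V]

/-- Number of agents at `x`. -/
def mult {α : ℕ} (c : Fin α → V) (x : V) : ℕ := (Finset.univ.filter (fun i => c i = x)).card

theorem count_map_eq {α : ℕ} (c : Fin α → V) {l : List (Fin α)} (hl : l.Nodup) (x : V) :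
    (l.map c).count x = (l.toFinset.filter (fun i => c i = x)).card := by
  induction l with
  | nil => simp
  | cons a l ih =>
    rw [List.nodup_cons] at hl
    rw [List.map_cons, List.count_cons, ih hl.2, List.toFinset_cons, Finset.filter_insert]
    by_cases h : c a = x
    · have h1 : (c a == x) = true := by simpa using h
      rw [if_pos h, if_pos h1, Finset.card_insert_of_notMem]
      intro h2
      exact hl.1 (List.mem_toFinset.mp (Finset.mem_filter.mp h2).1)
    · have h1 : ¬ (c a == x) = true := by simpa using h
      rw [if_neg h, if_neg h1, Nat.add_zero]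

theorem exists_indices {α : ℕ} (c : Fin α → V) : ∀ (S : List V) (U : Finset (Fin α)),
    (∀ x, S.count x ≤ (U.filter (fun i => c i = x)).card) →
    ∃ J : List (Fin α), J.map c = S ∧ J.Nodup ∧ ∀ j ∈ J, j ∈ U := by
  intro S
  induction S with
  | nil => intro U _; exact ⟨[], rfl, List.nodup_nil, by simp⟩
  | cons s S ih =>
    intro U hU
    have h1 := hU s
    rw [List.count_cons_self] at h1
    have h2 : 0 < (U.filter (fun i => c i = s)).card := by omega
    obtain ⟨i, hi⟩ := Finset.card_pos.mp h2
    obtain ⟨hi1, hi2⟩ := Finset.mem_filter.mp hi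
    obtain ⟨J, h3, h4, h5⟩ := ih (U.erase i) (fun x => by
      have h6 := hU x
      rw [List.count_cons] at h6
      rw [Finset.filter_erase]
      by_cases hx : s = x
      · subst hx
        rw [Finset.card_erase_of_mem hi]
        simp only [beq_self_eq_true, if_true] at h6
        omega
      · rw [Finset.erase_eq_of_notMem]
        · omega
        · intro h7
          exact hx (hi2.symm.trans (Finset.mem_filter.mp h7).2))
    refine ⟨i :: J, by rw [List.map_cons, h3, hi2], ?_, ?_⟩
    · rw [List.nodup_cons]
      exact ⟨fun h => (Finset.mem_erase.mp (h5 i h)).1 rfl, h4⟩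
    · intro j hj
      rcases List.mem_cons.mp hj with rfl | hj
      · exact hi1
      · exact Finset.mem_of_mem_erase (h5 j hj)

theorem valid_iff {Cl : V → List V → Prop} (h1 : ∀ x π, Cl x π → ClearsW A x π)
    (h2 : ClOK A Cl) {α : ℕ} (c : Fin α → V) :
    ValidPlacement A Cl c ↔ ∀ u v, u ≠ v → ∃ p L, Rt A u v p L ∧ Avail (mult c) L := by
  constructor
  · intro h u v huv
    obtain ⟨P, l, -, -, h3, h4, h5, h6⟩ := h u v huv
    obtain ⟨u', p, L, rfl, h7, h8⟩ := route_of_concat h1 h6
    simp only [List.head?_cons, Option.some.injEq] at h3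
    subst h3
    rw [List.getLast?_cons, Option.some.injEq] at h4
    have h4' : p.getLastD u' = v := by
      rw [← h4, List.getLastD_eq_getLast?]
    rw [h4'] at h7
    refine ⟨p, L, h7, fun x => (h8.count_le x).trans ?_⟩
    have h9 : l.Nodup := h5.nodup_iff.mpr (List.nodup_finRange α)
    rw [count_map_eq c h9]
    unfold mult
    exact Finset.card_le_card (Finset.filter_subset_filter _ (Finset.subset_univ _))
  · intro h u v huv
    obtain ⟨p0, L0, h3, h4⟩ := h u v huv
    obtain ⟨p, L, hm⟩ := exists_min h3 h4
    obtain ⟨J, hJ1, hJ2, -⟩ := exists_indices c (L.map Prod.fst) Finset.univ (fun x => hm.av x)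
    set K : List (Fin α) := (List.finRange α).filter (fun i => decide (i ∉ J)) with hK
    refine ⟨u :: p, J ++ K, hm.nodup, isChain_under hm.rt.isChain hm.nodup, rfl, ?_, ?_,
      concat_of_route h2 hm.rt K hJ1⟩
    · rw [List.getLast?_cons, Option.some.injEq, ← List.getLastD_eq_getLast?]
      exact hm.rt.last
    · rw [List.perm_ext_iff_of_nodup]
      · intro i
        simp only [List.mem_append, hK, List.mem_filter, List.mem_finRange, true_and,
          decide_eq_true_eq]
        tauto
      · rw [List.nodup_append]
        refine ⟨hJ2, (List.nodup_finRange α).filter _, ?_⟩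
        intro a ha b hb hab
        subst hab
        rw [hK, List.mem_filter] at hb
        exact (of_decide_eq_true hb.2) ha
      · exact List.nodup_finRange α

/-! ### Numbers of agents -/

theorem sum_mult [Fintype V] {α : ℕ} (c : Fin α → V) : ∑ x, mult c x = α := by
  unfold mult
  have h := Finset.card_eq_sum_card_fiberwise (f := c) (s := (Finset.univ : Finset (Fin α)))
    (t := Finset.univ) (fun _ _ => Finset.mem_coe.mpr (Finset.mem_univ _))
  rw [Finset.card_univ, Fintype.card_fin] at h
  exact h.symm

theorem exists_placement [Fintype V] (m : V → ℕ) : ∃ c : Fin (∑ x, m x) → V, mult c = m := by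
  have hc : Fintype.card (Σ x : V, Fin (m x)) = ∑ x, m x := by simp
  obtain e : Fin (∑ x, m x) ≃ Σ x : V, Fin (m x) := (finCongr hc.symm).trans
    (Fintype.equivFin _).symm
  refine ⟨fun i => (e i).1, funext fun x => ?_⟩
  unfold mult
  have h1 : (Finset.univ.filter (fun i => (e i).1 = x)).card =
      ((Finset.univ : Finset (Σ x : V, Fin (m x))).filter (fun s => s.1 = x)).card := by
    refine Finset.card_bij (fun i _ => e i) ?_ (fun a _ b _ h => e.injective h) ?_
    · intro a ha
      simpa using ha
    · intro s hs
      exact ⟨e.symm s, by simpa using hs, by simp⟩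
  have h2 : (Finset.univ : Finset (Σ x : V, Fin (m x))).filter (fun s => s.1 = x) =
      ({x} : Finset V).sigma (fun x => (Finset.univ : Finset (Fin (m x)))) := by
    ext ⟨y, s⟩
    simp
  rw [h1, h2, Finset.card_sigma]
  simp

/-- All pairs are joined, in local form. -/
def ValidN (F : Finset (V × V)) (m : V → ℕ) : Prop := ∀ u v, u ≠ v → LocalN F m u v

theorem sInf_eq_of {S1 S2 : Set ℕ} (h1 : S2 ⊆ S1) (h2 : ∀ a ∈ S1, ∃ b ∈ S2, b ≤ a) :
    sInf S1 = sInf S2 := by
  rcases S2.eq_empty_or_nonempty with h | h
  · have h3 : S1 = ∅ := by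
      rw [Set.eq_empty_iff_forall_notMem]
      intro a ha
      obtain ⟨b, hb, -⟩ := h2 a ha
      rw [h] at hb
      exact hb
    rw [h, h3]
  · refine le_antisymm (Nat.sInf_le (h1 (Nat.sInf_mem h))) ?_
    obtain ⟨b, hb, hba⟩ := h2 _ (Nat.sInf_mem (h.mono h1))
    exact (Nat.sInf_le hb).trans hba

end Pool.Agent.Helper7.ACP
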