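import Pool.Agent.Helper7.ACP.Local
import Pool.Agent.Helper7.ACP.Formal

/-!
# Chains of simple paths

The version of the routes for clearing with directed paths without repeated vertices.
-/

set_option autoImplicit false

namespace Pool.Agent.Helper7.ACP

open Relation

variable {V : Type}

/-- The list of the vertices of a directed path (without repetition). -/
def SP (A : V → V → Prop) (q : List V) : Prop := q.Nodup ∧ q.IsChain A

/-- Chains of directed paths. -/
inductive Rs (A : V → V → Prop) : V → V → List (List V) → Prop
  | nil (u : V) : Rs A u u []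
  | cons {u w v : V} {q : List V} {L : List (List V)} :
      SP A q → u ∈ q → w ∈ q → Rs A w v L → Rs A u v (q :: L)

/-- Chains of directed paths with marked bodies: the list of the vertices of the walk after the
first one, the list of (approach, body). -/
inductive Tc (A : V → V → Prop) : V → V → List V → List (List V × List V) → Prop
  | nil (u : V) : Tc A u u [] []
  | cons {u w v : V} {a q P : List V} {L : List (List V × List V)} {δ : Bool} :
      SP A (a ++ cond δ (u :: q) (u :: q).reverse) → q.getLastD u = w → Tc A w v P L →
      Tc A u v (q ++ P) ((a, cond δ (u :: q) (u :: q).reverse) :: L)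

variable {A : V → V → Prop}

/-- The full path. -/
def fullP (e : List V × List V) : List V := e.1 ++ e.2

theorem Rs.append {u w v : V} {L L' : List (List V)} (h : Rs A u w L) (h' : Rs A w v L') :
    Rs A u v (L ++ L') := by
  induction h with
  | nil => exact h'
  | cons h1 h2 h3 _ ih => exact Rs.cons h1 h2 h3 (ih h')

theorem Tc.append {u w v : V} {P P' : List V} {L L' : List (List V × List V)}
    (h : Tc A u w P L) (h' : Tc A w v P' L') : Tc A u v (P ++ P') (L ++ L') := by
  induction h with
  | nil => exact h'
  | cons h1 h2 _ ih =>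
    rw [List.append_assoc]
    exact Tc.cons h1 h2 (ih h')

theorem getLastD_mem (q : List V) (u : V) : q.getLastD u ∈ u :: q := by
  induction q generalizing u with
  | nil => simp
  | cons x q ih =>
    rw [List.getLastD_cons]
    exact List.mem_cons_of_mem _ (ih x)

theorem Tc.toRs {u v : V} {P : List V} {L : List (List V × List V)} (h : Tc A u v P L) :
    Rs A u v (L.map fullP) := by
  induction h with
  | nil => exact Rs.nil _
  | @cons u w v a q P L δ h1 h2 _ ih =>
    refine Rs.cons h1 ?_ ?_ ih
    · refine List.mem_append_right _ ?_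
      cases δ <;> simp
    · refine List.mem_append_right _ ?_
      have h3 := getLastD_mem q u
      rw [h2] at h3
      cases δ with
      | true => exact h3
      | false =>
        show w ∈ (u :: q).reverse
        rw [List.mem_reverse]
        exact h3

theorem SP.sub {q q' : List V} (h : SP A q) (h' : q' <:+: q) : SP A q' := by
  refine ⟨h.1.sublist h'.sublist, ?_⟩
  obtain ⟨l1, l2, rfl⟩ := h'
  exact (h.2.left_of_append).right_of_append

/-- Marking a body. -/
theorem exists_mark {q : List V} {u w : V} (h : SP A q) (hu : u ∈ q) (hw : w ∈ q) :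
    ∃ (a p : List V) (δ : Bool), SP A (a ++ cond δ (u :: p) (u :: p).reverse) ∧
      p.getLastD u = w ∧ (a ++ cond δ (u :: p) (u :: p).reverse).head? = q.head? := by
  obtain ⟨l1, l2, hl⟩ := List.append_of_mem hu
  subst hl
  rcases List.mem_append.mp hw with hw1 | hw2
  · obtain ⟨l3, l4, hl⟩ := List.append_of_mem hw1
    subst hl
    refine ⟨l3, (l4.reverse ++ [w]), false, ?_, ?_, ?_⟩
    · refine h.sub ⟨[], l2, ?_⟩
      simp
    · rw [getLastD_app]
      rfl
    · cases l3 <;> simp
  · obtain ⟨l3, l4, hl⟩ : ∃ l3 l4, u :: l2 = u :: (l3 ++ l4) ∧ l3.getLastD u = w := by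
      rcases List.mem_cons.mp hw2 with rfl | hw3
      · exact ⟨[], l2, rfl, rfl⟩
      · obtain ⟨l3, l4, hl⟩ := List.append_of_mem hw3
        exact ⟨l3 ++ [w], l4, by rw [hl]; simp, by rw [getLastD_app]; rfl⟩
    obtain ⟨hl, hw4⟩ := hl
    rw [hl] at h
    refine ⟨l1, l3, true, ?_, hw4, ?_⟩
    · refine h.sub ⟨[], l4, ?_⟩
      simp
    · cases l1 <;> simp

theorem Rs.toTc {u v : V} {L : List (List V)} (h : Rs A u v L) :
    ∃ P M, Tc A u v P M ∧ M.map (fun e => (fullP e).head?) = L.map List.head? := by
  induction h with
  | nil u => exact ⟨[], [], Tc.nil _, rfl⟩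
  | cons h1 h2 h3 _ ih =>
    obtain ⟨P, M, h4, h5⟩ := ih
    obtain ⟨a, p, δ, h6, h7, h8⟩ := exists_mark h1 h2 h3
    refine ⟨_, _, Tc.cons h6 h7 h4, ?_⟩
    rw [List.map_cons, List.map_cons, h5]
    exact congrArg (fun z => z :: _) h8

/-- Splitting a chain at a vertex. -/
theorem Tc.split {u v : V} {p : List V} {L : List (List V × List V)} (h : Tc A u v p L) :
    ∀ {p1 p2 : List V}, p = p1 ++ p2 → L ≠ [] → ∃ La e e1 e2 Lb,
      L = La ++ e :: Lb ∧ Tc A u (p1.getLastD u) p1 (La ++ [e1]) ∧
      Tc A (p1.getLastD u) v p2 (e2 :: Lb) ∧ (fullP e1).head? = (fullP e).head? ∧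
      (fullP e2).head? = (fullP e).head? := by
  induction h with
  | nil => intro p1 p2 _ h; exact absurd rfl h
  | @cons u w v a q p L δ h1 h2 h3 ih =>
    intro p1 p2 hp _
    have key : ∀ a' : List V, q = p1 ++ a' → p2 = a' ++ p → ∃ La e e1 e2 Lb,
      (a, cond δ (u :: q) (u :: q).reverse) :: L = La ++ e :: Lb ∧
      Tc A u (p1.getLastD u) p1 (La ++ [e1]) ∧
      Tc A (p1.getLastD u) v p2 (e2 :: Lb) ∧ (fullP e1).head? = (fullP e).head? ∧
      (fullP e2).head? = (fullP e).head? := by
      intro a' hq hp2
      subst hq hp2
      rw [getLastD_app] at h2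
      cases δ with
      | true =>
        -- first part: approach `a`, body `u :: p1`
        obtain ⟨a2, ha2⟩ : ∃ a2, a ++ u :: p1 = a2 ++ [p1.getLastD u] := by
          rcases List.eq_nil_or_concat p1 with rfl | ⟨p1', y, rfl⟩
          · exact ⟨a, rfl⟩
          · refine ⟨a ++ u :: p1', ?_⟩
            rw [List.concat_eq_append, getLastD_app]
            simp
        refine ⟨[], _, (a, u :: p1), (a2, p1.getLastD u :: a'), L, rfl, ?_, ?_, ?_, ?_⟩
        · have h4 := Tc.cons (A := A) (u := u) (w := p1.getLastD u) (v := p1.getLastD u) (a := a)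
            (q := p1) (δ := true) ?_ rfl (Tc.nil _)
          · rw [List.append_nil] at h4
            exact h4
          · refine h1.sub ⟨[], a', ?_⟩
            simp
        · refine Tc.cons (δ := true) ?_ h2 h3
          have h5 : a2 ++ p1.getLastD u :: a' = a ++ u :: (p1 ++ a') := by
            rw [show a2 ++ p1.getLastD u :: a' = (a2 ++ [p1.getLastD u]) ++ a' by simp, ← ha2]
            simp
          show SP A (a2 ++ p1.getLastD u :: a')
          rw [h5]
          exact h1
        · cases a <;> simp [fullP]
        · have h5 : a2 ++ p1.getLastD u :: a' = a ++ u :: (p1 ++ a') := by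
            rw [show a2 ++ p1.getLastD u :: a' = (a2 ++ [p1.getLastD u]) ++ a' by simp, ← ha2]
            simp
          show (a2 ++ p1.getLastD u :: a').head? = _
          rw [h5]
          rfl
      | false =>
        obtain ⟨b2, hb2⟩ : ∃ b2, (u :: p1).reverse = p1.getLastD u :: b2 := by
          rcases List.eq_nil_or_concat p1 with rfl | ⟨p1', y, rfl⟩
          · exact ⟨[], rfl⟩
          · refine ⟨(u :: p1').reverse, ?_⟩
            rw [List.concat_eq_append, getLastD_app]
            simp
        refine ⟨[], _, (a ++ a'.reverse, (u :: p1).reverse), (a, (p1.getLastD u :: a').reverse),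
          L, rfl, ?_, ?_, ?_, ?_⟩
        · have h4 := Tc.cons (A := A) (u := u) (w := p1.getLastD u) (v := p1.getLastD u)
            (a := a ++ a'.reverse) (q := p1) (δ := false) ?_ rfl (Tc.nil _)
          · rw [List.append_nil] at h4
            exact h4
          · have h5 : a ++ a'.reverse ++ (u :: p1).reverse = a ++ (u :: (p1 ++ a')).reverse := by
              simp
            show SP A (a ++ a'.reverse ++ (u :: p1).reverse)
            rw [h5]
            exact h1
        · refine Tc.cons (δ := false) ?_ h2 h3
          refine h1.sub ⟨[], b2, ?_⟩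
          have h5 : (u :: (p1 ++ a')).reverse = a'.reverse ++ (u :: p1).reverse := by simp
          show [] ++ (a ++ (p1.getLastD u :: a').reverse) ++ b2 = a ++ (u :: (p1 ++ a')).reverse
          rw [h5, hb2]
          simp
        · show (a ++ a'.reverse ++ (u :: p1).reverse).head? = _
          have h5 : a ++ a'.reverse ++ (u :: p1).reverse = a ++ (u :: (p1 ++ a')).reverse := by
              simp
          rw [h5]
          rfl
        · show (a ++ (p1.getLastD u :: a').reverse).head? = (a ++ (u :: (p1 ++ a')).reverse).head?
          have h5 : (u :: (p1 ++ a')).reverse = a'.reverse ++ (u :: p1).reverse := by simp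
          rw [h5, hb2, List.reverse_cons]
          cases a with
          | nil =>
            cases a'.reverse with
            | nil => rfl
            | cons => rfl
          | cons => rfl
    rcases List.append_eq_append_iff.mp hp with ⟨a', ha, hb⟩ | ⟨a', ha, hb⟩
    · by_cases hL : L = []
      · subst hL
        cases h3
        have hb' : a' = [] ∧ p2 = [] := by simpa using hb.symm
        obtain ⟨rfl, rfl⟩ := hb'
        exact key [] (by simpa using ha.symm) rfl
      · obtain ⟨La, e, e1, e2, Lb, h4, h5, h6, h7, h8⟩ := ih hb hL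
        subst ha
        rw [getLastD_app, h2]
        refine ⟨(a, cond δ (u :: q) (u :: q).reverse) :: La, e, e1, e2, Lb, by rw [h4]; rfl, ?_,
          h6, h7, h8⟩
        exact Tc.cons h1 h2 h5
    · exact key a' ha hb

variable [DecidableEq V]

/-- The agents used by the chain are available. -/
def AvailS (m : V → ℕ) (L : List (Option V)) : Prop := ∀ x, L.count (some x) ≤ m x

theorem AvailS.of_sublist {m : V → ℕ} {L L' : List (Option V)} (h : AvailS m L)
    (h' : L'.Sublist L) : AvailS m L' :=
  fun x => (h'.count_le _).trans (h x)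

/-- The list of the starts. -/
def starts (L : List (List V × List V)) : List (Option V) := L.map (fun e => (fullP e).head?)

/-- A chain with the fewest paths, and the shortest among these. -/
structure MinS (A : V → V → Prop) (m : V → ℕ) (u v : V) (p : List V)
    (L : List (List V × List V)) : Prop where
  rt : Tc A u v p L
  av : AvailS m (starts L)
  min1 : ∀ L', Rs A u v L' → AvailS m (L'.map List.head?) → L.length ≤ L'.length
  min2 : ∀ p' L', Tc A u v p' L' → AvailS m (starts L') → L'.length ≤ L.length →
    p.length ≤ p'.length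

theorem exists_minS {m : V → ℕ} {u v : V} {L : List (List V)}
    (h : Rs A u v L) (ha : AvailS m (L.map List.head?)) : ∃ p L, MinS A m u v p L := by
  classical
  obtain ⟨p0, L0, h01, h02⟩ := h.toTc
  have h1 : ∃ r, ∃ p L, Tc A u v p L ∧ AvailS m (starts L) ∧ L.length = r :=
    ⟨_, p0, L0, h01, by unfold starts; rw [h02]; exact ha, rfl⟩
  have h2 : ∃ l, ∃ p L, Tc A u v p L ∧ AvailS m (starts L) ∧ L.length = Nat.find h1 ∧
      p.length = l := by
    obtain ⟨p, L, h3, h4, h5⟩ := Nat.find_spec h1
    exact ⟨_, p, L, h3, h4, h5, rfl⟩
  obtain ⟨p0, L0, h3, h4, h5, h6⟩ := Nat.find_spec h2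
  refine ⟨p0, L0, h3, h4, fun L' h7 h8 => ?_, fun p' L' h7 h8 h9 => ?_⟩
  · rw [h5]
    obtain ⟨p1, L1, h10, h11⟩ := h7.toTc
    have h12 : L1.length = L'.length := by
      have := congrArg List.length h11
      simpa using this
    rw [← h12]
    exact Nat.find_min' h1 ⟨p1, L1, h10, by unfold starts; rw [h11]; exact h8, rfl⟩
  · rw [h6]
    refine Nat.find_min' h2 ⟨p', L', h7, h8, ?_, rfl⟩
    exact le_antisymm (h9.trans h5.le) (Nat.find_min' h1 ⟨p', L', h7, h8, rfl⟩)

omit [DecidableEq V] in
theorem starts_append (L L' : List (List V × List V)) :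
    starts (L ++ L') = starts L ++ starts L' := List.map_append

omit [DecidableEq V] in
theorem starts_cons (e : List V × List V) (L : List (List V × List V)) :
    starts (e :: L) = (fullP e).head? :: starts L := rfl

omit [DecidableEq V] in
theorem starts_nil : starts ([] : List (List V × List V)) = [] := rfl

/-- The walk of a minimal chain is a path. -/
theorem MinS.nodup {m : V → ℕ} {u v : V} {p : List V} {L : List (List V × List V)}
    (h : MinS A m u v p L) : (u :: p).Nodup := by
  by_contra hn
  obtain ⟨p1, p2, p3, hp, hne, hl⟩ := not_nodup_split hn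
  have hL : L ≠ [] := by
    rintro rfl
    have h1 := h.rt
    cases h1
    simp at hp
    exact hne hp.2.1
  obtain ⟨La, e, e1, e2, Lb, hL1, h1, h2, hs1, hs2⟩ := h.rt.split hp hL
  obtain ⟨La', e', e1', e2', Lb', hL2, h3, h4, hs3, hs4⟩ := h2.split rfl (by simp)
  have hz : p2.getLastD (p1.getLastD u) = p1.getLastD u := by rw [← getLastD_app, ← hl]
  rw [hz] at h4 h3
  have hlen : (p1 ++ p3).length < p.length := by
    rw [hp]
    have : 0 < p2.length := List.length_pos_iff.mpr hne
    simp only [List.length_append]
    omega
  cases La' with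
  | nil =>
    -- the closed walk is inside one run
    rw [List.nil_append] at h3
    generalize p1.getLastD u = z at h3
    cases h3 with
    | @cons _ w _ a q P _ δ h5 h6 h7 =>
      cases h7
      rw [List.append_nil] at hne
      have h8 : (z :: q).Nodup := by
        have h9 := h5.1
        rw [List.nodup_append] at h9
        cases δ with
        | true => exact h9.2.1
        | false => exact List.nodup_reverse.mp h9.2.1
      rw [List.nodup_cons] at h8
      apply h8.1
      rcases List.eq_nil_or_concat q with rfl | ⟨q', y, rfl⟩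
      · exact absurd rfl hne
      · rw [List.concat_eq_append, getLastD_app] at h6
        have h9 : y = z := h6
        rw [h9]
        simp
  | cons e0 La'' =>
    rw [List.cons_append, List.cons.injEq] at hL2
    obtain ⟨rfl, hL2⟩ := hL2
    have h5 := h1.append h4
    have h6 := h.min2 _ _ h5 (h.av.of_sublist (by
      rw [hL1, hL2, starts_append, starts_append, starts_append, starts_cons, starts_cons,
        starts_nil, starts_cons, starts_append, starts_cons, hs1, hs4, List.append_assoc]
      refine List.Sublist.append (List.Sublist.refl _) ?_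
      refine List.Sublist.cons_cons _ ?_
      exact List.sublist_append_right _ _)) (by
        rw [hL1, hL2]
        simp only [List.length_append, List.length_cons, List.length_nil]
        omega)
    omega

/-- The exchange lemma: paths that are not consecutive are disjoint. -/
theorem MinS.exchange {m : V → ℕ} {u v z : V} {p : List V} {La Lm Lb : List (List V × List V)}
    {e1 e2 : List V × List V} (h : MinS A m u v p (La ++ e1 :: (Lm ++ e2 :: Lb)))
    (h1 : z ∈ fullP e1) (h2 : z ∈ fullP e2) : Lm = [] := by
  have key : ∀ (L1 : List (List V × List V)) {L2 : List (List V × List V)} {u v : V} {p : List V},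
      Tc A u v p (L1 ++ L2) → ∃ x pa pb, Tc A u x pa L1 ∧ Tc A x v pb L2 := by
    intro L1
    induction L1 with
    | nil => intro L2 u v p h; exact ⟨u, _, _, Tc.nil _, h⟩
    | cons e L1 ih =>
      intro L2 u v p h
      rw [List.cons_append] at h
      cases h with
      | cons h3 h4 h5 =>
        obtain ⟨x, pa, pb, h6, h7⟩ := ih h5
        exact ⟨x, _, pb, Tc.cons h3 h4 h6, h7⟩
  obtain ⟨x, pa, pb, h3, h4⟩ := key _ h.rt
  obtain ⟨y, pc, pd, h5, h6⟩ := key (e1 :: Lm) (by simpa using h4)
  -- the first path contains `x`
  have hx : SP A (fullP e1) ∧ x ∈ fullP e1 := by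
    cases h5 with
    | @cons _ w _ a q P _ δ h7 h8 h9 =>
      refine ⟨h7, List.mem_append_right _ ?_⟩
      cases δ <;> simp
  obtain ⟨hy, y', hy', pe, h7⟩ : SP A (fullP e2) ∧ ∃ y', y' ∈ fullP e2 ∧ ∃ pe, Tc A y' v pe Lb := by
    cases h6 with
    | @cons _ w _ a q P _ δ h7 h8 h9 =>
      refine ⟨h7, w, List.mem_append_right _ ?_, _, h9⟩
      have h3 := getLastD_mem q y
      rw [h8] at h3
      cases δ with
      | true => exact h3
      | false =>
        show w ∈ (y :: q).reverse
        rw [List.mem_reverse]
        exact h3
  have h8 := h3.toRs.append (Rs.cons hx.1 hx.2 h1 (Rs.cons hy h2 hy' h7.toRs))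
  have h9 := h.min1 _ h8 (h.av.of_sublist (by
    rw [starts_append, starts_cons, starts_append, starts_cons]
    unfold starts
    rw [List.map_append, List.map_cons, List.map_cons, List.map_map, List.map_map]
    refine List.Sublist.append (List.Sublist.refl _) ?_
    refine List.Sublist.cons_cons _ ?_
    exact List.sublist_append_right _ _))
  simp only [List.length_append, List.length_cons, List.length_map] at h9
  exact List.eq_nil_of_length_eq_zero (by omega)

end Pool.Agent.Helper7.ACP
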