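import Mathlib

/-!
# Agents clearing paths: definitions

The path clearing number `acp` of a digraph, treewidth, and the encoding of digraphs as strings.
-/

set_option autoImplicit false

namespace Pool.Agent.Helper7.ACP

/-! ### Digraphs, clearing, placements -/

section Clear

variable {V : Type}

/-- `q` is the list of vertices of a directed walk of the digraph with arc relation `A`. -/
def DWalk (A : V → V → Prop) (q : List V) : Prop := q.IsChain A

/-- The agent placed at `x` clears the directed path `π`.

With `walks = false`: some directed path (a directed walk `q` without repeated vertices) that starts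
at `x` contains `π` as a block of consecutive vertices.

With `walks = true`: some directed walk (which may repeat vertices) that starts at `x` contains `π`.
The agent walks forward along arcs and passes through all of `π`. (In a digraph without directed
cycles every directed walk is a directed path, so there is no difference.) -/
def Clears (walks : Bool) (A : V → V → Prop) (x : V) (π : List V) : Prop :=
  ∃ q : List V, (walks = false → q.Nodup) ∧ DWalk A q ∧ q.head? = some x ∧ π <:+: q

/-- The underlying (undirected) graph of the digraph with arc relation `A`. -/
def under (A : V → V → Prop) : SimpleGraph V where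
  Adj x y := x ≠ y ∧ (A x y ∨ A y x)
  symm := ⟨fun _ _ h => ⟨h.1.symm, h.2.symm⟩⟩
  loopless := ⟨fun _ h => h.1 rfl⟩

/-- `Concat A Cl c l P`: the path with list of vertices `P` is the concatenation, in the order of
the list `l` of agents, of one segment per agent of `l`; each segment is either empty or a directed
path of the digraph (read along `P` or against `P`) that is cleared by this agent from its vertex.
(`Cl x π` says that an agent placed at `x` clears `π`.) -/
inductive Concat (A : V → V → Prop) (Cl : V → List V → Prop) {α : ℕ} (c : Fin α → V) :
    List (Fin α) → List V → Prop
  | done (v : V) : Concat A Cl c [] [v]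
  | empty {a : Fin α} {l : List (Fin α)} {P : List V} : Concat A Cl c l P → Concat A Cl c (a :: l) P
  | segment {a : Fin α} {l : List (Fin α)} {π P : List V} {v : V} :
      (DWalk A (π ++ [v]) ∧ Cl (c a) (π ++ [v])) ∨
        (DWalk A (π ++ [v]).reverse ∧ Cl (c a) (π ++ [v]).reverse) →
      Concat A Cl c l (v :: P) → Concat A Cl c (a :: l) (π ++ v :: P)

/-- A placement `c` of `α` agents is valid if for all distinct `u`, `v` there is a path `P` from
`u` to `v` in the underlying graph that is a concatenation of `α` segments, one for each agent in
some order, such that every segment is empty or is a directed path that its agent clears. -/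
def ValidPlacement (A : V → V → Prop) (Cl : V → List V → Prop) {α : ℕ} (c : Fin α → V) : Prop :=
  ∀ u v : V, u ≠ v → ∃ (P : List V) (l : List (Fin α)),
    P.Nodup ∧ P.IsChain (under A).Adj ∧ P.head? = some u ∧ P.getLast? = some v ∧
    l.Perm (List.finRange α) ∧ Concat A Cl c l P

/-- The path clearing number: the least number `α ≥ 1` of agents in a valid placement. (For a
digraph with only one vertex this is `1`.) -/
noncomputable def acp (walks : Bool) (A : V → V → Prop) : ℕ :=
  sInf {α : ℕ | 1 ≤ α ∧ ∃ c : Fin α → V, ValidPlacement A (Clears walks A) c}

end Clear

/-! ### Treewidth -/

/-- A tree decomposition of `G` all of whose bags have at most `k + 1` vertices. -/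
structure TreeDec {V : Type} (G : SimpleGraph V) (k : ℕ) where
  /-- the nodes of the tree -/
  ι : Type
  /-- finitely many nodes -/
  fin : Finite ι
  /-- the tree -/
  T : SimpleGraph ι
  /-- it is a tree -/
  tree : T.IsTree
  /-- the bags -/
  bag : ι → Finset V
  /-- every vertex is in a bag -/
  vertex : ∀ v, ∃ i, v ∈ bag i
  /-- the ends of every edge are in a common bag -/
  edge : ∀ u v, G.Adj u v → ∃ i, u ∈ bag i ∧ v ∈ bag i
  /-- the nodes whose bags contain a given vertex are connected in the tree -/
  conn : ∀ v, (T.induce {i | v ∈ bag i}).Connected
  /-- the width is at most `k` -/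
  card : ∀ i, (bag i).card ≤ k + 1

/-- The treewidth of `G` is at most `k`. -/
def TreewidthLE {V : Type} (G : SimpleGraph V) (k : ℕ) : Prop := Nonempty (TreeDec G k)

/-! ### Instances and their encoding -/

/-- A digraph without loops on the vertex set `{0, …, n - 1}`. -/
structure Dig where
  /-- number of vertices -/
  n : ℕ
  /-- the arcs -/
  arc : Fin n → Fin n → Bool
  /-- no loops -/
  loopless : ∀ x, arc x x = false

/-- The arc relation. -/
def Dig.A (D : Dig) (x y : Fin D.n) : Prop := D.arc x y = true

/-- The encoding of a digraph: `n` in unary, followed by the adjacency matrix, row by row. -/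
def Dig.enc (D : Dig) : List Bool :=
  List.replicate D.n true ++ false ::
    (List.finRange D.n).flatMap (fun x => (List.finRange D.n).map (fun y => D.arc x y))

/-- The class `𝒟_k`: the underlying graph is connected and has treewidth at most `k`. -/
def Dig.InClass (k : ℕ) (D : Dig) : Prop :=
  (under D.A).Connected ∧ TreewidthLE (under D.A) k

end Pool.Agent.Helper7.ACP
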