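import Pool.Agent.Helper7.ACP.ToLocS

/-!
# Valid placements and chains of simple paths
-/

set_option autoImplicit false

namespace Pool.Agent.Helper7.ACP

open Relation

variable {V : Type} {A : V → V → Prop}

theorem rs_of_concat {α : ℕ} {c : Fin α → V} {l : List (Fin α)} {P : List V}
    (h : Concat A (ClearsP A) c l P) :
    ∃ u p L, P = u :: p ∧ Rs A u (p.getLastD u) L ∧
      (L.map List.head?).Sublist (l.map (fun a => some (c a))) := by
  induction h with
  | done v => exact ⟨v, [], [], rfl, .nil _, by simp⟩
  | empty _ ih =>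
    obtain ⟨u, p, L, h1, h2, h3⟩ := ih
    exact ⟨u, p, L, h1, h2, h3.cons _⟩
  | @segment a l π P v hs _ ih =>
    obtain ⟨u, p, L, h1, h2, h3⟩ := ih
    rw [List.cons.injEq] at h1
    obtain ⟨rfl, rfl⟩ := h1
    cases π with
    | nil => exact ⟨v, P, L, rfl, h2, h3.cons _⟩
    | cons x π =>
      refine ⟨x, π ++ v :: P, ?_⟩
      have hl : (π ++ v :: P).getLastD x = P.getLastD v := by
        rw [getLastD_app, List.getLastD_cons]
      rw [hl]
      obtain ⟨q, hq, hh, hx, hv⟩ : ∃ q, SP A q ∧ q.head? = some (c a) ∧ x ∈ q ∧ v ∈ q := by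
        rcases hs with ⟨-, q, h4, h5, h6, h7⟩ | ⟨-, q, h4, h5, h6, h7⟩
        · exact ⟨q, ⟨h4, h5⟩, h6, h7.subset (by simp), h7.subset (by simp)⟩
        · exact ⟨q, ⟨h4, h5⟩, h6, h7.subset (by simp), h7.subset (by simp)⟩
      exact ⟨q :: L, by simp, Rs.cons hq hx hv h2, by
        rw [List.map_cons, List.map_cons, hh]; exact h3.cons_cons _⟩

theorem concat_of_tc {α : ℕ} {c : Fin α → V} {u v : V} {p : List V}
    {L : List (List V × List V)} (h : Tc A u v p L) :
    ∀ {J : List (Fin α)} (K : List (Fin α)), J.map (fun j => some (c j)) = starts L →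
      Concat A (ClearsP A) c (J ++ K) (u :: p) := by
  induction h with
  | nil u => intro J K _; exact concat_done u _
  | @cons u w v a q P L δ h1 h2 h3 ih =>
    intro J K hJ
    cases J with
    | nil => simp [starts] at hJ
    | cons j J =>
      rw [starts_cons, List.map_cons, List.cons.injEq] at hJ
      obtain ⟨ha, hJ⟩ := hJ
      have h4 := ih K hJ
      have h5 : ClearsP A (c j) (cond δ (u :: q) (u :: q).reverse) :=
        ⟨_, h1.1, h1.2, ha.symm, ⟨a, [], by simp⟩⟩
      have h6 : DWalk A (cond δ (u :: q) (u :: q).reverse) := h1.2.right_of_append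
      obtain ⟨π, hπ, hπ'⟩ : ∃ π, u :: q = π ++ [w] ∧ u :: (q ++ P) = π ++ w :: P := by
        rcases List.eq_nil_or_concat q with rfl | ⟨q', y, rfl⟩
        · have h7 : u = w := h2
          subst h7
          exact ⟨[], rfl, rfl⟩
        · rw [List.concat_eq_append, getLastD_app] at h2
          have h7 : y = w := h2
          subst h7
          exact ⟨u :: q', by simp, by simp⟩
      rw [hπ']
      refine Concat.segment ?_ h4
      rw [hπ] at h5 h6
      cases δ with
      | true => exact Or.inl ⟨h6, h5⟩
      | false => exact Or.inr ⟨h6, h5⟩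

theorem Tc.isChain {u v : V} {p : List V} {L : List (List V × List V)} (h : Tc A u v p L) :
    (u :: p).IsChain (fun x y => A x y ∨ A y x) := by
  induction h with
  | nil => exact List.isChain_singleton _
  | @cons u w v a q P L δ h1 h2 _ ih =>
    have h5 : (u :: q).IsChain (fun x y => A x y ∨ A y x) := by
      have h6 : (cond δ (u :: q) (u :: q).reverse).IsChain A := h1.2.right_of_append
      cases δ with
      | true => exact List.IsChain.imp (fun _ _ => Or.inl) h6
      | false =>
        have h7 : (u :: q).reverse.IsChain A := h6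
        rw [List.isChain_reverse] at h7
        exact List.IsChain.imp (fun _ _ => Or.inr) h7
    rcases List.eq_nil_or_concat q with rfl | ⟨q', y, rfl⟩
    · have h7 : u = w := h2
      subst h7
      exact ih
    · rw [List.concat_eq_append] at h5 h2 ⊢
      rw [getLastD_app] at h2
      have h7 : y = w := h2
      subst h7
      rw [show u :: (q' ++ [y] ++ P) = u :: q' ++ y :: P by simp]
      rw [← List.cons_append] at h5
      rw [List.isChain_append] at h5 ⊢
      exact ⟨h5.1, ih, fun a ha b hb => h5.2.2 a ha b (by simpa using hb)⟩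

theorem Tc.last {u v : V} {p : List V} {L : List (List V × List V)} (h : Tc A u v p L) :
    p.getLastD u = v := by
  induction h with
  | nil => rfl
  | cons _ h2 _ ih => rw [getLastD_app, h2]; exact ih

theorem starts_eq {L : List (List V × List V)} (h : ∀ e ∈ L, e.2 ≠ []) :
    ∃ S : List V, starts L = S.map some := by
  induction L with
  | nil => exact ⟨[], rfl⟩
  | cons e L ih =>
    obtain ⟨S, hS⟩ := ih (fun e he => h e (List.mem_cons_of_mem _ he))
    have h1 : fullP e ≠ [] := by
      unfold fullP
      intro h2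
      exact h e (by simp) (List.append_eq_nil_iff.mp h2).2
    obtain ⟨x, l, hx⟩ := List.exists_cons_of_ne_nil h1
    exact ⟨x :: S, by rw [starts_cons, hS, hx]; rfl⟩

variable [DecidableEq V]

theorem validS_iff {α : ℕ} (c : Fin α → V) :
    ValidPlacement A (ClearsP A) c ↔
      ∀ u v, u ≠ v → ∃ L, Rs A u v L ∧ AvailS (mult c) (L.map List.head?) := by
  constructor
  · intro h u v huv
    obtain ⟨P, l, -, -, h3, h4, h5, h6⟩ := h u v huv
    obtain ⟨u', p, L, rfl, h7, h8⟩ := rs_of_concat h6
    simp only [List.head?_cons, Option.some.injEq] at h3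
    subst h3
    rw [List.getLast?_cons, Option.some.injEq] at h4
    have h4' : p.getLastD u' = v := by
      rw [← h4, List.getLastD_eq_getLast?]
    rw [h4'] at h7
    refine ⟨L, h7, fun x => (h8.count_le _).trans ?_⟩
    have h9 : l.Nodup := h5.nodup_iff.mpr (List.nodup_finRange α)
    have h10 : (l.map (fun a => some (c a))).count (some x) = (l.map c).count x := by
      rw [show (fun a => some (c a)) = some ∘ c from rfl, ← List.map_map]
      exact List.count_map_of_injective _ _ (Option.some_injective V) _
    rw [h10, count_map_eq c h9]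
    unfold mult
    exact Finset.card_le_card (Finset.filter_subset_filter _ (Finset.subset_univ _))
  · intro h u v huv
    obtain ⟨L0, h3, h4⟩ := h u v huv
    obtain ⟨p, L, hm⟩ := exists_minS h3 h4
    obtain ⟨S, hS⟩ := starts_eq (fun e he => (hm.rt.prop e he).2)
    obtain ⟨J, hJ1, hJ2, -⟩ := exists_indices c S Finset.univ (fun x => by
      have h5 := hm.av x
      rw [hS, List.count_map_of_injective _ _ (Option.some_injective V)] at h5
      exact h5)
    set K : List (Fin α) := (List.finRange α).filter (fun i => decide (i ∉ J)) with hK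
    refine ⟨u :: p, J ++ K, hm.nodup, isChain_under hm.rt.isChain hm.nodup, rfl, ?_, ?_,
      concat_of_tc hm.rt K ?_⟩
    · rw [List.getLast?_cons, Option.some.injEq, ← List.getLastD_eq_getLast?]
      exact hm.rt.last
    · rw [List.perm_ext_iff_of_nodup]
      · intro i
        simp only [List.mem_append, hK, List.mem_filter, List.mem_finRange, true_and,
          decide_eq_true_eq]
        tauto
      · rw [List.nodup_append]
        refine ⟨hJ2, (List.nodup_finRange α).filter _, ?_⟩
        intro a ha b hb hab
        subst hab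
        rw [hK, List.mem_filter] at hb
        exact (of_decide_eq_true hb.2) ha
      · exact List.nodup_finRange α
    · rw [hS, ← hJ1, List.map_map]
      rfl

/-- The number of agents as a minimum over multiplicities at most two. -/
theorem acp_eq_gen [Fintype V] {Cl : V → List V → Prop} {W W' : (V → ℕ) → Prop}
    (hW : ∀ {α : ℕ} (c : Fin α → V), ValidPlacement A Cl c ↔ W (mult c))
    (h1 : ∀ m, W m → W' (fun x => min (m x) 2)) (h2 : ∀ m, W' m → W m) :
    sInf {α : ℕ | 1 ≤ α ∧ ∃ c : Fin α → V, ValidPlacement A Cl c} =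
      sInf {s : ℕ | 1 ≤ s ∧ ∃ m : V → ℕ, (∀ x, m x ≤ 2) ∧ W' m ∧ ∑ x, m x = s} := by
  refine sInf_eq_of ?_ ?_
  · rintro s ⟨hs, m, -, h3, rfl⟩
    obtain ⟨c, hc⟩ := exists_placement m
    refine ⟨hs, c, (hW c).mpr ?_⟩
    rw [hc]
    exact h2 m h3
  · rintro α ⟨hα, c, hc⟩
    rw [hW c] at hc
    refine ⟨∑ x, min (mult c x) 2, ⟨?_, fun x => min (mult c x) 2, fun x => min_le_right _ _,
      h1 _ hc, rfl⟩, ?_⟩
    · by_contra h3
      have h4 : ∑ x, min (mult c x) 2 = 0 := by omega
      have h5 : ∑ x, mult c x = 0 := by
        rw [Finset.sum_eq_zero_iff] at h4 ⊢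
        intro x hx
        have := h4 x hx
        omega
      rw [sum_mult] at h5
      omega
    · exact (Finset.sum_le_sum (fun x _ => min_le_left _ _)).trans (sum_mult c).le

end Pool.Agent.Helper7.ACP
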