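import Pool.Agent.Helper7.ACP.LocS

/-!
# From the local form to chains of simple paths
-/

set_option autoImplicit false

namespace Pool.Agent.Helper7.ACP

open Relation

/-! ### General lemmas -/

theorem two_le_sum {ι : Type} {S : Finset ι} {f : ι → ℕ} {a b : ι} (ha : a ∈ S) (hb : b ∈ S)
    (hab : a ≠ b) (h1 : 1 ≤ f a) (h2 : 1 ≤ f b) : 2 ≤ ∑ i ∈ S, f i := by
  classical
  calc 2 ≤ f a + f b := by omega
    _ = ∑ i ∈ ({a, b} : Finset ι), f i := (Finset.sum_pair hab).symm
    _ ≤ ∑ i ∈ S, f i := Finset.sum_le_sum_of_subset (by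
        intro i hi
        rcases Finset.mem_insert.mp hi with rfl | hi
        · exact ha
        · rw [Finset.mem_singleton.mp hi]; exact hb)

/-- On a finite set, predecessors give successors. -/
theorem fin_swap {V : Type} [Finite V] {R : V → V → Prop} {B : V → Prop}
    (hr : ∀ x y z, R x y → R x z → y = z) (h : ∀ y, B y → ∃ x, R x y ∧ B x) :
    ∀ x, B x → ∃ y, R x y ∧ B y := by
  have h' : ∀ y : {y // B y}, ∃ x : {x // B x}, R x.1 y.1 := by
    rintro ⟨y, hy⟩
    obtain ⟨x, h1, h2⟩ := h y hy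
    exact ⟨⟨x, h2⟩, h1⟩
  choose f hf using h'
  have hinj : Function.Injective f := by
    intro y y' hyy
    refine Subtype.ext (hr _ _ _ (hf y) ?_)
    rw [hyy]
    exact hf y'
  intro x hx
  obtain ⟨y, hy⟩ := (Finite.injective_iff_surjective.mp hinj) ⟨x, hx⟩
  refine ⟨y.1, ?_, y.2⟩
  have := hf y
  rw [hy] at this
  exact this

section Det

variable {V : Type}

theorem wk_nodup {R : V → V → Prop} {s : V} (hl : ∀ x y z, R x z → R y z → x = y)
    (hs : ∀ x, ¬ R x s) (q : List V) : ∀ {y : V}, Wk R s q y → (s :: q).Nodup := by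
  induction q using List.reverseRecOn with
  | nil => intro y _; simp
  | append_singleton q y ih =>
    intro y' h
    obtain ⟨h1, h2⟩ := h.split
    have h3 := ih h1
    have h4 : R (q.getLastD s) y := by
      cases h2 with
      | cons h4 _ => exact h4
    have h5 : y ∉ s :: q := by
      intro hy
      rcases List.mem_cons.mp hy with rfl | hy
      · exact hs _ h4
      · obtain ⟨l1, l2, rfl⟩ := List.append_of_mem hy
        obtain ⟨h6, h7⟩ := h1.split
        have h8 : R (l1.getLastD s) y := by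
          cases h7 with
          | cons h8 _ => exact h8
        have h9 := hl _ _ _ h4 h8
        rw [getLastD_app, List.getLastD_cons] at h9
        have h10 := getLastD_mem l2 y
        have h11 := getLastD_mem l1 s
        rw [h9] at h10
        rw [show s :: (l1 ++ y :: l2) = (s :: l1) ++ (y :: l2) by simp, List.nodup_append] at h3
        exact h3.2.2 _ h11 _ h10 rfl
    rw [show s :: (q ++ [y]) = (s :: q) ++ [y] by simp, List.nodup_append]
    refine ⟨h3, by simp, ?_⟩
    intro a ha b hb hab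
    rw [List.mem_singleton] at hb
    subst hab hb
    exact h5 ha

/-- Two vertices that are reached from `s` are on one path from `s`. -/
theorem det_path {R : V → V → Prop} {s x y : V} (hr : ∀ x y z, R x y → R x z → y = z)
    (hl : ∀ x y z, R x z → R y z → x = y) (hs : ∀ x, ¬ R x s)
    (hx : ReflTransGen R s x) (hy : ReflTransGen R s y) :
    ∃ q : List V, q.Nodup ∧ q.IsChain R ∧ q.head? = some s ∧ x ∈ q ∧ y ∈ q := by
  have key : ∀ {x y : V}, ReflTransGen R s x → ReflTransGen R x y →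
      ∃ q : List V, q.Nodup ∧ q.IsChain R ∧ q.head? = some s ∧ x ∈ q ∧ y ∈ q := by
    intro x y h1 h2
    obtain ⟨q1, hq1⟩ := exists_wk h1
    obtain ⟨q2, hq2⟩ := exists_wk h2
    have h3 := hq1.append hq2
    refine ⟨s :: (q1 ++ q2), wk_nodup hl hs _ h3, isChain_of_wk h3, rfl, ?_, ?_⟩
    · have h4 := getLastD_mem q1 s
      rw [hq1.last] at h4
      rw [← List.cons_append]
      exact List.mem_append_left _ h4
    · have h4 := getLastD_mem (q1 ++ q2) s
      rw [h3.last] at h4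
      exact h4
  rcases ReflTransGen.total_of_right_unique (fun a b c h1 h2 => hr a b c h1 h2) hx hy with h | h
  · exact key hx h
  · obtain ⟨q, h1, h2, h3, h4, h5⟩ := key hy h
    exact ⟨q, h1, h2, h3, h5, h4⟩

theorem Rn.reach {A S : V → V → Prop} (h1 : ∀ x y, A x y → S x y) (h2 : ∀ x y, A x y → S y x)
    {u v : V} {T : List V} (h : Rn A u v T) : ReflTransGen S u v := by
  induction h with
  | nil => exact .refl
  | fwd h3 _ ih => exact ReflTransGen.trans (ReflTransGen.mono h1 _ _ h3) ih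
  | @bwd u w v T h3 _ ih =>
    refine ReflTransGen.trans ?_ ih
    have h4 : ReflTransGen (Function.swap A) u w := h3.swap
    exact ReflTransGen.mono (fun x y h => h2 y x h) _ _ h4

end Det

/-! ### Sums -/

variable {V : Type} [DecidableEq V]

theorem sOut_unique {F : Finset (V × V)} {f : V × V → ℕ} {x y z : V} (h : sOut F f x ≤ 1)
    (hy : (x, y) ∈ F) (hy' : 1 ≤ f (x, y)) (hz : (x, z) ∈ F) (hz' : 1 ≤ f (x, z)) : y = z := by
  by_contra hyz
  have h1 : 2 ≤ sOut F f x := two_le_sum (a := (x, y)) (b := (x, z))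
    (Finset.mem_filter.mpr ⟨hy, rfl⟩) (Finset.mem_filter.mpr ⟨hz, rfl⟩)
    (fun h => hyz (Prod.mk.inj h).2) hy' hz'
  omega

theorem sIn_unique {F : Finset (V × V)} {f : V × V → ℕ} {x y z : V} (h : sIn F f x ≤ 1)
    (hy : (y, x) ∈ F) (hy' : 1 ≤ f (y, x)) (hz : (z, x) ∈ F) (hz' : 1 ≤ f (z, x)) : y = z := by
  by_contra hyz
  have h1 : 2 ≤ sIn F f x := two_le_sum (a := (y, x)) (b := (z, x))
    (Finset.mem_filter.mpr ⟨hy, rfl⟩) (Finset.mem_filter.mpr ⟨hz, rfl⟩)
    (fun h => hyz (Prod.mk.inj h).1) hy' hz'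
  omega

theorem sOut_pos {F : Finset (V × V)} {f : V × V → ℕ} {x : V} (h : 1 ≤ sOut F f x) :
    ∃ y, (x, y) ∈ F ∧ 1 ≤ f (x, y) := by
  unfold sOut at h
  obtain ⟨⟨a, b⟩, he, he'⟩ := Finset.exists_ne_zero_of_sum_ne_zero (by omega :
    ∑ e ∈ F with e.1 = x, f e ≠ 0)
  obtain ⟨h1, h2⟩ := Finset.mem_filter.mp he
  simp only at h2
  subst h2
  exact ⟨b, h1, Nat.one_le_iff_ne_zero.mpr he'⟩

theorem sIn_pos {F : Finset (V × V)} {f : V × V → ℕ} {x : V} (h : 1 ≤ sIn F f x) :
    ∃ y, (y, x) ∈ F ∧ 1 ≤ f (y, x) := by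
  unfold sIn at h
  obtain ⟨⟨a, b⟩, he, he'⟩ := Finset.exists_ne_zero_of_sum_ne_zero (by omega :
    ∑ e ∈ F with e.2 = x, f e ≠ 0)
  obtain ⟨h1, h2⟩ := Finset.mem_filter.mp he
  simp only at h2
  subst h2
  exact ⟨a, h1, Nat.one_le_iff_ne_zero.mpr he'⟩

theorem le_sOut {F : Finset (V × V)} {f : V × V → ℕ} {x y : V} (h : (x, y) ∈ F) :
    f (x, y) ≤ sOut F f x :=
  Finset.single_le_sum (f := f) (fun _ _ => Nat.zero_le _) (Finset.mem_filter.mpr ⟨h, rfl⟩)

theorem le_sIn {F : Finset (V × V)} {f : V × V → ℕ} {x y : V} (h : (y, x) ∈ F) :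
    f (y, x) ≤ sIn F f x :=
  Finset.single_le_sum (f := f) (fun _ _ => Nat.zero_le _) (Finset.mem_filter.mpr ⟨h, rfl⟩)

theorem oD_eq_sOut {F : Finset (V × V)} {g : V × V → ℕ} (hg : ∀ e, g e ≤ 1) (x : V) :
    oD (F.filter (fun e => g e = 1)) x = sOut F g x := by
  unfold oD sOut
  rw [Finset.card_eq_sum_ones, Finset.filter_filter, Finset.sum_filter, Finset.sum_filter]
  refine Finset.sum_congr rfl (fun e _ => ?_)
  have := hg e
  by_cases h1 : e.1 = x
  · by_cases h2 : g e = 1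
    · simp [h1, h2]
    · have h3 : g e = 0 := by omega
      simp [h1, h3]
  · simp [h1]

theorem iD_eq_sIn {F : Finset (V × V)} {g : V × V → ℕ} (hg : ∀ e, g e ≤ 1) (x : V) :
    iD (F.filter (fun e => g e = 1)) x = sIn F g x := by
  unfold iD sIn
  rw [Finset.card_eq_sum_ones, Finset.filter_filter, Finset.sum_filter, Finset.sum_filter]
  refine Finset.sum_congr rfl (fun e _ => ?_)
  have := hg e
  by_cases h1 : e.2 = x
  · by_cases h2 : g e = 1
    · simp [h1, h2]
    · have h3 : g e = 0 := by omega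
      simp [h1, h3]
  · simp [h1]

/-! ### The theorem -/

variable {A : V → V → Prop}

theorem rs_of_locS [Finite V] {F : Finset (V × V)} (hF : ∀ x y, (x, y) ∈ F ↔ A x y) {m : V → ℕ}
    {u v : V} (huv : u ≠ v) (h : LocS F m u v) :
    ∃ L, Rs A u v L ∧ AvailS m (L.map List.head?) := by
  obtain ⟨α, β, hαβ, hβ1, h⟩ := h
  -- arcs of colour `c` and body arcs
  let R : Bool → V → V → Prop := fun c x y => (x, y) ∈ F ∧ 1 ≤ α c (x, y)
  let B : Bool → V → V → Prop := fun c x y => (x, y) ∈ F ∧ 1 ≤ β c (x, y)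
  have hBR : ∀ c x y, B c x y → R c x y := fun c x y h1 => ⟨h1.1, h1.2.trans (hαβ c _).1⟩
  have hRr : ∀ c x y z, R c x y → R c x z → y = z := fun c x y z h1 h2 =>
    sOut_unique ((h x).1 c).1 h1.1 h1.2 h2.1 h2.2
  have hRl : ∀ c x y z, R c x z → R c y z → x = y := fun c x y z h1 h2 =>
    sIn_unique ((h z).1 c).2.1 h1.1 h1.2 h2.1 h2.2
  -- the vertices on closed paths of colour `c`
  let Bad : Bool → V → Prop := fun c y =>
    ¬ ∃ s, sIn F (α c) s = 0 ∧ ReflTransGen (R c) s y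
  have hBad1 : ∀ c y, Bad c y → ∃ x, R c x y ∧ Bad c x := by
    intro c y hy
    have h1 : 1 ≤ sIn F (α c) y := by
      by_contra h2
      exact hy ⟨y, by omega, .refl⟩
    obtain ⟨x, h2, h3⟩ := sIn_pos h1
    refine ⟨x, ⟨h2, h3⟩, ?_⟩
    rintro ⟨s, h4, h5⟩
    exact hy ⟨s, h4, h5.tail ⟨h2, h3⟩⟩
  have hBad2 : ∀ c x, Bad c x → ∃ y, R c x y ∧ Bad c y := fun c =>
    fin_swap (hRr c) (hBad1 c)
  let D : Bool → V → Prop := fun c y => Bad c y ∧ ∃ x, B c x y
  have hD1 : ∀ c y, D c y → ∃ z, B c y z ∧ D c z := by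
    rintro c y ⟨h1, x, h2⟩
    obtain ⟨z, h3, h4⟩ := hBad2 c y h1
    have h5 : B c y z := by
      have h6 := ((h y).1 c).2.2
      have h7 := le_sIn (f := β c) h2.1
      have h8 := le_sOut (f := α c) h3.1
      have h9 := h2.2
      have h10 := h3.2
      obtain ⟨z', h11, h12⟩ := sOut_pos (F := F) (f := β c) (x := y) (by omega)
      have h13 := hRr c y z z' h3 (hBR c y z' ⟨h11, h12⟩)
      rw [h13]
      exact ⟨h11, h12⟩
    exact ⟨z, h5, h4, y, h5⟩
  have hD2 : ∀ c y, D c y → ∃ x, B c x y ∧ D c x := by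
    intro c
    exact fin_swap (R := fun y x => B c x y) (B := D c)
      (fun x y z h1 h2 => hRl c y z x (hBR c _ _ h1) (hBR c _ _ h2)) (hD1 c)
  -- the body arcs of both colours
  let b : V × V → ℕ := fun e => β false e + β true e
  have hb : ∀ c e, β c e ≤ b e := by
    intro c e
    show β c e ≤ β false e + β true e
    cases c <;> omega
  have hbI : ∀ x, sIn F b x = sIn F (β false) x + sIn F (β true) x := fun x =>
    Finset.sum_add_distrib
  have hbO : ∀ x, sOut F b x = sOut F (β false) x + sOut F (β true) x := fun x =>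
    Finset.sum_add_distrib
  have hdeg : ∀ x, sIn F b x + sOut F b x + (if x = u then 1 else 0) +
      (if x = v then 1 else 0) = 0 ∨ sIn F b x + sOut F b x + (if x = u then 1 else 0) +
      (if x = v then 1 else 0) = 2 := by
    intro x
    have h1 := (h x).2.1
    rw [hbI, hbO]
    omega
  let Ea : V → V → Prop := fun x y => (x, y) ∈ F ∧ 1 ≤ b (x, y)
  let S : V → V → Prop := fun x y => Ea x y ∨ Ea y x
  have hDE : ∀ c y, D c y → sIn F b y = 1 ∧ sOut F b y = 1 ∧ y ≠ u := by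
    intro c y hy
    obtain ⟨x, h1, -⟩ := hD2 c y hy
    obtain ⟨z, h2, -⟩ := hD1 c y hy
    have h3 := le_sIn (f := b) h1.1
    have h4 := le_sOut (f := b) h2.1
    have h5 := hb c (x, y)
    have h6 := hb c (y, z)
    have h7 := h1.2
    have h8 := h2.2
    have h9 := hdeg y
    have h10 : y ≠ u := by
      intro h11
      rw [if_pos h11] at h9
      omega
    rw [if_neg h10] at h9
    exact ⟨by omega, by omega, h10⟩
  have hDc : ∀ c x y, S x y → D c y → D c x := by
    intro c x y hxy hy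
    obtain ⟨h1, h2, -⟩ := hDE c y hy
    obtain ⟨x', h3, h4⟩ := hD2 c y hy
    obtain ⟨z', h5, h6⟩ := hD1 c y hy
    rcases hxy with h7 | h7
    · have := sIn_unique (f := b) h1.le h7.1 h7.2 h3.1 (h3.2.trans (hb c _))
      rw [this]
      exact h4
    · have := sOut_unique (f := b) h2.le h7.1 h7.2 h5.1 (h5.2.trans (hb c _))
      rw [this]
      exact h6
  -- a walk from `u` to `v`
  have hwalk : ReflTransGen S u v := by
    have h1 : ∀ e ∈ F.filter (fun e => b e = 1), Ea e.1 e.2 := by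
      intro e he
      obtain ⟨h2, h3⟩ := Finset.mem_filter.mp he
      exact ⟨h2, h3.ge⟩
    have hm1 : ∀ x y, Ea x y → S x y := fun x y h => Or.inl h
    have hm2 : ∀ x y, Ea x y → S y x := fun x y h => Or.inr h
    rcases extract (A := Ea) _ (F.filter (fun e => b e = 1)) u v rfl huv h1
      (fun x => by rw [oD_eq_sOut hβ1, iD_eq_sIn hβ1]; exact hdeg x) with
      ⟨-, w, T, h2, h3, -⟩ | ⟨-, w, T, h2, h3, -⟩
    · exact Rn.reach hm1 hm2 (Rn.fwd h2 h3)
    · exact Rn.reach hm1 hm2 (Rn.bwd h2 h3)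
  -- the paths
  let J : Bool × V → Prop := fun j => sIn F (α j.1) j.2 = 0 ∧ 1 ≤ sOut F (α j.1) j.2
  let Q : Bool × V → V → Prop := fun j x => ReflTransGen (R j.1) j.2 x
  have hstep : ∀ x y, (∀ c, ¬ D c x) → (∀ c, ¬ D c y) → S x y → ∃ j, J j ∧ Q j x ∧ Q j y := by
    have key : ∀ x y, (∀ c, ¬ D c y) → Ea x y → ∃ j, J j ∧ Q j x ∧ Q j y := by
      intro x y hy hxy
      obtain ⟨c, hc⟩ : ∃ c, B c x y := by
        have h1 : 1 ≤ β false (x, y) + β true (x, y) := hxy.2
        by_cases h2 : 1 ≤ β false (x, y)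
        · exact ⟨false, hxy.1, h2⟩
        · exact ⟨true, hxy.1, by omega⟩
      have h1 : ¬ Bad c y := fun h2 => hy c ⟨h2, x, hc⟩
      obtain ⟨s, h2, h3⟩ := not_not.mp h1
      have hR := hBR c x y hc
      have h4 : s ≠ y := by
        rintro rfl
        have := le_sIn (f := α c) hR.1
        have := hR.2
        omega
      have h5 : ReflTransGen (R c) s x := by
        rcases h3.cases_tail with h6 | ⟨x', h6, h7⟩
        · exact absurd h6.symm h4
        · rw [hRl c x x' y hR h7]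
          exact h6
      have h6 : 1 ≤ sOut F (α c) s := by
        rcases h3.cases_head with h6 | ⟨x', h6, h7⟩
        · exact absurd h6 h4
        · exact h6.2.trans (le_sOut h6.1)
      exact ⟨(c, s), ⟨h2, h6⟩, h5, h3⟩
    rintro x y hx hy (h1 | h1)
    · exact key x y hy h1
    · obtain ⟨j, h2, h3, h4⟩ := key y x hx h1
      exact ⟨j, h2, h4, h3⟩
  let I : Bool × V → Bool × V → Prop := fun j j' => J j' ∧ ∃ z, Q j z ∧ Q j' z
  have hconn : ∀ x, ReflTransGen S u x → (∀ c, ¬ D c x) ∧ (x = u ∨ ∃ j0 j1, J j0 ∧ Q j0 u ∧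
      ReflTransGen I j0 j1 ∧ Q j1 x) := by
    intro x hx
    induction hx with
    | refl => exact ⟨fun c hc => (hDE c u hc).2.2 rfl, Or.inl rfl⟩
    | @tail x y _ hxy ih =>
      obtain ⟨ih1, ih2⟩ := ih
      have hy : ∀ c, ¬ D c y := fun c hc => ih1 c (hDc c x y hxy hc)
      obtain ⟨j, h1, h2, h3⟩ := hstep x y ih1 hy hxy
      refine ⟨hy, Or.inr ?_⟩
      rcases ih2 with rfl | ⟨j0, j1, h4, h5, h6, h7⟩
      · exact ⟨j, j, h1, h2, .refl, h3⟩
      · exact ⟨j0, j, h4, h5, h6.tail ⟨h1, x, h7, h2⟩, h3⟩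
  obtain ⟨-, h1 | ⟨j0, j1, hj0, hu, hI, hv⟩⟩ := hconn v hwalk
  · exact absurd h1.symm huv
  obtain ⟨q, hq, hqn⟩ := exists_nodup_wk hI
  -- paths through two vertices
  have hpath : ∀ j x y, J j → Q j x → Q j y → ∃ q : List V, SP A q ∧ q.head? = some j.2 ∧
      x ∈ q ∧ y ∈ q := by
    intro j x y hj hx hy
    obtain ⟨q, h1, h2, h3, h4, h5⟩ := det_path (hRr j.1) (hRl j.1) (fun z hz => by
      have h6 := le_sIn (f := α j.1) hz.1
      have h7 := hz.2
      have h8 := hj.1
      omega) hx hy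
    exact ⟨q, ⟨h1, h2.imp (fun a b hab => (hF a b).mp hab.1)⟩, h3, h4, h5⟩
  have hchain : ∀ {j0 j1 : Bool × V} {q : List (Bool × V)}, Wk I j0 q j1 → J j0 → Q j1 v →
      ∀ u, Q j0 u → ∃ L, Rs A u v L ∧ L.map List.head? = (j0 :: q).map (fun j => some j.2) := by
    intro j0 j1 q h1
    induction h1 with
    | nil j =>
      intro hj hv u hu
      obtain ⟨l, h2, h3, h4, h5⟩ := hpath j u v hj hu hv
      exact ⟨[l], Rs.cons h2 h4 h5 (Rs.nil _), by simp [h3]⟩
    | @cons j j' j'' q h1 _ ih =>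
      intro hj hv u hu
      obtain ⟨hj', z, hz, hz'⟩ := h1
      obtain ⟨l, h2, h3, h4, h5⟩ := hpath j u z hj hu hz
      obtain ⟨L, h6, h7⟩ := ih hj' hv z hz'
      exact ⟨l :: L, Rs.cons h2 h4 h5 h6, by rw [List.map_cons, h7, h3]; rfl⟩
  obtain ⟨L, hL, hLs⟩ := hchain hq hj0 hv u hu
  refine ⟨L, hL, fun x => ?_⟩
  rw [hLs]
  -- all are in `J`
  have hJ : ∀ {j0 j1 : Bool × V} {q : List (Bool × V)}, Wk I j0 q j1 → J j0 →
      ∀ j ∈ j0 :: q, J j := by
    intro j0 j1 q h1
    induction h1 with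
    | nil j =>
      intro hj j' hj'
      rw [List.mem_singleton.mp hj']
      exact hj
    | cons h1 _ ih =>
      intro hj j' hj'
      rcases List.mem_cons.mp hj' with rfl | hj'
      · exact hj
      · exact ih h1.1 j' hj'
  have hJq := hJ hq hj0
  generalize j0 :: q = l at hqn hJq
  have h2 : (l.map (fun j => some j.2)).count (some x) ≤
      l.count (false, x) + l.count (true, x) := by
    clear hqn hJq hLs
    induction l with
    | nil => simp
    | cons j l ih =>
      obtain ⟨c, y⟩ := j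
      simp only [List.map_cons, List.count_cons, beq_iff_eq, Option.some.injEq,
        Prod.mk.injEq] at ih ⊢
      cases c <;> by_cases hy : y = x <;> simp [hy] <;> omega
  have h3 : ∀ c, l.count (c, x) ≤ sOut F (α c) x - sIn F (α c) x := by
    intro c
    by_cases hc : (c, x) ∈ l
    · have h4 : l.count (c, x) ≤ 1 := List.nodup_iff_count_le_one.mp hqn _
      have h5 := hJq _ hc
      have h6 : sIn F (α c) x = 0 := h5.1
      have h7 : 1 ≤ sOut F (α c) x := h5.2
      omega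
    · rw [List.count_eq_zero.mpr hc]
      exact Nat.zero_le _
  have h4 := (h x).2.2
  have h5 := h3 false
  have h6 := h3 true
  omega

end Pool.Agent.Helper7.ACP
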