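import Pool.Agent.Helper7.ACP.Core2

/-!
# Local form for chains of simple paths
-/

set_option autoImplicit false

namespace Pool.Agent.Helper7.ACP

open Relation

variable {V : Type} [DecidableEq V] {A : V → V → Prop}

/-- The local form: `α c` marks the arcs of the paths of colour `c`, `β c` the arcs of their
bodies, which form a path from `u` to `v`. -/
def LocS (F : Finset (V × V)) (m : V → ℕ) (u v : V) : Prop :=
  ∃ α β : Bool → V × V → ℕ, (∀ c e, β c e ≤ α c e ∧ α c e ≤ 1) ∧
    (∀ e, β false e + β true e ≤ 1) ∧ ∀ x,
      (∀ c, sOut F (α c) x ≤ 1 ∧ sIn F (α c) x ≤ 1 ∧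
        sIn F (β c) x + sOut F (α c) x ≤ 1 + sOut F (β c) x) ∧
      (sIn F (β false) x + sOut F (β false) x + (sIn F (β true) x + sOut F (β true) x) +
          (if x = u then 1 else 0) + (if x = v then 1 else 0) = 0 ∨
        sIn F (β false) x + sOut F (β false) x + (sIn F (β true) x + sOut F (β true) x) +
          (if x = u then 1 else 0) + (if x = v then 1 else 0) = 2) ∧
      (sOut F (α false) x - sIn F (α false) x) + (sOut F (α true) x - sIn F (α true) x) ≤ m x

end Pool.Agent.Helper7.ACP
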