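import Pool.Agent.Helper7.ACP.Sat
import Pool.Agent.Helper7.ACP.LocS

/-!
# The local rules for chains of simple paths
-/

set_option autoImplicit false

namespace Pool.Agent.Helper7.ACP

/-- The labels: for both colours, is the arc on a path, is it in the body. -/
def LabS : Type := {l : Bool → ℕ × ℕ // (∀ c, (l c).2 ≤ (l c).1 ∧ (l c).1 ≤ 1) ∧
  (l false).2 + (l true).2 ≤ 1}

instance : Nonempty LabS := ⟨⟨fun _ => (0, 0), fun _ => ⟨le_refl _, Nat.zero_le _⟩,
  Nat.zero_le _⟩⟩

/-- The labels and the local rules for clearing with paths. -/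
def specS : Spec (Bool → Sat × Sat × Sat × Sat) LabS where
  wo l := fun c => (toSat (l.1 c).1, 0, toSat (l.1 c).2, 0)
  wi l := fun c => (0, toSat (l.1 c).1, 0, toSat (l.1 c).2)
  ok a du dv r := (∀ c, (r c).1.val ≤ 1 ∧ (r c).2.1.val ≤ 1 ∧
      (r c).2.2.2.val + (r c).1.val ≤ 1 + (r c).2.2.1.val) ∧
    ((r false).2.2.2.val + (r false).2.2.1.val + ((r true).2.2.2.val + (r true).2.2.1.val) +
        (if du = true then 1 else 0) + (if dv = true then 1 else 0) = 0 ∨
      (r false).2.2.2.val + (r false).2.2.1.val + ((r true).2.2.2.val + (r true).2.2.1.val) +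
        (if du = true then 1 else 0) + (if dv = true then 1 else 0) = 2) ∧
    ((r false).1.val - (r false).2.1.val) + ((r true).1.val - (r true).2.1.val) ≤ a

variable {V : Type} [DecidableEq V]

theorem sumAt_specS (F : Finset (V × V)) (ℓ : V × V → LabS) (x : V) (c : Bool) :
    sumAt specS F ℓ x c = (toSat (sOut F (fun e => ((ℓ e).1 c).1) x),
      toSat (sIn F (fun e => ((ℓ e).1 c).1) x), toSat (sOut F (fun e => ((ℓ e).1 c).2) x),
      toSat (sIn F (fun e => ((ℓ e).1 c).2) x)) := by
  unfold sumAt sOut sIn specS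
  rw [Pi.add_apply, Finset.sum_apply, Finset.sum_apply]
  refine Prod.ext ?_ (Prod.ext ?_ (Prod.ext ?_ ?_))
  · simp only [Prod.fst_add, Prod.fst_sum, map_sum, Finset.sum_const_zero, add_zero]
  · simp only [Prod.fst_add, Prod.snd_add, Prod.fst_sum, Prod.snd_sum, map_sum,
      Finset.sum_const_zero, zero_add]
  · simp only [Prod.fst_add, Prod.snd_add, Prod.fst_sum, Prod.snd_sum, map_sum,
      Finset.sum_const_zero, add_zero]
  · simp only [Prod.snd_add, Prod.snd_sum, map_sum,
      Finset.sum_const_zero, zero_add]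

theorem okS_iff (a : ℕ) (du dv : Bool) (r : Bool → Sat × Sat × Sat × Sat)
    (oa ia ob ib : Bool → ℕ)
    (hr : ∀ c, r c = (toSat (oa c), toSat (ia c), toSat (ob c), toSat (ib c))) :
    specS.ok a du dv r ↔
      (∀ c, oa c ≤ 1 ∧ ia c ≤ 1 ∧ ib c + oa c ≤ 1 + ob c) ∧
      (ib false + ob false + (ib true + ob true) +
          (if du = true then 1 else 0) + (if dv = true then 1 else 0) = 0 ∨
        ib false + ob false + (ib true + ob true) +
          (if du = true then 1 else 0) + (if dv = true then 1 else 0) = 2) ∧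
      (oa false - ia false) + (oa true - ia true) ≤ a := by
  unfold specS
  simp only [hr, val_toSat, Bool.forall_bool]
  constructor
  · rintro ⟨⟨⟨h1, h2, h3⟩, h4, h5, h6⟩, h7, h8⟩
    refine ⟨⟨⟨by omega, by omega, by omega⟩, by omega, by omega, by omega⟩, by omega, by omega⟩
  · rintro ⟨⟨⟨h1, h2, h3⟩, h4, h5, h6⟩, h7, h8⟩
    refine ⟨⟨⟨by omega, by omega, by omega⟩, by omega, by omega, by omega⟩, by omega, by omega⟩

/-- The local form of the existence of a chain, by labels. -/
theorem localS_iff (F : Finset (V × V)) (m : V → ℕ) (u v : V) :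
    LocS F m u v ↔ ∃ ℓ : V × V → LabS,
      ∀ x, specS.ok (m x) (decide (x = u)) (decide (x = v)) (sumAt specS F ℓ x) := by
  constructor
  · rintro ⟨α, β, h1, h2, h⟩
    refine ⟨fun e => ⟨fun c => (α c e, β c e), fun c => h1 c e, h2 e⟩, fun x => ?_⟩
    rw [okS_iff _ _ _ _ _ _ _ _ (sumAt_specS F _ x)]
    simp only [decide_eq_true_eq]
    exact h x
  · rintro ⟨ℓ, h⟩
    refine ⟨fun c e => ((ℓ e).1 c).1, fun c e => ((ℓ e).1 c).2, fun c e => (ℓ e).2.1 c,
      fun e => (ℓ e).2.2, fun x => ?_⟩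
    have h1 := h x
    rw [okS_iff _ _ _ _ _ _ _ _ (sumAt_specS F _ x)] at h1
    simp only [decide_eq_true_eq] at h1
    exact h1

end Pool.Agent.Helper7.ACP
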