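import Pool.Agent.Helper7.ACP.Tab
import Pool.Agent.Helper7.ACP.SatS
import Pool.Agent.Helper7.ACP.FormalS
import Pool.Agent.Helper7.ACP.FromLocS

/-!
# The path clearing number in polynomial time on bounded treewidth
-/

set_option autoImplicit false

namespace Pool.Agent.Helper7.ACP

open Alg

theorem mem_arcs (D : Dig) (x y : Fin D.n) : (x, y) ∈ arcsOf D Finset.univ ↔ D.A x y := by
  rw [mem_arcsOf]
  simp [Dig.A]

section Gen

variable {M Λ : Type} [AddCommMonoid M] [Finite M] [Nonempty Λ] (P : Spec M Λ)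

theorem out_eq_sInf (k : ℕ) (D : Dig) (hD : D.InClass k) :
    out (tab P (k + 1)) (D.n, D.bits) = sInf {s : ℕ | 1 ≤ s ∧ ∃ m : Fin D.n → ℕ,
      (∀ x, m x ≤ 2) ∧ ValidL P (arcsOf D Finset.univ) m ∧ ∑ x, m x = s} := by
  obtain ⟨hc, htw⟩ := hD
  have hn : 0 < D.n := by
    obtain ⟨x⟩ := hc.nonempty
    exact lt_of_le_of_lt (Nat.zero_le _) x.2
  have hG : Good (under D.A) (K := k + 1) (fun _ => none) ⟨0, hn⟩ :=
    good_of_treewidth _ htw _
  rw [out_spec (t := tab P (k + 1)) (sem P (k + 1) D) hc ⟨0, hn⟩ rfl hG]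
  congr 1
  ext s
  constructor
  · rintro ⟨hs, m, h1, h2⟩
    exact ⟨hs, fun x => (m x).1, fun x => Nat.le_of_lt_succ (m x).2,
      (accept_iff P (k + 1) D m).mp h2, h1⟩
  · rintro ⟨hs, m, h1, h2, h3⟩
    exact ⟨hs, fun x => ⟨m x, Nat.lt_succ_of_le (h1 x)⟩, h3,
      (accept_iff P (k + 1) D _).mpr h2⟩

/-- The number of agents is computable in polynomial time if validity is described by labels. -/
theorem main_gen (g : Dig → ℕ) (hg : ∀ D : Dig, g D = sInf {s : ℕ | 1 ≤ s ∧
      ∃ m : Fin D.n → ℕ, (∀ x, m x ≤ 2) ∧ ValidL P (arcsOf D Finset.univ) m ∧ ∑ x, m x = s})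
    (k : ℕ) : ∃ f : Dig → ℕ,
      Nonempty (Turing.TM2ComputableInPolyTime Dig.enc Computability.encodeNat f) ∧
      ∀ D : Dig, D.InClass k → f D = g D :=
  ⟨fun D => out (tab P (k + 1)) (D.n, D.bits), tm_out (tab P (k + 1)),
    fun D hD => (out_eq_sInf P k D hD).trans (hg D).symm⟩

end Gen

theorem validL_spec {n : ℕ} (F : Finset (Fin n × Fin n)) (m : Fin n → ℕ) :
    ValidL spec F m ↔ ∀ u v, u ≠ v → LocalN F m u v := by
  unfold ValidL
  simp only [local_iff]

theorem validL_specS {n : ℕ} (F : Finset (Fin n × Fin n)) (m : Fin n → ℕ) :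
    ValidL specS F m ↔ ∀ u v, u ≠ v → LocS F m u v := by
  unfold ValidL
  simp only [localS_iff]

/-- Clearing with walks. -/
theorem main_walk (k : ℕ) : ∃ f : Dig → ℕ,
    Nonempty (Turing.TM2ComputableInPolyTime Dig.enc Computability.encodeNat f) ∧
    ∀ D : Dig, D.InClass k → f D = acp true D.A := by
  refine main_gen spec (fun D => acp true D.A) (fun D => ?_) k
  unfold acp
  rw [clears_true]
  refine acp_eq_gen (W := fun m => ∀ u v, u ≠ v → ∃ p L, Rt D.A u v p L ∧ Avail m L)
    (fun c => valid_iff (fun _ _ h => h) clears_ok c) (fun m h => ?_) (fun m h => ?_)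
  · rw [validL_spec]
    intro u v huv
    obtain ⟨p, L, h3, h4⟩ := h u v huv
    exact local_of_route (mem_arcs D) h3 h4
  · rw [validL_spec] at h
    intro u v huv
    exact route_of_local (mem_arcs D) huv (h u v huv)

/-- Clearing with paths. -/
theorem main_path (k : ℕ) : ∃ f : Dig → ℕ,
    Nonempty (Turing.TM2ComputableInPolyTime Dig.enc Computability.encodeNat f) ∧
    ∀ D : Dig, D.InClass k → f D = acp false D.A := by
  refine main_gen specS (fun D => acp false D.A) (fun D => ?_) k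
  unfold acp
  rw [clears_false]
  refine acp_eq_gen (W := fun m => ∀ u v, u ≠ v → ∃ L, Rs D.A u v L ∧
    AvailS m (L.map List.head?)) (fun c => validS_iff c) (fun m h => ?_) (fun m h => ?_)
  · rw [validL_specS]
    intro u v huv
    obtain ⟨L, h3, h4⟩ := h u v huv
    exact locS_of_rs (mem_arcs D) h3 h4
  · rw [validL_specS] at h
    intro u v huv
    exact rs_of_locS (mem_arcs D) huv (h u v huv)

/-- The main theorem. -/
theorem main (walks : Bool) (k : ℕ) : ∃ f : Dig → ℕ,
    Nonempty (Turing.TM2ComputableInPolyTime Dig.enc Computability.encodeNat f) ∧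
    ∀ D : Dig, D.InClass k → f D = acp walks D.A := by
  cases walks with
  | false => exact main_path k
  | true => exact main_walk k

end Pool.Agent.Helper7.ACP
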