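import Pool.Agent.Helper7.ACP.Defs

/-!
Elimination trees with `k + 1` boundary slots, from tree decompositions.
-/

set_option autoImplicit false

namespace Pool.Agent.Helper7.ACP

open SimpleGraph

/-! ### A gate of a subtree -/

/-- In a tree, for a nonempty connected set `S` of nodes and a node `t` there is a node `g` in `S`
which lies on each connected set containing `t` and meeting `S`. -/
theorem exists_gate {ι : Type*} [Finite ι] {T : SimpleGraph ι} (hT : T.IsTree) {S : Set ι}
    (hS : ∃ i, i ∈ S)
    (hSc : ∀ i ∈ S, ∀ j ∈ S, ∃ p : T.Walk i j, ∀ a ∈ p.support, a ∈ S) (t : ι) :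
    ∃ g ∈ S, ∀ C : Set ι, t ∈ C → (∃ i ∈ S, i ∈ C) →
      (∀ i ∈ C, ∀ j ∈ C, ∃ p : T.Walk i j, ∀ a ∈ p.support, a ∈ C) → g ∈ C := by
  classical
  obtain ⟨i0, hi0⟩ := hS
  obtain ⟨g, hg, hmin⟩ : ∃ g ∈ S, ∀ j ∈ S, T.dist t g ≤ T.dist t j := by
    obtain ⟨g, hg, hm⟩ := Set.exists_min_image S (fun j => T.dist t j) (Set.toFinite S) ⟨i0, hi0⟩
    exact ⟨g, hg, fun j hj => hm j hj⟩
  refine ⟨g, hg, ?_⟩
  rintro C htC ⟨s, hsS, hsC⟩ hC
  -- a shortest walk from `t` to `g`
  obtain ⟨p, hp, hpl⟩ := (hT.1.preconnected t g).exists_path_of_dist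
  have hpS : ∀ a ∈ p.support, a ∈ S → a = g := by
    intro a ha haS
    have h1 : T.dist t a ≤ (p.takeUntil a ha).length := dist_le _
    have h2 := hmin a haS
    have h3 : (p.takeUntil a ha).length + (p.dropUntil a ha).length = p.length := by
      rw [← Walk.length_append, Walk.take_spec]
    have h4 : (p.dropUntil a ha).length = 0 := by omega
    exact Walk.eq_of_length_eq_zero h4
  obtain ⟨q0, hq0⟩ := hSc g hg s hsS
  obtain ⟨r0, hr0⟩ := hC t htC s hsC
  have hq : ∀ a ∈ q0.bypass.support, a ∈ S := fun a ha => hq0 a (q0.support_bypass_subset_support ha)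
  have hr : ∀ a ∈ r0.bypass.support, a ∈ C := fun a ha => hr0 a (r0.support_bypass_subset_support ha)
  have hpq : (p.append q0.bypass).IsPath := by
    rw [Walk.isPath_def, Walk.support_append, List.nodup_append]
    refine ⟨hp.support_nodup, (q0.bypass_isPath.support_nodup).tail, ?_⟩
    intro a ha b hb hab
    subst hab
    have h1 := hpS a ha (hq a (List.mem_of_mem_tail hb))
    subst h1
    have h2 := q0.bypass_isPath.support_nodup
    rw [← Walk.cons_tail_support] at h2
    exact (List.nodup_cons.mp h2).1 hb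
  have hu : p.append q0.bypass = r0.bypass := by
    have := (hT.2.subsingleton_path t s).elim ⟨p.append q0.bypass, hpq⟩
      ⟨r0.bypass, r0.bypass_isPath⟩
    exact congrArg Subtype.val this
  apply hr
  rw [← hu, Walk.mem_support_append_iff]
  exact Or.inl p.end_mem_support

/-- A chain of adjacent elements of `S` gives a walk inside `S`. -/
theorem walk_of_chain {ι : Type*} {T : SimpleGraph ι} {S : Set ι} {i j : ι} (hi : i ∈ S)
    (h : Relation.ReflTransGen (fun a b => T.Adj a b ∧ b ∈ S) i j) :
    ∃ p : T.Walk i j, ∀ a ∈ p.support, a ∈ S := by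
  induction h with
  | refl => exact ⟨Walk.nil, by simpa using hi⟩
  | tail _ hab ih =>
    obtain ⟨p, hp⟩ := ih
    refine ⟨p.concat hab.1, ?_⟩
    intro a ha
    rw [Walk.support_concat, List.mem_append, List.mem_singleton] at ha
    rcases ha with ha | rfl
    · exact hp a ha
    · exact hab.2

theorem chain_of_walk {ι : Type*} {T : SimpleGraph ι} {S : Set ι} {i j : ι} (p : T.Walk i j)
    (hp : ∀ a ∈ p.support, a ∈ S) :
    Relation.ReflTransGen (fun a b => T.Adj a b ∧ b ∈ S) i j := by
  induction p with
  | nil => exact Relation.ReflTransGen.refl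
  | cons h q ih =>
    refine Relation.ReflTransGen.head ⟨h, hp _ ?_⟩ (ih (fun a ha => hp a ?_))
    · rw [Walk.support_cons]
      exact List.mem_cons_of_mem _ q.start_mem_support
    · rw [Walk.support_cons]
      exact List.mem_cons_of_mem _ ha

/-- Connected induced subgraphs give walks inside. -/
theorem walk_of_connected {ι : Type*} {T : SimpleGraph ι} {S : Set ι}
    (h : (T.induce S).Connected) : ∀ i ∈ S, ∀ j ∈ S, ∃ p : T.Walk i j, ∀ a ∈ p.support, a ∈ S := by
  intro i hi j hj
  obtain ⟨p⟩ := h.preconnected ⟨i, hi⟩ ⟨j, hj⟩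
  have key : ∀ {a b : S} (q : (T.induce S).Walk a b),
      Relation.ReflTransGen (fun a b => T.Adj a b ∧ b ∈ S) a.1 b.1 := by
    intro a b q
    induction q with
    | nil => exact Relation.ReflTransGen.refl
    | @cons u v w h q ih => exact Relation.ReflTransGen.head ⟨h, v.2⟩ ih
  exact walk_of_chain hi (key p)

variable {V : Type}

/-- A step of `G` to a vertex that is not in a slot. -/
def Av (G : SimpleGraph V) {K : ℕ} (b : Fin K → Option V) (x y : V) : Prop :=
  G.Adj x y ∧ ∀ i, b i ≠ some y

/-- The component of `c` after removing the vertices in the slots. -/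
def Comp (G : SimpleGraph V) {K : ℕ} (b : Fin K → Option V) (c : V) : Set V :=
  {x | Relation.ReflTransGen (Av G b) c x}

/-- Elimination trees: choose a vertex `v` of the component and a slot `i` that is empty or holds a
vertex with no neighbour in the component, put `v` in the slot, and continue with the components
of the rest. -/
inductive Good (G : SimpleGraph V) {K : ℕ} [DecidableEq V] : (Fin K → Option V) → V → Prop
  | mk (b : Fin K → Option V) (c v : V) (i : Fin K) (hc : ∀ j, b j ≠ some c)
      (hv : v ∈ Comp G b c) (hi : ∀ y, b i = some y → ∀ x ∈ Comp G b c, ¬ G.Adj x y)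
      (h : ∀ c' ∈ Comp G b c, c' ≠ v → Good G (Function.update b i (some v)) c') : Good G b c

/-! ### The decomposition step -/

variable {G : SimpleGraph V} {K : ℕ} {b : Fin K → Option V}

theorem comp_avoid {c : V} (hc : ∀ i, b i ≠ some c) : ∀ x ∈ Comp G b c, ∀ i, b i ≠ some x := by
  intro x hx
  induction hx with
  | refl => exact hc
  | tail _ h _ => exact h.2

theorem comp_closed {c x y : V} (hx : x ∈ Comp G b c) (h : G.Adj x y) (hy : ∀ i, b i ≠ some y) :
    y ∈ Comp G b c :=
  Relation.ReflTransGen.tail hx ⟨h, hy⟩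

theorem self_mem_comp (c : V) : c ∈ Comp G b c := Relation.ReflTransGen.refl

/-- The outer neighbours of the component of `c` are in the set `B`. -/
def NbIn (G : SimpleGraph V) {K : ℕ} (b : Fin K → Option V) (c : V) (B : Finset V) : Prop :=
  ∀ x ∈ Comp G b c, ∀ i, ∀ w, b i = some w → G.Adj x w → w ∈ B

/-- If the outer neighbours of a component are in a bag, then they are in a bag that meets the
component. -/
theorem exists_bag {ι : Type} [Finite ι] {T : SimpleGraph ι} {bag : ι → Finset V} (hT : T.IsTree)
    (h1 : ∀ v, ∃ i, v ∈ bag i) (h2 : ∀ u v, G.Adj u v → ∃ i, u ∈ bag i ∧ v ∈ bag i)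
    (h3 : ∀ v, (T.induce {i | v ∈ bag i}).Connected) {c : V}
    {t : ι} (ht : NbIn G b c (bag t)) :
    ∃ g, NbIn G b c (bag g) ∧ ∃ x ∈ Comp G b c, x ∈ bag g := by
  obtain ⟨i0, hi0⟩ := h1 c
  let U : Set ι := {i | ∃ x ∈ Comp G b c, x ∈ bag i}
  have hU0 : i0 ∈ U := ⟨c, self_mem_comp c, hi0⟩
  -- all nodes of `U` are joined to `i0` inside `U`
  have key : ∀ x, x ∈ Comp G b c → ∀ i, x ∈ bag i →
      Relation.ReflTransGen (fun a b => T.Adj a b ∧ b ∈ U) i0 i := by
    intro x hx
    induction hx with
    | refl =>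
      intro i hi
      obtain ⟨p, hp⟩ := walk_of_connected (h3 c) i0 hi0 i hi
      exact chain_of_walk p (fun a ha => ⟨c, self_mem_comp c, hp a ha⟩)
    | @tail y z hy hyz ih =>
      intro i hi
      obtain ⟨j, hj1, hj2⟩ := h2 y z hyz.1
      obtain ⟨p, hp⟩ := walk_of_connected (h3 z) j hj2 i hi
      exact (ih j hj1).trans (chain_of_walk p (fun a ha => ⟨z, hy.tail hyz, hp a ha⟩))
  have hUc : ∀ i ∈ U, ∀ j ∈ U, ∃ p : T.Walk i j, ∀ a ∈ p.support, a ∈ U := by
    rintro i ⟨x, hx, hxi⟩ j ⟨y, hy, hyj⟩
    obtain ⟨p, hp⟩ := walk_of_chain hU0 (key x hx i hxi)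
    obtain ⟨q, hq⟩ := walk_of_chain hU0 (key y hy j hyj)
    refine ⟨p.reverse.append q, ?_⟩
    intro a ha
    rw [Walk.mem_support_append_iff, Walk.support_reverse, List.mem_reverse] at ha
    rcases ha with ha | ha
    · exact hp a ha
    · exact hq a ha
  obtain ⟨g, ⟨x, hx, hxg⟩, hg⟩ := exists_gate hT ⟨i0, hU0⟩ hUc t
  refine ⟨g, ?_, x, hx, hxg⟩
  intro y hy j w hw hyw
  obtain ⟨s, hs1, hs2⟩ := h2 y w hyw
  exact hg {i | w ∈ bag i} (ht y hy j w hw hyw) ⟨s, ⟨y, hy, hs1⟩, hs2⟩ (walk_of_connected (h3 w))

/-- If the outer neighbours of a component and a vertex of it are in a set of at most `k + 1`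
vertices, then there is a free slot. -/
theorem exists_free_slot {k : ℕ} {b : Fin (k + 1) → Option V}
    (hb : ∀ l l' w, b l = some w → b l' = some w → l = l') {B : Finset V}
    (hB : B.card ≤ k + 1) {c v : V} (hvB : v ∈ B) (hvs : ∀ i, b i ≠ some v)
    (hN : NbIn G b c B) :
    ∃ l : Fin (k + 1), ∀ w, b l = some w → ∀ x ∈ Comp G b c, ¬ G.Adj x w := by
  classical
  by_contra hcon
  push Not at hcon
  choose w hw x hx hxw using hcon
  have hwB : ∀ l, w l ∈ B.erase v := by
    intro l
    rw [Finset.mem_erase]
    refine ⟨?_, hN (x l) (hx l) l (w l) (hw l) (hxw l)⟩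
    intro h
    exact hvs l (by rw [hw l, h])
  have hinj : Function.Injective w := by
    intro l l' h
    exact hb l l' (w l) (hw l) (by rw [hw l', h])
  have h1 := Finset.card_le_card_of_injOn (s := Finset.univ) w (fun l _ => hwB l)
    (fun a _ b _ h => hinj h)
  rw [Finset.card_univ, Fintype.card_fin, Finset.card_erase_of_mem hvB] at h1
  omega

theorem good_aux [Finite V] [DecidableEq V] {ι : Type} [Finite ι] {T : SimpleGraph ι}
    {bag : ι → Finset V} {k : ℕ} (hT : T.IsTree)
    (h1 : ∀ v, ∃ i, v ∈ bag i) (h2 : ∀ u v, G.Adj u v → ∃ i, u ∈ bag i ∧ v ∈ bag i)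
    (h3 : ∀ v, (T.induce {i | v ∈ bag i}).Connected) (h4 : ∀ i, (bag i).card ≤ k + 1) :
    ∀ (n : ℕ) (b : Fin (k + 1) → Option V) (c : V),
      (∀ l l' w, b l = some w → b l' = some w → l = l') → (∀ i, b i ≠ some c) →
      (Comp G b c).ncard ≤ n → (∃ t, NbIn G b c (bag t)) → Good G b c := by
  intro n
  induction n with
  | zero =>
    intro b c _ _ hn _
    have := Set.ncard_pos (Set.toFinite _) |>.mpr ⟨c, self_mem_comp (G := G) (b := b) c⟩
    omega
  | succ n ih =>
    rintro b c hb hc hn ⟨t, ht⟩
    obtain ⟨g, hg, v, hv, hvg⟩ := exists_bag hT h1 h2 h3 ht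
    have hvs : ∀ i, b i ≠ some v := comp_avoid hc v hv
    obtain ⟨l, hl⟩ := exists_free_slot (G := G) hb (h4 g) hvg hvs hg
    refine Good.mk b c v l hc hv hl ?_
    intro c' hc' hcv
    have hmem : ∀ i w, Function.update b l (some v) i = some w → w = v ∨ b i = some w := by
      intro i w hi
      by_cases h : i = l
      · subst h
        rw [Function.update_self, Option.some.injEq] at hi
        exact Or.inl hi.symm
      · rw [Function.update_of_ne h] at hi
        exact Or.inr hi
    have hc's : ∀ i, Function.update b l (some v) i ≠ some c' := by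
      intro i h
      rcases hmem i c' h with h | h
      · exact hcv h
      · exact comp_avoid hc c' hc' i h
    have hsub : ∀ x ∈ Comp G (Function.update b l (some v)) c', x ∈ Comp G b c := by
      intro x hx
      induction hx with
      | refl => exact hc'
      | @tail y z hy hyz ih =>
        refine comp_closed ih hyz.1 ?_
        intro i hi
        by_cases h : i = l
        · subst h
          exact hl z hi y ih hyz.1
        · exact hyz.2 i (by rw [Function.update_of_ne h]; exact hi)
    apply ih
    · intro i j w hi hj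
      by_cases h : i = l
      · by_cases h' : j = l
        · rw [h, h']
        · exfalso
          subst h
          rw [Function.update_self, Option.some.injEq] at hi
          rw [Function.update_of_ne h'] at hj
          exact hvs j (by rw [hj, hi])
      · by_cases h' : j = l
        · exfalso
          subst h'
          rw [Function.update_self, Option.some.injEq] at hj
          rw [Function.update_of_ne h] at hi
          exact hvs i (by rw [hi, hj])
        · rw [Function.update_of_ne h] at hi
          rw [Function.update_of_ne h'] at hj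
          exact hb i j w hi hj
    · exact hc's
    · have hlt : (Comp G (Function.update b l (some v)) c').ncard < (Comp G b c).ncard := by
        apply Set.ncard_lt_ncard _ (Set.toFinite _)
        refine ⟨hsub, fun h => ?_⟩
        exact comp_avoid hc's v (h hv) l (Function.update_self _ _ _)
      omega
    · refine ⟨g, ?_⟩
      intro x hx i w hw hxw
      rcases hmem i w hw with rfl | hw'
      · exact hvg
      · exact hg x (hsub x hx) i w hw' hxw

theorem good_of_treewidth [Finite V] [DecidableEq V] (G : SimpleGraph V) {k : ℕ}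
    (h : TreewidthLE G k) (c : V) : Good G (K := k + 1) (fun _ => none) c := by
  obtain ⟨D⟩ := h
  have := D.fin
  obtain ⟨t, -⟩ := D.vertex c
  exact good_aux D.tree D.vertex D.edge D.conn D.card _ (fun _ : Fin (k + 1) => (none : Option V)) c
    (fun l l' w h => by simp at h) (fun i => by simp) (le_refl _)
    ⟨t, fun x _ i w hw => by simp at hw⟩

end Pool.Agent.Helper7.ACP
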