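import Pool.Agent.Helper7.ACP.Core

/-!
# Local form of the existence of a route
-/

set_option autoImplicit false

namespace Pool.Agent.Helper7.ACP

open Relation

variable {V : Type} [DecidableEq V] {A : V → V → Prop}

/-- Sum over the arcs out of `x`. -/
def sOut (F : Finset (V × V)) (f : V × V → ℕ) (x : V) : ℕ := ∑ e ∈ F with e.1 = x, f e

/-- Sum over the arcs into `x`. -/
def sIn (F : Finset (V × V)) (f : V × V → ℕ) (x : V) : ℕ := ∑ e ∈ F with e.2 = x, f e

/-- The local form: `f` counts approaches, `g` marks the arcs of the path. -/
def LocalN (F : Finset (V × V)) (m : V → ℕ) (u v : V) : Prop :=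
  ∃ f g : V × V → ℕ, (∀ e, f e ≤ 2) ∧ (∀ e, g e ≤ 1) ∧ ∀ x,
    sOut F f x ≤ 2 ∧ sIn F f x ≤ 2 ∧
    (sIn F g x + sOut F g x + (if x = u then 1 else 0) + (if x = v then 1 else 0) = 0 ∨
      sIn F g x + sOut F g x + (if x = u then 1 else 0) + (if x = v then 1 else 0) = 2) ∧
    sOut F f x + (sOut F g x - sIn F g x) ≤ sIn F f x + m x

/-! ### Lists of arcs -/

theorem sOut_count {F : Finset (V × V)} {E : List (V × V)} (h : ∀ e ∈ E, e ∈ F) (x : V) :
    sOut F (fun e => E.count e) x = (E.map Prod.fst).count x := by
  induction E with
  | nil => simp [sOut]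
  | cons a E ih =>
    have ih' := ih (fun e he => h e (List.mem_cons_of_mem _ he))
    unfold sOut at ih' ⊢
    simp only [List.count_cons, List.map_cons, Finset.sum_add_distrib, ih']
    congr 1
    have ha := h a (by simp)
    by_cases hx : a.1 = x
    · rw [Finset.sum_eq_single a]
      · simp [hx]
      · intro b _ hb
        simp [Ne.symm hb]
      · intro hb
        exact absurd (Finset.mem_filter.mpr ⟨ha, hx⟩) hb
    · rw [Finset.sum_eq_zero]
      · simp [hx]
      · intro b hb
        have hb' := (Finset.mem_filter.mp hb).2
        have : a ≠ b := fun h => hx (h ▸ hb')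
        simp [this]

theorem sIn_count {F : Finset (V × V)} {E : List (V × V)} (h : ∀ e ∈ E, e ∈ F) (x : V) :
    sIn F (fun e => E.count e) x = (E.map Prod.snd).count x := by
  induction E with
  | nil => simp [sIn]
  | cons a E ih =>
    have ih' := ih (fun e he => h e (List.mem_cons_of_mem _ he))
    unfold sIn at ih' ⊢
    simp only [List.count_cons, List.map_cons, Finset.sum_add_distrib, ih']
    congr 1
    have ha := h a (by simp)
    by_cases hx : a.2 = x
    · rw [Finset.sum_eq_single a]
      · simp [hx]
      · intro b _ hb
        simp [Ne.symm hb]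
      · intro hb
        exact absurd (Finset.mem_filter.mpr ⟨ha, hx⟩) hb
    · rw [Finset.sum_eq_zero]
      · simp [hx]
      · intro b hb
        have hb' := (Finset.mem_filter.mp hb).2
        have : a ≠ b := fun h => hx (h ▸ hb')
        simp [this]

/-- Walks of the underlying graph with the list of arcs that they use. -/
inductive St (A : V → V → Prop) : V → V → List V → List (V × V) → Prop
  | nil (u : V) : St A u u [] []
  | fwd {u x v : V} {p : List V} {E : List (V × V)} :
      A u x → St A x v p E → St A u v (x :: p) ((u, x) :: E)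
  | bwd {u x v : V} {p : List V} {E : List (V × V)} :
      A x u → St A x v p E → St A u v (x :: p) ((x, u) :: E)

omit [DecidableEq V] in
theorem St.append {u w v : V} {p p' : List V} {E E' : List (V × V)} (h : St A u w p E)
    (h' : St A w v p' E') : St A u v (p ++ p') (E ++ E') := by
  induction h with
  | nil => exact h'
  | fwd h1 _ ih => exact St.fwd h1 (ih h')
  | bwd h1 _ ih => exact St.bwd h1 (ih h')

omit [DecidableEq V] in
theorem St.arc {u v : V} {p : List V} {E : List (V × V)} (h : St A u v p E) :
    ∀ e ∈ E, A e.1 e.2 := by
  induction h with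
  | nil => simp
  | fwd h1 _ ih => simp only [List.mem_cons, forall_eq_or_imp]; exact ⟨h1, ih⟩
  | bwd h1 _ ih => simp only [List.mem_cons, forall_eq_or_imp]; exact ⟨h1, ih⟩

omit [DecidableEq V] in
theorem St.ends {u v : V} {p : List V} {E : List (V × V)} (h : St A u v p E) :
    ∀ e ∈ E, e.1 ∈ u :: p ∧ e.2 ∈ u :: p := by
  induction h with
  | nil => simp
  | fwd h1 _ ih =>
    simp only [List.mem_cons, forall_eq_or_imp] at ih ⊢
    exact ⟨by simp, fun e he => ⟨Or.inr (ih e he).1, Or.inr (ih e he).2⟩⟩
  | bwd h1 _ ih =>
    simp only [List.mem_cons, forall_eq_or_imp] at ih ⊢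
    exact ⟨by simp, fun e he => ⟨Or.inr (ih e he).1, Or.inr (ih e he).2⟩⟩

omit [DecidableEq V] in
theorem St.nodup {u v : V} {p : List V} {E : List (V × V)} (h : St A u v p E)
    (hn : (u :: p).Nodup) : E.Nodup := by
  induction h with
  | nil => exact List.nodup_nil
  | fwd h1 h2 ih =>
    rw [List.nodup_cons] at hn ⊢
    exact ⟨fun h => hn.1 (h2.ends _ h).1, ih hn.2⟩
  | bwd h1 h2 ih =>
    rw [List.nodup_cons] at hn ⊢
    exact ⟨fun h => hn.1 (h2.ends _ h).2, ih hn.2⟩

theorem St.deg {u v : V} {p : List V} {E : List (V × V)} (h : St A u v p E) (y : V) :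
    (E.map Prod.snd).count y + (E.map Prod.fst).count y + (if y = u then 1 else 0) +
      (if y = v then 1 else 0) = 2 * (u :: p).count y := by
  induction h with
  | nil u =>
    simp only [List.map_nil, List.count_nil, List.count_cons, beq_iff_eq]
    split_ifs <;> simp_all
  | @fwd u x v p E h1 _ ih =>
    simp only [List.map_cons, List.count_cons, beq_iff_eq, eq_comm (a := y)] at ih ⊢
    split_ifs at ih ⊢ <;> omega
  | @bwd u x v p E h1 _ ih =>
    simp only [List.map_cons, List.count_cons, beq_iff_eq, eq_comm (a := y)] at ih ⊢
    split_ifs at ih ⊢ <;> omega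

theorem Wk.toSt {δ : Bool} {u w : V} {q : List V} (h : Wk (dir A δ) u q w) :
    ∃ E, St A u w q E ∧ ∀ y,
      (cond δ ((E.map Prod.fst).count y) ((E.map Prod.snd).count y)) + (if y = w then 1 else 0) =
        (cond δ ((E.map Prod.snd).count y) ((E.map Prod.fst).count y)) +
          (if y = u then 1 else 0) := by
  induction h with
  | nil u => exact ⟨[], .nil _, fun y => by cases δ <;> simp⟩
  | @cons u x w q h1 _ ih =>
    obtain ⟨E, hE, hE'⟩ := ih
    cases δ with
    | true =>
      refine ⟨_, St.fwd h1 hE, fun y => ?_⟩
      have := hE' y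
      simp only [cond_true, List.map_cons, List.count_cons, beq_iff_eq, eq_comm (a := y)]
        at this ⊢
      split_ifs at this ⊢ <;> omega
    | false =>
      refine ⟨_, St.bwd h1 hE, fun y => ?_⟩
      have := hE' y
      simp only [cond_false, List.map_cons, List.count_cons, beq_iff_eq, eq_comm (a := y)]
        at this ⊢
      split_ifs at this ⊢ <;> omega

theorem Rt.toSt {u v : V} {p : List V} {L : List (V × V × Bool)} (h : Rt A u v p L) :
    ∃ E, St A u v p E ∧ ∀ y, (E.map Prod.fst).count y ≤
      (E.map Prod.snd).count y + (L.map (fun e => e.2.1)).count y := by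
  induction h with
  | nil u => exact ⟨[], .nil _, fun y => by simp⟩
  | @cons u w v s q p L δ h1 _ _ ih =>
    obtain ⟨E, hE, hE'⟩ := ih
    obtain ⟨E1, hE1, hE1'⟩ := h1.toSt
    refine ⟨_, hE1.append hE, fun y => ?_⟩
    have h3 := hE' y
    have h4 := hE1' y
    cases δ <;>
    · simp only [cond_true, cond_false, List.map_append, List.count_append, List.map_cons,
        List.count_cons, beq_iff_eq, eq_comm (a := y)] at h4 ⊢
      split_ifs at h4 ⊢ <;> omega

omit [DecidableEq V] in
theorem Rt.reach {u v : V} {p : List V} {L : List (V × V × Bool)} (h : Rt A u v p L) :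
    ∀ e ∈ L, ReflTransGen A e.1 e.2.1 := by
  induction h with
  | nil => simp
  | cons _ h2 _ ih => simp only [List.mem_cons, forall_eq_or_imp]; exact ⟨h2, ih⟩

omit [DecidableEq V] in
theorem exists_nodup_wk {R : V → V → Prop} {u w : V} (h : ReflTransGen R u w) :
    ∃ q, Wk R u q w ∧ (u :: q).Nodup := by
  induction h using ReflTransGen.head_induction_on with
  | refl => exact ⟨[], .nil _, by simp⟩
  | @head a c h1 _ ih =>
    obtain ⟨q, hq, hn⟩ := ih
    by_cases ha : a ∈ c :: q
    · obtain ⟨l1, l2, hl⟩ := List.append_of_mem ha
      have h2 : Wk R a (c :: q) w := .cons h1 hq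
      rw [hl, show l1 ++ a :: l2 = (l1 ++ [a]) ++ l2 by simp] at h2
      have h3 := h2.split.2
      rw [getLastD_app] at h3
      refine ⟨l2, h3, ?_⟩
      rw [hl] at hn
      exact (List.nodup_append.mp hn).2.1
    · exact ⟨c :: q, .cons h1 hq, List.nodup_cons.mpr ⟨ha, hn⟩⟩

omit [DecidableEq V] in
theorem Wk.reach_mem {R : V → V → Prop} {u w : V} {q : List V} (h : Wk R u q w) :
    ∀ x ∈ u :: q, ReflTransGen R u x ∧ ReflTransGen R x w := by
  induction h with
  | nil u =>
    intro x hx
    rw [List.mem_singleton.mp hx]
    exact ⟨.refl, .refl⟩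
  | cons h1 h2 ih =>
    intro x hx
    rcases List.mem_cons.mp hx with rfl | hx
    · exact ⟨.refl, .head h1 h2.reach⟩
    · exact ⟨.head h1 (ih x hx).1, (ih x hx).2⟩

/-- Does the approach `e` possibly pass `x`? -/
noncomputable def passes (A : V → V → Prop) (x : V) (e : V × V × Bool) : Bool :=
  @decide (ReflTransGen A e.1 x ∧ ReflTransGen A x e.2.1) (Classical.propDecidable _)

/-- The list of the arcs of all approaches. -/
theorem approach (L : List (V × V × Bool)) (h : ∀ e ∈ L, ReflTransGen A e.1 e.2.1) :
    ∃ E : List (V × V), (∀ e ∈ E, A e.1 e.2) ∧ ∀ y,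
      (E.map Prod.fst).count y ≤ L.countP (passes A y) ∧
      (E.map Prod.snd).count y ≤ L.countP (passes A y) ∧
      (L.map Prod.fst).count y ≤ L.countP (passes A y) ∧
      (E.map Prod.fst).count y + (L.map (fun e => e.2.1)).count y =
        (E.map Prod.snd).count y + (L.map Prod.fst).count y := by
  induction L with
  | nil => exact ⟨[], by simp, fun y => by simp⟩
  | cons a L ih =>
    obtain ⟨E, hE, hE'⟩ := ih (fun e he => h e (List.mem_cons_of_mem _ he))
    obtain ⟨q, hq, hn⟩ := exists_nodup_wk (h a (by simp))
    obtain ⟨E1, hE1, hE1'⟩ := Wk.toSt (δ := true) (A := A) hq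
    refine ⟨E1 ++ E, ?_, fun y => ?_⟩
    · intro e he
      rcases List.mem_append.mp he with he | he
      · exact hE1.arc e he
      · exact hE e he
    · obtain ⟨h1, h2, h3, h4⟩ := hE' y
      have h5 := hE1' y
      simp only [cond_true] at h5
      have h6 := hE1.deg y
      have h7 : (a.1 :: q).count y ≤ 1 := List.nodup_iff_count_le_one.mp hn y
      have h8 : (a.1 :: q).count y ≤ if passes A y a = true then 1 else 0 := by
        split_ifs with hp
        · exact h7
        · rw [Nat.le_zero, List.count_eq_zero]
          intro hy
          have h9 := hq.reach_mem y hy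
          refine hp ?_
          unfold passes
          simpa using h9
      have h9 : (if y = a.1 then 1 else 0) ≤ (a.1 :: q).count y := by
        split_ifs with hya
        · rw [List.one_le_count_iff, hya]; simp
        · simp
      rw [List.countP_cons]
      simp only [List.map_append, List.count_append, List.map_cons, List.count_cons, beq_iff_eq,
        eq_comm (a := y)] at *
      have e1 : (if a.1 = y then (1 : ℕ) else 0) ≤ 1 := by split_ifs <;> omega
      refine ⟨?_, ?_, ?_, ?_⟩ <;> split_ifs at * <;> omega

/-! ### From routes to the local form -/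

theorem local_of_route {F : Finset (V × V)} (hF : ∀ x y, (x, y) ∈ F ↔ A x y) {m : V → ℕ}
    {u v : V} {p : List V} {L : List (V × V × Bool)} (h : Rt A u v p L) (ha : Avail m L) :
    LocalN F (fun x => min (m x) 2) u v := by
  obtain ⟨p, L, hm⟩ := exists_min h ha
  obtain ⟨E, hE, hE'⟩ := hm.rt.toSt
  obtain ⟨Q, hQ, hQ'⟩ := approach L hm.rt.reach
  have hEF : ∀ e ∈ E, e ∈ F := fun e he => (hF e.1 e.2).mpr (hE.arc e he)
  have hQF : ∀ e ∈ Q, e ∈ F := fun e he => (hF e.1 e.2).mpr (hQ e he)
  have hthr : ∀ y, L.countP (passes A y) ≤ 2 := fun y =>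
    hm.through y _ (fun e he => by unfold passes at he; simpa using he)
  have hnd := hm.nodup
  refine ⟨fun e => Q.count e, fun e => E.count e, fun e => ?_, fun e => ?_, fun x => ?_⟩
  · have h1 := (hQ' e.1).1
    have h2 : Q.count e ≤ (Q.map Prod.fst).count e.1 := List.count_le_count_map
    exact (h2.trans h1).trans (hthr _)
  · exact List.nodup_iff_count_le_one.mp (hE.nodup hnd) e
  · rw [sOut_count hQF, sIn_count hQF, sOut_count hEF, sIn_count hEF]
    obtain ⟨h1, h2, h3, h4⟩ := hQ' x
    have h5 := hthr x
    have h6 := hE.deg x
    have h7 : (u :: p).count x ≤ 1 := List.nodup_iff_count_le_one.mp hnd x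
    have h8 := hE' x
    have h9 := hm.av x
    refine ⟨by omega, by omega, by omega, ?_⟩
    beta_reduce
    omega

/-! ### From the local form to routes -/

/-- Routes without agents: list of the tails. -/
inductive Rn (A : V → V → Prop) : V → V → List V → Prop
  | nil (u : V) : Rn A u u []
  | fwd {u w v : V} {T : List V} : ReflTransGen A u w → Rn A w v T → Rn A u v (u :: T)
  | bwd {u w v : V} {T : List V} : ReflTransGen A w u → Rn A w v T → Rn A u v (w :: T)

omit [DecidableEq V] in
theorem Rn.toRt {u v : V} {T : List V} (h : Rn A u v T) : ∀ {S : List V},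
    List.Forall₂ (ReflTransGen A) S T → ∃ p L, Rt A u v p L ∧ L.map Prod.fst = S := by
  induction h with
  | nil u =>
    intro S hS
    cases hS
    exact ⟨[], [], .nil _, rfl⟩
  | @fwd u w v T h1 _ ih =>
    intro S hS
    cases hS with
    | @cons s _ S' _ h2 h3 =>
      obtain ⟨p, L, h4, h5⟩ := ih h3
      obtain ⟨q, hq⟩ := (exists_wk_dir h1).1
      exact ⟨_, _, Rt.cons (δ := true) hq h2 h4, by rw [List.map_cons, h5]⟩
  | @bwd u w v T h1 _ ih =>
    intro S hS
    cases hS with
    | @cons s _ S' _ h2 h3 =>
      obtain ⟨p, L, h4, h5⟩ := ih h3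
      obtain ⟨q, hq⟩ := (exists_wk_dir h1).2
      exact ⟨_, _, Rt.cons (δ := false) hq h2 h4, by rw [List.map_cons, h5]⟩

/-- Out-degree. -/
def oD (E : Finset (V × V)) (x : V) : ℕ := (E.filter (fun e => e.1 = x)).card

/-- In-degree. -/
def iD (E : Finset (V × V)) (x : V) : ℕ := (E.filter (fun e => e.2 = x)).card

theorem oD_erase {E : Finset (V × V)} {e : V × V} (he : e ∈ E) (x : V) :
    oD (E.erase e) x + (if x = e.1 then 1 else 0) = oD E x := by
  unfold oD
  rw [Finset.filter_erase]
  split_ifs with hx
  · rw [Finset.card_erase_add_one]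
    exact Finset.mem_filter.mpr ⟨he, hx.symm⟩
  · rw [Finset.erase_eq_of_notMem, Nat.add_zero]
    intro h
    exact hx (Finset.mem_filter.mp h).2.symm

theorem iD_erase {E : Finset (V × V)} {e : V × V} (he : e ∈ E) (x : V) :
    iD (E.erase e) x + (if x = e.2 then 1 else 0) = iD E x := by
  unfold iD
  rw [Finset.filter_erase]
  split_ifs with hx
  · rw [Finset.card_erase_add_one]
    exact Finset.mem_filter.mpr ⟨he, hx.symm⟩
  · rw [Finset.erase_eq_of_notMem, Nat.add_zero]
    intro h
    exact hx (Finset.mem_filter.mp h).2.symm

theorem extract (N : ℕ) : ∀ (E : Finset (V × V)) (u v : V), E.card = N → u ≠ v →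
    (∀ e ∈ E, A e.1 e.2) →
    (∀ x, iD E x + oD E x + (if x = u then 1 else 0) + (if x = v then 1 else 0) = 0 ∨
      iD E x + oD E x + (if x = u then 1 else 0) + (if x = v then 1 else 0) = 2) →
    (oD E u = 1 ∧ ∃ w T, ReflTransGen A u w ∧ Rn A w v T ∧
      ∀ x, (u :: T).count x ≤ oD E x - iD E x) ∨
    (iD E u = 1 ∧ ∃ w T, ReflTransGen A w u ∧ Rn A w v T ∧
      ∀ x, (w :: T).count x ≤ oD E x - iD E x) := by
  induction N with
  | zero =>
    intro E u v hE huv _ hd
    have hE' : E = ∅ := Finset.card_eq_zero.mp hE
    subst hE'
    have := hd u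
    simp [iD, oD, huv] at this
  | succ N ih =>
    intro E u v hE huv hA hd
    have hu := hd u
    rw [if_pos rfl, if_neg huv] at hu
    have hu' : iD E u + oD E u = 1 := by omega
    have hpos : 0 < oD E u ∨ 0 < iD E u := by omega
    rcases hpos with hpos | hpos
    · -- an arc (u, z)
      obtain ⟨⟨u', z⟩, he0⟩ := Finset.card_pos.mp hpos
      obtain ⟨he, hu1⟩ := Finset.mem_filter.mp he0
      clear he0
      simp only at hu1
      subst hu1
      have hz : z ≠ u' := by
        rintro rfl
        have : 0 < iD E z := Finset.card_pos.mpr ⟨_, Finset.mem_filter.mpr ⟨he, rfl⟩⟩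
        omega
      have ho := oD_erase he
      have hi := iD_erase he
      simp only at ho hi
      have hA' : ∀ e ∈ E.erase (u', z), A e.1 e.2 := fun e h => hA e (Finset.mem_of_mem_erase h)
      have hcard : (E.erase (u', z)).card = N := by rw [Finset.card_erase_of_mem he]; omega
      generalize E.erase (u', z) = E' at ho hi hA' hcard
      left
      refine ⟨by omega, ?_⟩
      by_cases hzv : z = v
      · refine ⟨z, [], .single (hA _ he), hzv ▸ Rn.nil _, fun x => ?_⟩
        simp only [List.count_cons, List.count_nil, beq_iff_eq]
        split_ifs with hx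
        · subst hx; omega
        · omega
      · have hd' : ∀ x, iD E' x + oD E' x +
            (if x = z then 1 else 0) + (if x = v then 1 else 0) = 0 ∨
            iD E' x + oD E' x +
            (if x = z then 1 else 0) + (if x = v then 1 else 0) = 2 := by
          intro x
          have h1 := ho x
          have h2 := hi x
          have h3 := hd x
          by_cases hxz : x = z
          · have hxu : x ≠ u' := fun h => hz (hxz.symm.trans h)
            have hxv : x ≠ v := fun h => hzv (hxz.symm.trans h)
            rw [if_neg hxu, if_neg hxv] at h3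
            rw [if_neg hxu] at h1
            rw [if_pos hxz] at h2
            rw [if_pos hxz, if_neg hxv]
            omega
          · by_cases hxu : x = u'
            · have hxv : x ≠ v := fun h => huv (hxu.symm.trans h)
              rw [if_pos hxu, if_neg hxv] at h3
              rw [if_pos hxu] at h1
              rw [if_neg hxz] at h2
              rw [if_neg hxz, if_neg hxv]
              rw [← hxu] at hu'
              left
              omega
            · rw [if_neg hxu] at h3
              rw [if_neg hxu] at h1
              rw [if_neg hxz] at h2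
              rw [if_neg hxz]
              omega
        have hz1 := hd' z
        rw [if_pos rfl, if_neg hzv] at hz1
        rcases ih _ z v hcard hzv hA' hd' with ⟨h1, w, T, h2, h3, h4⟩ | ⟨h1, w, T, h2, h3, h4⟩
        · refine ⟨w, T, .head (hA _ he) h2, h3, fun x => ?_⟩
          have h5 := h4 x
          have h6 := ho x
          have h7 := hi x
          simp only [List.count_cons, beq_iff_eq, eq_comm (b := x)] at h5 ⊢
          by_cases hxz : x = z
          · have hxu : x ≠ u' := fun h => hz (hxz.symm.trans h)
            simp only [if_pos hxz, if_neg hxu] at h5 h6 h7 ⊢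
            rw [← hxz] at hz1 h1
            omega
          · by_cases hxu : x = u'
            · simp only [if_pos hxu, if_neg hxz] at h5 h6 h7 ⊢
              rw [← hxu] at hu'
              omega
            · simp only [if_neg hxu, if_neg hxz] at h5 h6 h7 ⊢
              omega
        · refine ⟨z, w :: T, .single (hA _ he), .bwd h2 h3, fun x => ?_⟩
          have h5 := h4 x
          have h6 := ho x
          have h7 := hi x
          rw [List.count_cons]
          simp only [beq_iff_eq, eq_comm (b := x)] at h5 ⊢
          by_cases hxz : x = z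
          · have hxu : x ≠ u' := fun h => hz (hxz.symm.trans h)
            simp only [if_pos hxz, if_neg hxu] at h5 h6 h7 ⊢
            rw [← hxz] at hz1 h1
            omega
          · by_cases hxu : x = u'
            · simp only [if_pos hxu, if_neg hxz] at h5 h6 h7 ⊢
              rw [← hxu] at hu'
              omega
            · simp only [if_neg hxu, if_neg hxz] at h5 h6 h7 ⊢
              omega
    · -- an arc (z, u)
      obtain ⟨⟨z, u'⟩, he0⟩ := Finset.card_pos.mp hpos
      obtain ⟨he, hu1⟩ := Finset.mem_filter.mp he0
      clear he0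
      simp only at hu1
      subst hu1
      have hz : z ≠ u' := by
        rintro rfl
        have : 0 < oD E z := Finset.card_pos.mpr ⟨_, Finset.mem_filter.mpr ⟨he, rfl⟩⟩
        omega
      have ho := oD_erase he
      have hi := iD_erase he
      simp only at ho hi
      have hA' : ∀ e ∈ E.erase (z, u'), A e.1 e.2 := fun e h => hA e (Finset.mem_of_mem_erase h)
      have hcard : (E.erase (z, u')).card = N := by rw [Finset.card_erase_of_mem he]; omega
      generalize E.erase (z, u') = E' at ho hi hA' hcard
      right
      refine ⟨by omega, ?_⟩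
      by_cases hzv : z = v
      · refine ⟨z, [], .single (hA _ he), hzv ▸ Rn.nil _, fun x => ?_⟩
        simp only [List.count_cons, List.count_nil, beq_iff_eq]
        split_ifs with hx
        · subst hx
          have h1 := hd z
          have h2 := ho z
          simp only [if_true, if_neg hz, if_pos hzv] at h1 h2
          omega
        · omega
      · have hd' : ∀ x, iD E' x + oD E' x +
            (if x = z then 1 else 0) + (if x = v then 1 else 0) = 0 ∨
            iD E' x + oD E' x +
            (if x = z then 1 else 0) + (if x = v then 1 else 0) = 2 := by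
          intro x
          have h1 := ho x
          have h2 := hi x
          have h3 := hd x
          by_cases hxz : x = z
          · have hxu : x ≠ u' := fun h => hz (hxz.symm.trans h)
            have hxv : x ≠ v := fun h => hzv (hxz.symm.trans h)
            rw [if_neg hxu, if_neg hxv] at h3
            rw [if_pos hxz] at h1
            rw [if_neg hxu] at h2
            rw [if_pos hxz, if_neg hxv]
            omega
          · by_cases hxu : x = u'
            · have hxv : x ≠ v := fun h => huv (hxu.symm.trans h)
              rw [if_pos hxu, if_neg hxv] at h3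
              rw [if_neg hxz] at h1
              rw [if_pos hxu] at h2
              rw [if_neg hxz, if_neg hxv]
              rw [← hxu] at hu'
              left
              omega
            · rw [if_neg hxu] at h3
              rw [if_neg hxz] at h1
              rw [if_neg hxu] at h2
              rw [if_neg hxz]
              omega
        have hz1 := hd' z
        rw [if_pos rfl, if_neg hzv] at hz1
        rcases ih _ z v hcard hzv hA' hd' with ⟨h1, w, T, h2, h3, h4⟩ | ⟨h1, w, T, h2, h3, h4⟩
        · refine ⟨z, z :: T, .single (hA _ he), .fwd h2 h3, fun x => ?_⟩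
          have h5 := h4 x
          have h6 := ho x
          have h7 := hi x
          rw [List.count_cons]
          simp only [beq_iff_eq, eq_comm (b := x)] at h5 ⊢
          by_cases hxz : x = z
          · have hxu : x ≠ u' := fun h => hz (hxz.symm.trans h)
            simp only [if_pos hxz, if_neg hxu] at h5 h6 h7 ⊢
            rw [← hxz] at hz1 h1
            omega
          · by_cases hxu : x = u'
            · simp only [if_pos hxu, if_neg hxz] at h5 h6 h7 ⊢
              rw [← hxu] at hu'
              omega
            · simp only [if_neg hxu, if_neg hxz] at h5 h6 h7 ⊢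
              omega
        · refine ⟨w, T, h2.tail (hA _ he), h3, fun x => ?_⟩
          have h5 := h4 x
          have h6 := ho x
          have h7 := hi x
          simp only [List.count_cons, beq_iff_eq, eq_comm (b := x)] at h5 ⊢
          by_cases hxz : x = z
          · have hxu : x ≠ u' := fun h => hz (hxz.symm.trans h)
            simp only [if_pos hxz, if_neg hxu] at h5 h6 h7 ⊢
            rw [← hxz] at hz1 h1
            omega
          · by_cases hxu : x = u'
            · simp only [if_pos hxu, if_neg hxz] at h5 h6 h7 ⊢
              rw [← hxu] at hu'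
              omega
            · simp only [if_neg hxu, if_neg hxz] at h5 h6 h7 ⊢
              omega

/-- Tracing the demands back along the flow. -/
theorem flow {F : Finset (V × V)} (hF : ∀ e ∈ F, A e.1 e.2) (N : ℕ) :
    ∀ (f : V × V → ℕ) (T : List V) (m : V → ℕ), (∑ e ∈ F, f e) + T.length = N →
    (∀ x, sOut F f x + T.count x ≤ sIn F f x + m x) →
    ∃ S : List V, List.Forall₂ (ReflTransGen A) S T ∧ ∀ x, S.count x ≤ m x := by
  induction N with
  | zero =>
    intro f T m hN _
    have : T = [] := List.eq_nil_of_length_eq_zero (by omega)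
    subst this
    exact ⟨[], .nil, fun x => by simp⟩
  | succ N ih =>
    intro f T m hN h
    cases T with
    | nil => exact ⟨[], .nil, fun x => by simp⟩
    | cons t T =>
      by_cases hm : 0 < m t
      · obtain ⟨S, h1, h2⟩ := ih f T (Function.update m t (m t - 1)) (by
          rw [List.length_cons] at hN; omega) (fun x => by
          have h3 := h x
          rw [List.count_cons] at h3
          by_cases hx : x = t
          · subst hx
            simp only [beq_self_eq_true, if_true, Function.update_self] at h3 ⊢
            omega
          · rw [Function.update_of_ne hx]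
            omega)
        refine ⟨t :: S, .cons .refl h1, fun x => ?_⟩
        have h3 := h2 x
        rw [List.count_cons]
        by_cases hx : x = t
        · subst hx
          rw [Function.update_self] at h3
          simp only [beq_self_eq_true, if_true]
          omega
        · rw [Function.update_of_ne hx] at h3
          have : (t == x) = false := by simpa using Ne.symm hx
          rw [this]
          simpa using h3
      · have h1 := h t
        rw [List.count_cons_self] at h1
        have h2 : 0 < sIn F f t := by omega
        unfold sIn at h2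
        obtain ⟨e, he, he'⟩ := Finset.exists_ne_zero_of_sum_ne_zero h2.ne'
        obtain ⟨he1, he2⟩ := Finset.mem_filter.mp he
        have hu : ∀ (G : Finset (V × V)), (∑ a ∈ G, Function.update f e (f e - 1) a) +
            (if e ∈ G then 1 else 0) = ∑ a ∈ G, f a := by
          intro G
          split_ifs with hG
          · rw [Finset.sum_update_of_mem hG, ← Finset.sum_erase_add G f hG,
              Finset.sdiff_singleton_eq_erase]
            omega
          · rw [Nat.add_zero]
            refine Finset.sum_congr rfl (fun a ha => Function.update_of_ne ?_ _ _)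
            rintro rfl
            exact hG ha
        have hFs := hu F
        rw [if_pos he1] at hFs
        obtain ⟨S, h3, h4⟩ := ih (Function.update f e (f e - 1)) (e.1 :: T) m (by
          rw [List.length_cons] at hN ⊢; omega) (fun x => by
          have h5 := h x
          have h6 := hu (F.filter (fun e => e.1 = x))
          have h7 := hu (F.filter (fun e => e.2 = x))
          unfold sOut sIn at h5 ⊢
          rw [List.count_cons] at h5 ⊢
          simp only [Finset.mem_filter, he1, true_and, he2, beq_iff_eq] at h6 h7 h5 ⊢
          split_ifs at * <;> omega)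
        cases h3 with
        | cons h5 h6 =>
          exact ⟨_, .cons (h5.tail (he2 ▸ hF e he1)) h6, h4⟩

theorem route_of_local {F : Finset (V × V)} (hF : ∀ x y, (x, y) ∈ F ↔ A x y) {m : V → ℕ}
    {u v : V} (huv : u ≠ v) (h : LocalN F m u v) : ∃ p L, Rt A u v p L ∧ Avail m L := by
  obtain ⟨f, g, hf, hg, h⟩ := h
  have hFA : ∀ e ∈ F, A e.1 e.2 := fun e he => (hF e.1 e.2).mp he
  set E := F.filter (fun e => g e = 1) with hE
  have hoD : ∀ x, oD E x = sOut F g x := by
    intro x
    unfold oD sOut
    rw [Finset.card_eq_sum_ones, hE, Finset.filter_filter, Finset.sum_filter, Finset.sum_filter]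
    refine Finset.sum_congr rfl (fun e _ => ?_)
    have := hg e
    by_cases h1 : e.1 = x
    · by_cases h2 : g e = 1
      · simp [h1, h2]
      · have h3 : g e = 0 := by omega
        simp [h1, h3]
    · simp [h1]
  have hiD : ∀ x, iD E x = sIn F g x := by
    intro x
    unfold iD sIn
    rw [Finset.card_eq_sum_ones, hE, Finset.filter_filter, Finset.sum_filter, Finset.sum_filter]
    refine Finset.sum_congr rfl (fun e _ => ?_)
    have := hg e
    by_cases h1 : e.2 = x
    · by_cases h2 : g e = 1
      · simp [h1, h2]
      · have h3 : g e = 0 := by omega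
        simp [h1, h3]
    · simp [h1]
  obtain ⟨T, hT, hT'⟩ : ∃ T, Rn A u v T ∧ ∀ x, T.count x ≤ oD E x - iD E x := by
    rcases extract E.card E u v rfl huv (fun e he => hFA e (Finset.mem_filter.mp he).1)
      (fun x => by rw [hoD, hiD]; exact (h x).2.2.1) with ⟨-, w, T, h1, h2, h3⟩ |
        ⟨-, w, T, h1, h2, h3⟩
    · exact ⟨_, .fwd h1 h2, h3⟩
    · exact ⟨_, .bwd h1 h2, h3⟩
  obtain ⟨S, hS, hS'⟩ := flow hFA _ f T m rfl (fun x => by
    have h1 := hT' x
    rw [hoD, hiD] at h1
    have h2 := (h x).2.2.2
    omega)
  obtain ⟨p, L, h1, h2⟩ := hT.toRt hS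
  exact ⟨p, L, h1, fun x => by rw [h2]; exact hS' x⟩

end Pool.Agent.Helper7.ACP
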