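import Pool.Agent.Helper7.ACP.Types
import Pool.Agent.Helper7.ACP.Local

/-!
# The finite monoid and the local rules
-/

set_option autoImplicit false

namespace Pool.Agent.Helper7.ACP

/-- Numbers cut off at `3`. -/
def Sat : Type := Fin 4

instance : DecidableEq Sat := inferInstanceAs (DecidableEq (Fin 4))

instance : Fintype Sat := inferInstanceAs (Fintype (Fin 4))

/-- The value. -/
def Sat.val (a : Sat) : ℕ := Fin.val (n := 4) a

/-- Cutting off. -/
def Sat.mk (n : ℕ) : Sat := (⟨min n 3, by omega⟩ : Fin 4)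

theorem Sat.val_mk (n : ℕ) : (Sat.mk n).val = min n 3 := rfl

theorem Sat.ext {a b : Sat} (h : a.val = b.val) : a = b := Fin.ext (n := 4) h

theorem Sat.val_le (a : Sat) : a.val ≤ 3 := by
  have := Fin.is_lt (n := 4) a
  unfold Sat.val
  omega

instance : Zero Sat := ⟨Sat.mk 0⟩

instance : Add Sat := ⟨fun a b => Sat.mk (a.val + b.val)⟩

theorem Sat.val_zero : (0 : Sat).val = 0 := rfl

theorem Sat.val_add (a b : Sat) : (a + b).val = min (a.val + b.val) 3 := rfl

instance : AddCommMonoid Sat where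
  add_assoc a b c := Sat.ext (by rw [Sat.val_add, Sat.val_add, Sat.val_add, Sat.val_add]; omega)
  zero_add a := Sat.ext (by rw [Sat.val_add, Sat.val_zero]; have := a.val_le; omega)
  add_zero a := Sat.ext (by rw [Sat.val_add, Sat.val_zero]; have := a.val_le; omega)
  add_comm a b := Sat.ext (by rw [Sat.val_add, Sat.val_add]; omega)
  nsmul := nsmulRec

/-- Cutting off, as a homomorphism. -/
def toSat : ℕ →+ Sat where
  toFun := Sat.mk
  map_zero' := rfl
  map_add' a b := Sat.ext (by rw [Sat.val_add, Sat.val_mk, Sat.val_mk, Sat.val_mk]; omega)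

theorem val_toSat (n : ℕ) : (toSat n).val = min n 3 := rfl

/-- The labels and the local rules for the path clearing number. -/
def spec : Spec (Sat × Sat × Sat × Sat) (Fin 3 × Fin 2) where
  wo l := (toSat l.1.1, 0, toSat l.2.1, 0)
  wi l := (0, toSat l.1.1, 0, toSat l.2.1)
  ok a du dv r := r.1.val ≤ 2 ∧ r.2.1.val ≤ 2 ∧
    (r.2.2.2.val + r.2.2.1.val + (if du = true then 1 else 0) + (if dv = true then 1 else 0) = 0 ∨
      r.2.2.2.val + r.2.2.1.val + (if du = true then 1 else 0) + (if dv = true then 1 else 0) =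
        2) ∧
    r.1.val + (r.2.2.1.val - r.2.2.2.val) ≤ r.2.1.val + a

variable {V : Type} [DecidableEq V]

theorem sumAt_spec (F : Finset (V × V)) (ℓ : V × V → Fin 3 × Fin 2) (x : V) :
    sumAt spec F ℓ x = (toSat (sOut F (fun e => (ℓ e).1.1) x), toSat (sIn F (fun e => (ℓ e).1.1) x),
      toSat (sOut F (fun e => (ℓ e).2.1) x), toSat (sIn F (fun e => (ℓ e).2.1) x)) := by
  unfold sumAt sOut sIn spec
  refine Prod.ext ?_ (Prod.ext ?_ (Prod.ext ?_ ?_))
  · simp only [Prod.fst_add, Prod.fst_sum, map_sum, Finset.sum_const_zero, add_zero]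
  · simp only [Prod.fst_add, Prod.snd_add, Prod.fst_sum, Prod.snd_sum, map_sum,
      Finset.sum_const_zero, zero_add]
  · simp only [Prod.fst_add, Prod.snd_add, Prod.fst_sum, Prod.snd_sum, map_sum,
      Finset.sum_const_zero, add_zero]
  · simp only [Prod.snd_add, Prod.snd_sum, map_sum,
      Finset.sum_const_zero, zero_add]

theorem ok_iff (a : ℕ) (du dv : Bool) (fo fi go gi : ℕ) :
    spec.ok a du dv (toSat fo, toSat fi, toSat go, toSat gi) ↔
      fo ≤ 2 ∧ fi ≤ 2 ∧
      (gi + go + (if du = true then 1 else 0) + (if dv = true then 1 else 0) = 0 ∨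
        gi + go + (if du = true then 1 else 0) + (if dv = true then 1 else 0) = 2) ∧
      fo + (go - gi) ≤ fi + a := by
  unfold spec
  simp only [val_toSat]
  constructor
  · rintro ⟨h1, h2, h3, h4⟩
    refine ⟨by omega, by omega, by omega, by omega⟩
  · rintro ⟨h1, h2, h3, h4⟩
    refine ⟨by omega, by omega, by omega, by omega⟩

/-- The local form of the existence of a route, by labels. -/
theorem local_iff (F : Finset (V × V)) (m : V → ℕ) (u v : V) :
    LocalN F m u v ↔ ∃ ℓ : V × V → Fin 3 × Fin 2,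
      ∀ x, spec.ok (m x) (decide (x = u)) (decide (x = v)) (sumAt spec F ℓ x) := by
  constructor
  · rintro ⟨f, g, hf, hg, h⟩
    refine ⟨fun e => (⟨f e, by have := hf e; omega⟩, ⟨g e, by have := hg e; omega⟩), fun x => ?_⟩
    rw [sumAt_spec, ok_iff]
    simp only [decide_eq_true_eq]
    exact h x
  · rintro ⟨ℓ, h⟩
    refine ⟨fun e => (ℓ e).1.1, fun e => (ℓ e).2.1, fun e => Nat.le_of_lt_succ (ℓ e).1.2,
      fun e => Nat.le_of_lt_succ (ℓ e).2.2, fun x => ?_⟩
    have h1 := h x
    rw [sumAt_spec, ok_iff] at h1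
    simp only [decide_eq_true_eq] at h1
    exact h1

end Pool.Agent.Helper7.ACP
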