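import Pool.Agent.Helper7.ACP.Types
import Pool.Agent.Helper87.ACP.Correct

/-!
# The constant tables and the semantics of types
-/

set_option autoImplicit false

namespace Pool.Agent.Helper7.ACP

open Alg

section Tab

variable {M Λ : Type} [AddCommMonoid M] [Finite M] (P : Spec M Λ) (K : ℕ)

/-- The codes of the types. -/
noncomputable def cd : Ty M K ≃ Fin (Nat.card (Ty M K)) := Finite.equivFin _

/-- The type with a given code. -/
noncomputable def dec (q : ℕ) : Ty M K :=
  if h : q < Nat.card (Ty M K) then (cd K).symm ⟨q, h⟩ else zeroTy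

theorem dec_cd (τ : Ty M K) : dec K (cd K τ).1 = τ := by
  unfold dec
  rw [dif_pos (cd K τ).2]
  exact (cd K).symm_apply_apply τ

open Classical in
/-- The constant tables. -/
noncomputable def tab : Tables where
  K := K
  N := Nat.card (Ty M K)
  zero := (cd K (zeroTy : Ty M K)).1
  plus := (List.range (Nat.card (Ty M K) * Nat.card (Ty M K))).map (fun q =>
    (cd K (addTy (dec K (q / Nat.card (Ty M K))) (dec K (q % Nat.card (Ty M K)) : Ty M K))).1)
  forget := (List.range (K * 3 * Nat.card (Ty M K))).map (fun q =>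
    if h : q / Nat.card (Ty M K) / 3 < K then
      (cd K (forgetTy P ⟨q / Nat.card (Ty M K) / 3, h⟩ (q / Nat.card (Ty M K) % 3)
        (dec K (q % Nat.card (Ty M K)) : Ty M K))).1
    else 0)
  arc := (List.range (4 ^ K)).map (fun q =>
    if h : q < 4 ^ K then (cd K (arcTy P (finFunctionFinEquiv.symm ⟨q, h⟩) : Ty M K)).1 else 0)
  acc := (List.range (Nat.card (Ty M K))).map (fun q =>
    decide (∀ S ∈ (dec K q : Ty M K) true true, S.Nonempty))

theorem getD_map_range {α : Type} (n : ℕ) (g : ℕ → α) (d : α) {i : ℕ} (hi : i < n) :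
    ((List.range n).map g).getD i d = g i := by
  rw [List.getD_eq_getElem?_getD, List.getElem?_map, List.getElem?_range hi]
  rfl

theorem plusC_tab (τ τ' : Ty M K) :
    plusC (tab P K) (cd K τ).1 (cd K τ').1 = (cd K (addTy τ τ')).1 := by
  have h1 : (cd K τ).1 < Nat.card (Ty M K) := (cd K τ).2
  have h2 : (cd K τ').1 < Nat.card (Ty M K) := (cd K τ').2
  unfold plusC tab
  simp only
  rw [getD_map_range, Nat.add_comm, Nat.add_mul_div_right _ _ (by omega), Nat.div_eq_of_lt h2,
    Nat.zero_add, Nat.add_mul_mod_self_right, Nat.mod_eq_of_lt h2, dec_cd, dec_cd]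
  calc (cd K τ).1 * Nat.card (Ty M K) + (cd K τ').1
      < (cd K τ).1 * Nat.card (Ty M K) + Nat.card (Ty M K) := by omega
    _ = ((cd K τ).1 + 1) * Nat.card (Ty M K) := by ring
    _ ≤ Nat.card (Ty M K) * Nat.card (Ty M K) := Nat.mul_le_mul_right _ h1

theorem forgetC_tab (i : Fin K) (a : Fin 3) (τ : Ty M K) :
    forgetC (tab P K) i.1 a.1 (cd K τ).1 = (cd K (forgetTy P i a.1 τ)).1 := by
  have h2 : (cd K τ).1 < Nat.card (Ty M K) := (cd K τ).2
  have h3 : i.1 < K := i.2
  have h4 : a.1 < 3 := a.2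
  have e1 : ((i.1 * 3 + a.1) * Nat.card (Ty M K) + (cd K τ).1) / Nat.card (Ty M K) =
      i.1 * 3 + a.1 := by
    rw [Nat.add_comm, Nat.add_mul_div_right _ _ (by omega), Nat.div_eq_of_lt h2, Nat.zero_add]
  have e2 : ((i.1 * 3 + a.1) * Nat.card (Ty M K) + (cd K τ).1) % Nat.card (Ty M K) =
      (cd K τ).1 := by
    rw [Nat.add_comm, Nat.add_mul_mod_self_right, Nat.mod_eq_of_lt h2]
  unfold forgetC tab
  simp only
  rw [getD_map_range]
  · have e3 : (i.1 * 3 + a.1) / 3 = i.1 := by omega
    have e4 : (i.1 * 3 + a.1) % 3 = a.1 := by omega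
    have h5 : ((i.1 * 3 + a.1) * Nat.card (Ty M K) + (cd K τ).1) / Nat.card (Ty M K) / 3 < K := by
      rw [e1, e3]
      exact h3
    rw [dif_pos h5]
    have h6 : (⟨_, h5⟩ : Fin K) = i := Fin.ext (by simp only [e1, e3])
    rw [h6, e1, e2, e4, dec_cd]
  · calc (i.1 * 3 + a.1) * Nat.card (Ty M K) + (cd K τ).1
        < (i.1 * 3 + a.1) * Nat.card (Ty M K) + Nat.card (Ty M K) := by omega
      _ = (i.1 * 3 + a.1 + 1) * Nat.card (Ty M K) := by ring
      _ ≤ K * 3 * Nat.card (Ty M K) := Nat.mul_le_mul_right _ (by omega)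

theorem acc_tab (τ : Ty M K) :
    (tab P K).acc.getD (cd K τ).1 false = true ↔ ∀ S ∈ τ true true, S.Nonempty := by
  unfold tab
  simp only
  rw [getD_map_range _ _ _ (cd K τ).2, dec_cd]
  classical
  exact decide_eq_true_iff

end Tab

/-! ### Masks -/

theorem foldl_add {α : Type} (g : α → ℕ) (l : List α) (s : ℕ) :
    l.foldl (fun s p => s + g p) s = s + (l.map g).sum := by
  induction l generalizing s with
  | nil => simp
  | cons a l ih =>
    rw [List.foldl_cons, ih, List.map_cons, List.sum_cons]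
    ring

theorem maskC_eq (t : Tables) (b : List ℕ) (x y : ℕ) :
    maskC t b x y = ∑ j : Fin t.K, ((bif decide (b.getD j.1 0 = x + 1) then 1 else 0) +
      (bif decide (b.getD j.1 0 = y + 1) then 2 else 0)) * 4 ^ j.1 := by
  unfold maskC
  rw [foldl_add, Nat.zero_add, List.map_map]
  rw [← Finset.sum_range (fun j => ((bif decide (b.getD j 0 = x + 1) then 1 else 0) +
      (bif decide (b.getD j 0 = y + 1) then 2 else 0)) * 4 ^ j)]
  rfl

/-- The digits of the mask. -/
def dig {n K : ℕ} (β : Fin K → Option (Fin n)) (x y : Fin n) (j : Fin K) : Fin 4 :=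
  if β j = some x then 1 else if β j = some y then 2 else 0

theorem maskC_dig (t : Tables) {n : ℕ} {b : List ℕ} {β : Fin t.K → Option (Fin n)}
    (hb : Codes b β) {x y : Fin n} (hxy : x ≠ y) :
    maskC t b x.1 y.1 = (finFunctionFinEquiv (dig β x y)).1 := by
  rw [maskC_eq, finFunctionFinEquiv_apply]
  refine Finset.sum_congr rfl (fun j _ => ?_)
  congr 1
  rw [hb j]
  unfold dig
  cases hβ : β j with
  | none => simp
  | some z =>
    simp only [Option.some.injEq, Nat.add_right_cancel_iff]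
    by_cases h1 : z = x
    · subst h1
      have h3 : z.1 ≠ y.1 := fun h => hxy (Fin.ext h)
      simp [h3]
    · have h3 : z.1 ≠ x.1 := fun h => h1 (Fin.ext h)
      by_cases h2 : z = y
      · subst h2
        simp [h1, h3]
      · have h4 : z.1 ≠ y.1 := fun h => h2 (Fin.ext h)
        simp [h1, h2, h3, h4]

section Sem

variable {M Λ : Type} [AddCommMonoid M] [Finite M] [Nonempty Λ] (P : Spec M Λ) (K : ℕ)

omit [Nonempty Λ] in
theorem arc_tab {n : ℕ} {b : List ℕ} {β : Fin K → Option (Fin n)} (hb : Codes b β)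
    {x y : Fin n} (hxy : x ≠ y) (m : Fin n → ℕ) :
    (tab P K).arc.getD (maskC (tab P K) b x.1 y.1) 0 = (cd K (ty P ∅ {(x, y)} β m)).1 := by
  have h0 : maskC (tab P K) b x.1 y.1 = (finFunctionFinEquiv (dig β x y)).1 :=
    maskC_dig (tab P K) hb hxy
  rw [h0]
  rw [show (tab P K).arc = (List.range (4 ^ K)).map (fun q =>
    if h : q < 4 ^ K then (cd K (arcTy P (finFunctionFinEquiv.symm ⟨q, h⟩) : Ty M K)).1 else 0)
    from rfl]
  have h1 : (finFunctionFinEquiv (dig β x y)).1 < 4 ^ K := (finFunctionFinEquiv (dig β x y)).2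
  rw [getD_map_range _ _ _ h1, dif_pos h1, ty_arc P β m (dig β x y)]
  · congr 3
    exact finFunctionFinEquiv.symm_apply_apply _
  · intro i
    unfold dig
    split_ifs with h2 h3
    · simp [h2]
    · simp [h2]
    · simp [h2]
  · intro i
    unfold dig
    split_ifs with h2 h3
    · simp [h2, hxy]
    · simp [h3]
    · simp [h3]

omit [Nonempty Λ] in
theorem forget_tab {n : ℕ} (β : Fin K → Option (Fin n)) (i : Fin K) (v : Fin n)
    (F : Finset (Fin n × Fin n)) (X : Finset (Fin n)) (m : Fin n → Fin 3) (hv : v ∉ X)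
    (hw : ∀ w, β i = some w → ∀ p ∈ F, p.1 ≠ w ∧ p.2 ≠ w) :
    (cd K (ty P ((insert v X : Finset (Fin n)) : Set (Fin n)) F β (fun x => (m x).1))).1 =
      forgetC (tab P K) i.1 (m v).1
        (cd K (ty P (X : Set (Fin n)) F (Function.update β i (some v)) (fun x => (m x).1))).1 := by
  rw [forgetC_tab]
  have h1 := ty_forget P (X := (X : Set (Fin n))) (v := v) (by simpa using hv) F
    (β := Function.update β i (some v)) (i := i) (Function.update_self _ _ _)
    (fun x => (m x).1)
  rw [← h1, Function.update_idem, ty_slot P hw, Finset.coe_insert, Set.union_singleton]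

/-- The semantics of the tables. -/
noncomputable def sem (D : Dig) : Sem (tab P K) D where
  ty β F X m := (cd K (ty P (X : Set (Fin D.n)) F β (fun x => (m x).1))).1
  lt β F X m _ := (cd K _).2
  zero β m := by
    rw [Finset.coe_empty, ty_zero]
    rfl
  congr β F X m m' _ h := by
    rw [ty_congr P (fun x hx => by rw [h x (Finset.mem_coe.mp hx)])]
  plus β F X F' X' m h h' hF hX := by
    rw [plusC_tab, Finset.coe_union, ty_union P (Finset.disjoint_coe.mpr hX) hF]
    · intro e he
      refine ⟨fun h1 => ?_, fun h1 => ?_⟩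
      · rcases h.fst e he with h2 | ⟨i, h2⟩
        · exact Finset.disjoint_left.mp hX h2 h1
        · exact h'.out _ h1 i h2
      · rcases h.snd e he with h2 | ⟨i, h2⟩
        · exact Finset.disjoint_left.mp hX h2 h1
        · exact h'.out _ h1 i h2
    · intro e he
      refine ⟨fun h1 => ?_, fun h1 => ?_⟩
      · rcases h'.fst e he with h2 | ⟨i, h2⟩
        · exact Finset.disjoint_left.mp hX h1 h2
        · exact h.out _ h1 i h2
      · rcases h'.snd e he with h2 | ⟨i, h2⟩
        · exact Finset.disjoint_left.mp hX h1 h2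
        · exact h.out _ h1 i h2
  arc β b x y m hb hxy _ _ := by
    have h1 : x ≠ y := (adj_of_arc hxy).1
    rw [arc_tab P K hb h1 (fun x => (m x).1), Finset.coe_empty]
  forget β i v F X m hv _ _ hw := forget_tab P K β i v F X m hv hw

end Sem

/-- All pairs are joined, by labels. -/
def ValidL {M Λ : Type} [AddCommMonoid M] (P : Spec M Λ) {n : ℕ} (F : Finset (Fin n × Fin n))
    (m : Fin n → ℕ) : Prop :=
  ∀ u v, u ≠ v → ∃ ℓ : Fin n × Fin n → Λ,
    ∀ x, P.ok (m x) (decide (x = u)) (decide (x = v)) (sumAt P F ℓ x)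

theorem accept_iff {M Λ : Type} [AddCommMonoid M] [Finite M] [Nonempty Λ] (P : Spec M Λ) (K : ℕ)
    (D : Dig) (m : Fin D.n → Fin 3) :
    (tab P K).acc.getD ((sem P K D).ty (fun _ => none) (arcsOf D Finset.univ)
      Finset.univ m) false = true ↔ ValidL P (arcsOf D Finset.univ) (fun x => (m x).1) := by
  have h1 : (tab P K).acc.getD ((sem P K D).ty (fun _ => none) (arcsOf D Finset.univ)
      Finset.univ m) false = true ↔ ∀ S ∈ ty P (K := K)
        ((Finset.univ : Finset (Fin D.n)) : Set (Fin D.n)) (arcsOf D Finset.univ) (fun _ => none)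
        (fun x => (m x).1) true true, S.Nonempty := acc_tab P K _
  rw [h1]
  constructor
  · intro h u v huv
    obtain ⟨r, ℓ, h2, -⟩ := h _ ⟨fun x => decide (x = u), fun x => decide (x = v),
      Or.inr ⟨rfl, u, by simp, fun y _ => decide_eq_true_iff⟩,
      Or.inr ⟨rfl, v, by simp, fun y _ => decide_eq_true_iff⟩, fun x _ hx => by
        rw [decide_eq_true_iff, decide_eq_true_iff] at hx
        exact huv (hx.1.symm.trans hx.2), rfl⟩
    exact ⟨ℓ, fun x => h2 x (by simp)⟩
  · rintro h S ⟨μ, ν, h2, h3, h4, rfl⟩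
    rcases h2 with ⟨h2, -⟩ | ⟨-, u, -, h2⟩
    · cases h2
    rcases h3 with ⟨h3, -⟩ | ⟨-, v, -, h3⟩
    · cases h3
    have huv : u ≠ v := by
      rintro rfl
      exact h4 u (by simp) ⟨(h2 u (by simp)).mpr rfl, (h3 u (by simp)).mpr rfl⟩
    obtain ⟨ℓ, h5⟩ := h u v huv
    refine ⟨_, ℓ, fun x _ => ?_, fun i => rfl⟩
    have e1 : μ x = decide (x = u) := by
      rw [Bool.eq_iff_iff, h2 x (by simp), decide_eq_true_iff]
    have e2 : ν x = decide (x = v) := by
      rw [Bool.eq_iff_iff, h3 x (by simp), decide_eq_true_iff]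
    rw [e1, e2]
    exact h5 x

end Pool.Agent.Helper7.ACP
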