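import Pool.Agent.Helper7.ACP.LocS

/-!
# From chains of simple paths to the local form
-/

set_option autoImplicit false

namespace Pool.Agent.Helper7.ACP

open Relation

/-! ### Two classes -/

/-- Elements at even and at odd positions. -/
def alt {α : Type} : List α → List α × List α
  | [] => ([], [])
  | x :: L => (x :: (alt L).2, (alt L).1)

theorem mem_alt {α : Type} (L : List α) :
    (∀ y ∈ (alt L).1, y ∈ L) ∧ (∀ y ∈ (alt L).2, y ∈ L) := by
  induction L with
  | nil => simp [alt]
  | cons x L ih =>
    refine ⟨fun y hy => ?_, fun y hy => List.mem_cons_of_mem _ (ih.1 y hy)⟩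
    rcases List.mem_cons.mp hy with rfl | hy
    · simp
    · exact List.mem_cons_of_mem _ (ih.2 y hy)

theorem alt_perm {α : Type} (L : List α) : ((alt L).1 ++ (alt L).2).Perm L := by
  induction L with
  | nil => exact List.Perm.refl _
  | cons x L ih =>
    show (x :: (alt L).2 ++ (alt L).1).Perm (x :: L)
    exact List.Perm.cons x (List.perm_append_comm.trans ih)

theorem alt_pairwise {α : Type} {R : α → α → Prop} : ∀ {L : List α},
    (∀ La e1 Lm e2 Lb, L = La ++ e1 :: (Lm ++ e2 :: Lb) → R e1 e2 → Lm = []) →
    (alt L).1.Pairwise (fun a b => ¬ R a b) ∧ (alt L).2.Pairwise (fun a b => ¬ R a b) := by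
  intro L
  induction L with
  | nil => intro _; exact ⟨List.Pairwise.nil, List.Pairwise.nil⟩
  | cons x L ih =>
    intro H
    have H' := ih (fun La e1 Lm e2 Lb h h1 => H (x :: La) e1 Lm e2 Lb (by rw [h]; rfl) h1)
    refine ⟨?_, H'.1⟩
    show (x :: (alt L).2).Pairwise _
    rw [List.pairwise_cons]
    refine ⟨fun y hy hR => ?_, H'.2⟩
    cases L with
    | nil => simp [alt] at hy
    | cons z L =>
      obtain ⟨Lm, Lb, hL⟩ := List.append_of_mem ((mem_alt L).1 y hy)
      have := H [] x (z :: Lm) y Lb (by rw [hL]; rfl) hR
      exact absurd this (by simp)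

variable {V : Type} {A : V → V → Prop}

/-! ### Arcs of a path -/

/-- The arcs of a path from `u` through the list. -/
def arcsFrom : V → List V → List (V × V)
  | _, [] => []
  | u, x :: q => (u, x) :: arcsFrom x q

/-- The arcs of a path. -/
def arcsL : List V → List (V × V)
  | [] => []
  | u :: q => arcsFrom u q

theorem arcsFrom_append (u : V) (p q : List V) :
    arcsFrom u (p ++ q) = arcsFrom u p ++ arcsFrom (p.getLastD u) q := by
  induction p generalizing u with
  | nil => rfl
  | cons x p ih =>
    rw [List.cons_append, List.getLastD_cons]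
    show (u, x) :: arcsFrom x (p ++ q) = (u, x) :: arcsFrom x p ++ _
    rw [ih]
    rfl

theorem arcsL_fst (l : List V) : (arcsL l).map Prod.fst = l.dropLast := by
  cases l with
  | nil => rfl
  | cons u q =>
    show (arcsFrom u q).map Prod.fst = _
    induction q generalizing u with
    | nil => rfl
    | cons x q ih =>
      show u :: (arcsFrom x q).map Prod.fst = _
      rw [ih, List.dropLast_cons_cons]

theorem arcsL_snd (l : List V) : (arcsL l).map Prod.snd = l.tail := by
  cases l with
  | nil => rfl
  | cons u q =>
    show (arcsFrom u q).map Prod.snd = q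
    induction q generalizing u with
    | nil => rfl
    | cons x q ih =>
      show x :: (arcsFrom x q).map Prod.snd = _
      rw [ih]

theorem arcsL_sublist (a b : List V) : (arcsL b).Sublist (arcsL (a ++ b)) := by
  induction a with
  | nil => exact List.Sublist.refl _
  | cons x a ih =>
    refine ih.trans ?_
    rw [List.cons_append]
    cases a ++ b with
    | nil => exact List.nil_sublist _
    | cons y l => exact List.sublist_cons_self _ _

theorem arcsL_chain {l : List V} (h : l.IsChain A) : ∀ e ∈ arcsL l, A e.1 e.2 := by
  cases l with
  | nil => intro e he; simp [arcsL] at he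
  | cons u q =>
    show ∀ e ∈ arcsFrom u q, A e.1 e.2
    induction q generalizing u with
    | nil => intro e he; simp [arcsFrom] at he
    | cons x q ih =>
      obtain ⟨h1, h2⟩ := List.isChain_cons_cons.mp h
      intro e he
      rcases List.mem_cons.mp he with rfl | he
      · exact h1
      · exact ih x h2 e he

theorem arcsL_reverse (l : List V) : ((arcsL l).map Prod.swap).Perm (arcsL l.reverse) := by
  induction l with
  | nil => exact List.Perm.refl _
  | cons u q ih =>
    cases q with
    | nil => exact List.Perm.refl _
    | cons x q =>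
      show ((x, u) :: (arcsL (x :: q)).map Prod.swap).Perm _
      rw [List.reverse_cons]
      have h1 : arcsL ((x :: q).reverse ++ [u]) = arcsL (x :: q).reverse ++ [(x, u)] := by
        rw [List.reverse_cons]
        cases q.reverse with
        | nil => rfl
        | cons z r =>
          show arcsFrom z (r ++ [x] ++ [u]) = arcsFrom z (r ++ [x]) ++ [(x, u)]
          rw [arcsFrom_append z (r ++ [x]) [u], getLastD_app]
          rfl
      rw [h1]
      exact (List.Perm.cons _ ih).trans (List.perm_append_singleton _ _).symm

/-! ### The arcs of the walk -/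

theorem st_true {u : V} {q : List V} (h : (u :: q).IsChain A) :
    St A u (q.getLastD u) q (arcsL (u :: q)) := by
  induction q generalizing u with
  | nil => exact St.nil _
  | cons x q ih =>
    obtain ⟨h1, h2⟩ := List.isChain_cons_cons.mp h
    rw [List.getLastD_cons]
    exact St.fwd h1 (ih h2)

theorem st_false {u : V} {q : List V} (h : (u :: q).IsChain (fun a b => A b a)) :
    St A u (q.getLastD u) q ((arcsL (u :: q)).map Prod.swap) := by
  induction q generalizing u with
  | nil => exact St.nil _
  | cons x q ih =>
    obtain ⟨h1, h2⟩ := List.isChain_cons_cons.mp h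
    rw [List.getLastD_cons]
    exact St.bwd h1 (ih h2)

theorem Tc.toSt {u v : V} {P : List V} {L : List (List V × List V)} (h : Tc A u v P L) :
    ∃ E, St A u v P E ∧ E.Perm (L.flatMap (fun e => arcsL e.2)) := by
  induction h with
  | nil => exact ⟨[], St.nil _, List.Perm.refl _⟩
  | @cons u w v a q P L δ h1 h2 _ ih =>
    obtain ⟨E, h3, h4⟩ := ih
    rw [List.flatMap_cons]
    cases δ with
    | true =>
      have h5 : (u :: q).IsChain A := h1.2.right_of_append
      have h6 := st_true h5
      rw [h2] at h6
      exact ⟨_, h6.append h3, List.Perm.append (List.Perm.refl _) h4⟩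
    | false =>
      have h5 : (u :: q).reverse.IsChain A := h1.2.right_of_append
      rw [List.isChain_reverse] at h5
      have h6 := st_false h5
      rw [h2] at h6
      exact ⟨_, h6.append h3, List.Perm.append (arcsL_reverse _) h4⟩

/-! ### Counting -/

variable [DecidableEq V]

theorem tail_count_le (l : List V) (x : V) : l.tail.count x ≤ l.count x :=
  (List.tail_sublist l).count_le x

theorem dropLast_count_le (l : List V) (x : V) : l.dropLast.count x ≤ l.count x :=
  (List.dropLast_sublist l).count_le x

theorem count_head (l : List V) (x : V) :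
    l.count x = l.tail.count x + [l.head?].count (some x) := by
  cases l with
  | nil => simp
  | cons y l =>
    rw [List.count_cons, List.tail_cons, List.head?_cons, List.count_singleton]
    simp

/-- The counts for one class. -/
theorem class_count (L : List (List V × List V)) (hb : ∀ e ∈ L, e.2 ≠ [])
    (hn : (L.flatMap fullP).Nodup) (x : V) :
    ((L.flatMap (fun e => arcsL (fullP e))).map Prod.fst).count x ≤ 1 ∧
    ((L.flatMap (fun e => arcsL (fullP e))).map Prod.snd).count x ≤ 1 ∧
    ((L.flatMap (fun e => arcsL e.2)).map Prod.snd).count x +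
      ((L.flatMap (fun e => arcsL (fullP e))).map Prod.fst).count x ≤
      1 + ((L.flatMap (fun e => arcsL e.2)).map Prod.fst).count x ∧
    ((L.flatMap (fun e => arcsL (fullP e))).map Prod.fst).count x ≤
      ((L.flatMap (fun e => arcsL (fullP e))).map Prod.snd).count x + (starts L).count (some x) ∧
    (starts L).count (some x) ≤ 1 := by
  have h1 : (L.flatMap fullP).count x ≤ 1 := List.nodup_iff_count_le_one.mp hn x
  have key : ((L.flatMap (fun e => arcsL (fullP e))).map Prod.fst).count x ≤
        (L.flatMap fullP).count x ∧
      ((L.flatMap (fun e => arcsL (fullP e))).map Prod.snd).count x ≤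
        (L.flatMap fullP).count x ∧
      ((L.flatMap (fun e => arcsL e.2)).map Prod.snd).count x +
        ((L.flatMap (fun e => arcsL (fullP e))).map Prod.fst).count x ≤
        (L.flatMap fullP).count x + ((L.flatMap (fun e => arcsL e.2)).map Prod.fst).count x ∧
      ((L.flatMap (fun e => arcsL (fullP e))).map Prod.fst).count x ≤
        ((L.flatMap (fun e => arcsL (fullP e))).map Prod.snd).count x +
          (starts L).count (some x) ∧
      (starts L).count (some x) ≤ (L.flatMap fullP).count x := by
    clear hn h1
    induction L with
    | nil => simp [starts]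
    | cons e L ih =>
      obtain ⟨i1, i2, i3, i4, i5⟩ := ih (fun e he => hb e (List.mem_cons_of_mem _ he))
      have hs : (starts (e :: L)).count (some x) =
          [(fullP e).head?].count (some x) + (starts L).count (some x) := by
        rw [starts_cons, ← List.singleton_append, List.count_append]
      simp only [List.flatMap_cons, List.map_append, List.count_append, arcsL_fst, arcsL_snd] at *
      have e1 := tail_count_le (fullP e) x
      have e2 := dropLast_count_le (fullP e) x
      have e3 := count_head (fullP e) x
      have e4 : (fullP e).dropLast = e.1 ++ e.2.dropLast :=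
        List.dropLast_append_of_ne_nil (hb e (by simp))
      have e5 : (fullP e).count x = e.1.count x + e.2.count x := List.count_append
      have e6 := tail_count_le e.2 x
      have e7 : (fullP e).dropLast.count x = e.1.count x + e.2.dropLast.count x := by
        rw [e4, List.count_append]
      rw [hs]
      refine ⟨by omega, by omega, by omega, by omega, by omega⟩
  obtain ⟨k1, k2, k3, k4, k5⟩ := key
  refine ⟨by omega, by omega, by omega, by omega, by omega⟩

omit [DecidableEq V] in
theorem nodup_flatMap {L : List (List V × List V)} (h1 : ∀ e ∈ L, (fullP e).Nodup)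
    (h2 : L.Pairwise (fun a b => ¬ ∃ z, z ∈ fullP a ∧ z ∈ fullP b)) :
    (L.flatMap fullP).Nodup := by
  induction L with
  | nil => simp
  | cons e L ih =>
    rw [List.pairwise_cons] at h2
    rw [List.flatMap_cons, List.nodup_append]
    refine ⟨h1 e (by simp), ih (fun a ha => h1 a (List.mem_cons_of_mem _ ha)) h2.2, ?_⟩
    intro a ha b hb hab
    subst hab
    obtain ⟨f, hf, hb⟩ := List.mem_flatMap.mp hb
    exact h2.1 f hf ⟨a, ha, hb⟩

omit [DecidableEq V] in
theorem Tc.prop {u v : V} {P : List V} {L : List (List V × List V)} (h : Tc A u v P L) :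
    ∀ e ∈ L, SP A (fullP e) ∧ e.2 ≠ [] := by
  induction h with
  | nil => simp
  | @cons u w v a q P L δ h1 _ _ ih =>
    simp only [List.mem_cons, forall_eq_or_imp]
    refine ⟨⟨h1, ?_⟩, ih⟩
    cases δ <;> simp

/-! ### The local form -/

theorem locS_of_rs {F : Finset (V × V)} (hF : ∀ x y, (x, y) ∈ F ↔ A x y) {m : V → ℕ}
    {u v : V} {L : List (List V)} (h : Rs A u v L) (ha : AvailS m (L.map List.head?)) :
    LocS F (fun x => min (m x) 2) u v := by
  obtain ⟨P, M, hm⟩ := exists_minS h ha
  have hprop := hm.rt.prop
  obtain ⟨E, hE, hEp⟩ := hm.rt.toSt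
  have hnd := hm.nodup
  -- the two classes
  let C : Bool → List (List V × List V) := fun c => cond c (alt M).2 (alt M).1
  have hCM : ∀ c, ∀ e ∈ C c, e ∈ M := by
    intro c e he
    cases c with
    | false => exact (mem_alt M).1 e he
    | true => exact (mem_alt M).2 e he
  have hpw := alt_pairwise (R := fun a b => ∃ z, z ∈ fullP a ∧ z ∈ fullP b) (L := M)
    (fun La e1 Lm e2 Lb h1 h2 => by
      subst h1
      obtain ⟨z, hz1, hz2⟩ := h2
      exact hm.exchange hz1 hz2)
  have hCn : ∀ c, ((C c).flatMap fullP).Nodup := by
    intro c
    refine nodup_flatMap (fun e he => (hprop e (hCM c e he)).1.1) ?_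
    cases c with
    | false => exact hpw.1
    | true => exact hpw.2
  have hcount := fun c => class_count (C c) (fun e he => (hprop e (hCM c e he)).2) (hCn c)
  -- membership in `F`
  have hα : ∀ c, ∀ e ∈ (C c).flatMap (fun e => arcsL (fullP e)), e ∈ F := by
    intro c e he
    obtain ⟨f, hf, he⟩ := List.mem_flatMap.mp he
    exact (hF e.1 e.2).mpr (arcsL_chain (hprop f (hCM c f hf)).1.2 e he)
  have hβsub : ∀ c, ((C c).flatMap (fun e => arcsL e.2)).Sublist
      ((C c).flatMap (fun e => arcsL (fullP e))) := by
    intro c
    generalize C c = D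
    induction D with
    | nil => exact List.Sublist.refl _
    | cons e D ih => exact List.Sublist.append (arcsL_sublist e.1 e.2) ih
  have hβ : ∀ c, ∀ e ∈ (C c).flatMap (fun e => arcsL e.2), e ∈ F :=
    fun c e he => hα c e ((hβsub c).subset he)
  -- the body arcs
  have hperm : ((C false).flatMap (fun e => arcsL e.2) ++
      (C true).flatMap (fun e => arcsL e.2)).Perm E := by
    rw [← List.flatMap_append]
    exact (List.Perm.flatMap_right _ (alt_perm M)).trans hEp.symm
  have hst : ((starts (C false)) ++ (starts (C true))).Perm (starts M) := by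
    rw [← starts_append]
    exact (alt_perm M).map _
  refine ⟨fun c e => ((C c).flatMap (fun e => arcsL (fullP e))).count e,
    fun c e => ((C c).flatMap (fun e => arcsL e.2)).count e, fun c e => ⟨?_, ?_⟩, fun e => ?_,
    fun x => ⟨fun c => ?_, ?_, ?_⟩⟩
  · exact (hβsub c).count_le e
  · exact (List.count_le_count_map (f := Prod.fst)).trans (hcount c e.1).1
  · rw [← List.count_append, hperm.count_eq]
    exact List.nodup_iff_count_le_one.mp (hE.nodup hnd) e
  · rw [sOut_count (hα c), sIn_count (hα c), sOut_count (hβ c), sIn_count (hβ c)]
    obtain ⟨h1, h2, h3, -, -⟩ := hcount c x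
    exact ⟨h1, h2, h3⟩
  · rw [sOut_count (hβ false), sIn_count (hβ false), sOut_count (hβ true), sIn_count (hβ true)]
    have h6 := hE.deg x
    have h7 : (u :: P).count x ≤ 1 := List.nodup_iff_count_le_one.mp hnd x
    have h8 : (E.map Prod.fst).count x = (((C false).flatMap (fun e => arcsL e.2)).map
        Prod.fst).count x + (((C true).flatMap (fun e => arcsL e.2)).map Prod.fst).count x := by
      rw [← List.count_append, ← List.map_append]
      exact ((hperm.map _).count_eq _).symm
    have h9 : (E.map Prod.snd).count x = (((C false).flatMap (fun e => arcsL e.2)).map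
        Prod.snd).count x + (((C true).flatMap (fun e => arcsL e.2)).map Prod.snd).count x := by
      rw [← List.count_append, ← List.map_append]
      exact ((hperm.map _).count_eq _).symm
    omega
  · rw [sOut_count (hα false), sIn_count (hα false), sOut_count (hα true), sIn_count (hα true)]
    obtain ⟨-, -, -, h4, h5⟩ := hcount false x
    obtain ⟨-, -, -, h4', h5'⟩ := hcount true x
    have h6 := hm.av x
    have h7 : (starts M).count (some x) = (starts (C false)).count (some x) +
        (starts (C true)).count (some x) := by
      rw [← List.count_append]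
      exact (hst.count_eq _).symm
    beta_reduce
    omega

end Pool.Agent.Helper7.ACP
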