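import Mathlib

/-!
# Types of partial structures

Labelled arcs, vertex sums in a commutative monoid, and the type of a set `X` of inner vertices with
a set `F` of arcs, relative to boundary slots.
-/

set_option autoImplicit false

namespace Pool.Agent.Helper7.ACP

/-- Weights of the labels at the two ends of an arc, and allowed sums at a vertex (depending on the
number of agents and two marks). -/
structure Spec (M Λ : Type) where
  /-- weight at the start of the arc -/
  wo : Λ → M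
  /-- weight at the end of the arc -/
  wi : Λ → M
  /-- allowed sums -/
  ok : ℕ → Bool → Bool → M → Prop

variable {M Λ V : Type} [AddCommMonoid M] [DecidableEq V] (P : Spec M Λ) {K : ℕ}

/-- The sum at the vertex `y`. -/
def sumAt (F : Finset (V × V)) (ℓ : V × V → Λ) (y : V) : M :=
  (∑ e ∈ F with e.1 = y, P.wo (ℓ e)) + ∑ e ∈ F with e.2 = y, P.wi (ℓ e)

/-- The sum at the vertex in a slot. -/
def slotSum (F : Finset (V × V)) (ℓ : V × V → Λ) : Option V → M
  | none => 0
  | some y => sumAt P F ℓ y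

/-- Achieved boundary vectors. -/
def Rset (X : Set V) (F : Finset (V × V)) (β : Fin K → Option V) (m : V → ℕ) (μ ν : V → Bool) :
    Set (Fin K → M) :=
  {r | ∃ ℓ : V × V → Λ, (∀ x ∈ X, P.ok (m x) (μ x) (ν x) (sumAt P F ℓ x)) ∧
    ∀ i, r i = slotSum P F ℓ (β i)}

/-- `μ` marks exactly one vertex of `X` if `b` is true and no vertex of `X` otherwise. -/
def Mk (X : Set V) (b : Bool) (μ : V → Bool) : Prop :=
  (b = false ∧ ∀ x ∈ X, μ x = false) ∨ (b = true ∧ ∃ x ∈ X, ∀ y ∈ X, (μ y = true ↔ y = x))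

/-- The types. -/
abbrev Ty (M : Type) (K : ℕ) : Type := Bool → Bool → Set (Set (Fin K → M))

/-- The type of a partial structure. -/
def ty (X : Set V) (F : Finset (V × V)) (β : Fin K → Option V) (m : V → ℕ) : Ty M K :=
  fun bu bv => {S | ∃ μ ν : V → Bool, Mk X bu μ ∧ Mk X bv ν ∧
    (∀ x ∈ X, ¬ (μ x = true ∧ ν x = true)) ∧ S = Rset P X F β m μ ν}

/-- Sum of types. -/
def addTy (τ τ' : Ty M K) : Ty M K :=
  fun bu bv => {S | ∃ b1 b2 b1' b2' : Bool, (b1 && b1') = false ∧ (b2 && b2') = false ∧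
    bu = (b1 || b1') ∧ bv = (b2 || b2') ∧ ∃ S1 ∈ τ b1 b2, ∃ S2 ∈ τ' b1' b2',
      S = {r | ∃ r1 ∈ S1, ∃ r2 ∈ S2, r = r1 + r2}}

/-- Forgetting slot `i`. -/
def forgetTy (i : Fin K) (a : ℕ) (τ : Ty M K) : Ty M K :=
  fun bu bv => {S | ∃ b1 b2 du dv : Bool, (b1 && du) = false ∧ (b2 && dv) = false ∧
    bu = (b1 || du) ∧ bv = (b2 || dv) ∧ (du && dv) = false ∧ ∃ S' ∈ τ b1 b2,
      S = {r | ∃ r' ∈ S', P.ok a du dv (r' i) ∧ r = Function.update r' i 0}}

/-- The type of an arc; `d i = 1` if the start is in slot `i`, `d i = 2` if the end is. -/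
def arcTy (d : Fin K → Fin 4) : Ty M K :=
  fun bu bv => {S | bu = false ∧ bv = false ∧ S = {r | ∃ l : Λ, ∀ i,
    r i = (if d i = 1 then P.wo l else 0) + (if d i = 2 then P.wi l else 0)}}

/-- The type of the empty structure. -/
def zeroTy : Ty M K := fun bu bv => {S | bu = false ∧ bv = false ∧ S = {0}}

/-! ### Sums -/

theorem sumAt_congr {F : Finset (V × V)} {ℓ ℓ' : V × V → Λ} {y : V}
    (h : ∀ e ∈ F, ℓ e = ℓ' e) : sumAt P F ℓ y = sumAt P F ℓ' y := by
  unfold sumAt
  congr 1 <;>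
  · refine Finset.sum_congr rfl (fun e he => ?_)
    rw [h e (Finset.mem_filter.mp he).1]

theorem sumAt_union {F G : Finset (V × V)} (h : Disjoint F G) (ℓ : V × V → Λ) (y : V) :
    sumAt P (F ∪ G) ℓ y = sumAt P F ℓ y + sumAt P G ℓ y := by
  unfold sumAt
  rw [Finset.filter_union, Finset.filter_union,
    Finset.sum_union (Finset.disjoint_filter_filter h),
    Finset.sum_union (Finset.disjoint_filter_filter h)]
  abel

theorem sumAt_zero {F : Finset (V × V)} {ℓ : V × V → Λ} {y : V}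
    (h : ∀ e ∈ F, e.1 ≠ y ∧ e.2 ≠ y) : sumAt P F ℓ y = 0 := by
  unfold sumAt
  rw [Finset.filter_false_of_mem (fun e he => (h e he).1),
    Finset.filter_false_of_mem (fun e he => (h e he).2)]
  simp

theorem slotSum_congr {F : Finset (V × V)} {ℓ ℓ' : V × V → Λ} {o : Option V}
    (h : ∀ e ∈ F, ℓ e = ℓ' e) : slotSum P F ℓ o = slotSum P F ℓ' o := by
  cases o with
  | none => rfl
  | some y => exact sumAt_congr P h

theorem slotSum_union {F G : Finset (V × V)} (h : Disjoint F G) (ℓ : V × V → Λ) (o : Option V) :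
    slotSum P (F ∪ G) ℓ o = slotSum P F ℓ o + slotSum P G ℓ o := by
  cases o with
  | none => simp [slotSum]
  | some y => exact sumAt_union P h ℓ y

omit [AddCommMonoid M] [DecidableEq V] in
theorem Rset_congr {M : Type} [AddCommMonoid M] [DecidableEq V] (P : Spec M Λ) {X : Set V}
    {F : Finset (V × V)} {β : Fin K → Option V} {m m' : V → ℕ} {μ ν μ' ν' : V → Bool}
    (hm : ∀ x ∈ X, m x = m' x) (hμ : ∀ x ∈ X, μ x = μ' x) (hν : ∀ x ∈ X, ν x = ν' x) :
    Rset P X F β m μ ν = Rset P X F β m' μ' ν' := by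
  ext r
  constructor
  · rintro ⟨ℓ, h1, h2⟩
    exact ⟨ℓ, fun x hx => by rw [← hm x hx, ← hμ x hx, ← hν x hx]; exact h1 x hx, h2⟩
  · rintro ⟨ℓ, h1, h2⟩
    exact ⟨ℓ, fun x hx => by rw [hm x hx, hμ x hx, hν x hx]; exact h1 x hx, h2⟩

theorem ty_congr {X : Set V} {F : Finset (V × V)} {β : Fin K → Option V} {m m' : V → ℕ}
    (hm : ∀ x ∈ X, m x = m' x) : ty P X F β m = ty P X F β m' := by
  funext bu bv
  ext S
  constructor
  · rintro ⟨μ, ν, h1, h2, h3, rfl⟩
    exact ⟨μ, ν, h1, h2, h3, Rset_congr P hm (fun _ _ => rfl) (fun _ _ => rfl)⟩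
  · rintro ⟨μ, ν, h1, h2, h3, rfl⟩
    exact ⟨μ, ν, h1, h2, h3, (Rset_congr P hm (fun _ _ => rfl) (fun _ _ => rfl)).symm⟩

/-! ### Marks -/

omit [DecidableEq V] in
theorem Mk.congr {X : Set V} {b : Bool} {μ μ' : V → Bool} (h : Mk X b μ)
    (hμ : ∀ x ∈ X, μ x = μ' x) : Mk X b μ' := by
  rcases h with ⟨h1, h2⟩ | ⟨h1, x, hx, h2⟩
  · exact Or.inl ⟨h1, fun x hx => by rw [← hμ x hx]; exact h2 x hx⟩
  · exact Or.inr ⟨h1, x, hx, fun y hy => by rw [← hμ y hy]; exact h2 y hy⟩

omit [DecidableEq V] in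
theorem Mk_union {X Y : Set V} (hXY : Disjoint X Y) {b : Bool} {μ : V → Bool} :
    Mk (X ∪ Y) b μ ↔ ∃ b1 b2 : Bool, (b1 && b2) = false ∧ b = (b1 || b2) ∧ Mk X b1 μ ∧
      Mk Y b2 μ := by
  constructor
  · rintro (⟨rfl, h⟩ | ⟨rfl, x, hx, h⟩)
    · exact ⟨false, false, rfl, rfl, Or.inl ⟨rfl, fun x hx => h x (Or.inl hx)⟩,
        Or.inl ⟨rfl, fun x hx => h x (Or.inr hx)⟩⟩
    · rcases hx with hx | hx
      · refine ⟨true, false, rfl, rfl, Or.inr ⟨rfl, x, hx, fun y hy => h y (Or.inl hy)⟩,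
          Or.inl ⟨rfl, fun y hy => ?_⟩⟩
        rw [← Bool.not_eq_true, h y (Or.inr hy)]
        rintro rfl
        exact Set.disjoint_left.mp hXY hx hy
      · refine ⟨false, true, rfl, rfl, Or.inl ⟨rfl, fun y hy => ?_⟩,
          Or.inr ⟨rfl, x, hx, fun y hy => h y (Or.inr hy)⟩⟩
        rw [← Bool.not_eq_true, h y (Or.inl hy)]
        rintro rfl
        exact Set.disjoint_left.mp hXY hy hx
  · rintro ⟨b1, b2, h0, rfl, h1, h2⟩
    rcases h1 with ⟨rfl, h1⟩ | ⟨rfl, x, hx, h1⟩
    · rcases h2 with ⟨rfl, h2⟩ | ⟨rfl, y, hy, h2⟩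
      · left
        refine ⟨rfl, fun x hx => ?_⟩
        rcases hx with hx | hx
        · exact h1 x hx
        · exact h2 x hx
      · right
        refine ⟨rfl, y, Or.inr hy, fun z hz => ?_⟩
        rcases hz with hz | hz
        · rw [h1 z hz]
          constructor
          · intro h; simp at h
          · rintro rfl
            exact absurd hy (Set.disjoint_left.mp hXY hz)
        · exact h2 z hz
    · rcases h2 with ⟨rfl, h2⟩ | ⟨rfl, y, hy, h2⟩
      · right
        refine ⟨rfl, x, Or.inl hx, fun z hz => ?_⟩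
        rcases hz with hz | hz
        · exact h1 z hz
        · rw [h2 z hz]
          constructor
          · intro h; simp at h
          · rintro rfl
            exact absurd hz (Set.disjoint_left.mp hXY hx)
      · simp at h0

omit [DecidableEq V] in
theorem Mk_singleton {v : V} {b : Bool} {μ : V → Bool} : Mk {v} b μ ↔ b = μ v := by
  constructor
  · rintro (⟨rfl, h⟩ | ⟨rfl, x, hx, h⟩)
    · exact (h v rfl).symm
    · have hx' : x = v := hx
      subst hx'
      exact ((h x rfl).mpr rfl).symm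
  · intro h
    cases b with
    | false =>
      left
      refine ⟨rfl, fun x hx => ?_⟩
      have hx' : x = v := hx
      rw [hx', ← h]
    | true =>
      right
      refine ⟨rfl, v, rfl, fun y hy => ?_⟩
      have hy' : y = v := hy
      subst hy'
      simp [← h]

/-! ### The three rules -/

theorem ty_union {X Y : Set V} (hXY : Disjoint X Y) {F G : Finset (V × V)} (hFG : Disjoint F G)
    (hF : ∀ e ∈ F, e.1 ∉ Y ∧ e.2 ∉ Y) (hG : ∀ e ∈ G, e.1 ∉ X ∧ e.2 ∉ X)
    (β : Fin K → Option V) (m : V → ℕ) :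
    ty P (X ∪ Y) (F ∪ G) β m = addTy (ty P X F β m) (ty P Y G β m) := by
  classical
  have hR : ∀ μ ν : V → Bool, Rset P (X ∪ Y) (F ∪ G) β m μ ν =
      {r | ∃ r1 ∈ Rset P X F β m μ ν, ∃ r2 ∈ Rset P Y G β m μ ν, r = r1 + r2} := by
    intro μ ν
    ext r
    constructor
    · rintro ⟨ℓ, h1, h2⟩
      refine ⟨fun i => slotSum P F ℓ (β i), ⟨ℓ, fun x hx => ?_, fun i => rfl⟩,
        fun i => slotSum P G ℓ (β i), ⟨ℓ, fun x hx => ?_, fun i => rfl⟩, funext fun i => ?_⟩
      · have h3 := h1 x (Or.inl hx)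
        rwa [sumAt_union P hFG, sumAt_zero P (F := G) (fun e he =>
          ⟨fun h => (hG e he).1 (h ▸ hx), fun h => (hG e he).2 (h ▸ hx)⟩), add_zero] at h3
      · have h3 := h1 x (Or.inr hx)
        rwa [sumAt_union P hFG, sumAt_zero P (F := F) (fun e he =>
          ⟨fun h => (hF e he).1 (h ▸ hx), fun h => (hF e he).2 (h ▸ hx)⟩), zero_add] at h3
      · rw [h2 i, slotSum_union P hFG]
        rfl
    · rintro ⟨r1, ⟨ℓ1, h1, h2⟩, r2, ⟨ℓ2, h3, h4⟩, rfl⟩
      set ℓ : V × V → Λ := fun e => if e ∈ F then ℓ1 e else ℓ2 e with hℓ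
      have e1 : ∀ e ∈ F, ℓ e = ℓ1 e := fun e he => by rw [hℓ]; exact if_pos he
      have e2 : ∀ e ∈ G, ℓ e = ℓ2 e := fun e he => by
        rw [hℓ]; exact if_neg (fun h => Finset.disjoint_left.mp hFG h he)
      refine ⟨ℓ, fun x hx => ?_, fun i => ?_⟩
      · rw [sumAt_union P hFG, sumAt_congr P e1, sumAt_congr P e2]
        rcases hx with hx | hx
        · rw [sumAt_zero P (F := G) (fun e he =>
            ⟨fun h => (hG e he).1 (h ▸ hx), fun h => (hG e he).2 (h ▸ hx)⟩), add_zero]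
          exact h1 x hx
        · rw [sumAt_zero P (F := F) (fun e he =>
            ⟨fun h => (hF e he).1 (h ▸ hx), fun h => (hF e he).2 (h ▸ hx)⟩), zero_add]
          exact h3 x hx
      · rw [slotSum_union P hFG, slotSum_congr P e1, slotSum_congr P e2, ← h2 i, ← h4 i]
        rfl
  funext bu bv
  ext S
  constructor
  · rintro ⟨μ, ν, h1, h2, h3, rfl⟩
    obtain ⟨b1, b1', h4, h5, h6, h7⟩ := (Mk_union hXY).mp h1
    obtain ⟨b2, b2', h8, h9, h10, h11⟩ := (Mk_union hXY).mp h2
    exact ⟨b1, b2, b1', b2', h4, h8, h5, h9, _,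
      ⟨μ, ν, h6, h10, fun x hx => h3 x (Or.inl hx), rfl⟩, _,
      ⟨μ, ν, h7, h11, fun x hx => h3 x (Or.inr hx), rfl⟩, hR μ ν⟩
  · rintro ⟨b1, b2, b1', b2', h4, h8, h5, h9, S1, ⟨μ, ν, h6, h10, h12, rfl⟩, S2,
      ⟨μ', ν', h7, h11, h13, rfl⟩, rfl⟩
    have e1 : ∀ (f f' : V → Bool), ∀ x ∈ X, f x = (fun x => if x ∈ X then f x else f' x) x :=
      fun f f' x hx => by simp [hx]
    have e2 : ∀ (f f' : V → Bool), ∀ x ∈ Y, f' x = (fun x => if x ∈ X then f x else f' x) x :=
      fun f f' x hx => by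
        have : x ∉ X := fun h => Set.disjoint_left.mp hXY h hx
        simp [this]
    refine ⟨fun x => if x ∈ X then μ x else μ' x, fun x => if x ∈ X then ν x else ν' x,
      (Mk_union hXY).mpr ⟨b1, b1', h4, h5, h6.congr (e1 _ _), h7.congr (e2 _ _)⟩,
      (Mk_union hXY).mpr ⟨b2, b2', h8, h9, h10.congr (e1 _ _), h11.congr (e2 _ _)⟩, ?_, ?_⟩
    · intro x hx
      rcases hx with hx | hx
      · rw [← e1 μ μ' x hx, ← e1 ν ν' x hx]
        exact h12 x hx
      · rw [← e2 μ μ' x hx, ← e2 ν ν' x hx]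
        exact h13 x hx
    · rw [hR, Rset_congr P (m' := m) (fun _ _ => rfl) (e1 μ μ') (e1 ν ν'),
        Rset_congr P (m' := m) (fun _ _ => rfl) (e2 μ μ') (e2 ν ν')]

theorem ty_forget {X : Set V} {v : V} (hv : v ∉ X) (F : Finset (V × V)) {β : Fin K → Option V}
    {i : Fin K} (hi : β i = some v) (m : V → ℕ) :
    ty P (X ∪ {v}) F (Function.update β i none) m = forgetTy P i (m v) (ty P X F β m) := by
  classical
  have hXv : Disjoint X {v} := Set.disjoint_singleton_right.mpr hv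
  have hR : ∀ μ ν : V → Bool, Rset P (X ∪ {v}) F (Function.update β i none) m μ ν =
      {r | ∃ r' ∈ Rset P X F β m μ ν, P.ok (m v) (μ v) (ν v) (r' i) ∧
        r = Function.update r' i 0} := by
    intro μ ν
    ext r
    constructor
    · rintro ⟨ℓ, h1, h2⟩
      refine ⟨fun j => slotSum P F ℓ (β j), ⟨ℓ, fun x hx => h1 x (Or.inl hx), fun j => rfl⟩, ?_,
        funext fun j => ?_⟩
      · simp only [hi]
        exact h1 v (Or.inr rfl)
      · rw [h2 j]
        by_cases hj : j = i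
        · subst hj
          rw [Function.update_self, Function.update_self]
          rfl
        · rw [Function.update_of_ne hj, Function.update_of_ne hj]
    · rintro ⟨r', ⟨ℓ, h1, h2⟩, h3, rfl⟩
      refine ⟨ℓ, fun x hx => ?_, fun j => ?_⟩
      · rcases hx with hx | hx
        · exact h1 x hx
        · have hx' : x = v := hx
          subst hx'
          rw [h2 i, hi] at h3
          exact h3
      · by_cases hj : j = i
        · subst hj
          rw [Function.update_self, Function.update_self]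
          rfl
        · rw [Function.update_of_ne hj, Function.update_of_ne hj]
          exact h2 j
  funext bu bv
  ext S
  constructor
  · rintro ⟨μ, ν, h1, h2, h3, rfl⟩
    obtain ⟨b1, b1', h4, h5, h6, h7⟩ := (Mk_union hXv).mp h1
    obtain ⟨b2, b2', h8, h9, h10, h11⟩ := (Mk_union hXv).mp h2
    rw [Mk_singleton] at h7 h11
    subst h7 h11
    refine ⟨b1, b2, μ v, ν v, h4, h8, h5, h9, ?_, _,
      ⟨μ, ν, h6, h10, fun x hx => h3 x (Or.inl hx), rfl⟩, hR μ ν⟩
    have h12 := h3 v (Or.inr rfl)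
    cases hμ : μ v <;> cases hν : ν v <;> simp_all
  · rintro ⟨b1, b2, du, dv, h4, h8, h5, h9, h10, S', ⟨μ, ν, h6, h11, h12, rfl⟩, rfl⟩
    have e1 : ∀ (f : V → Bool) (d : Bool), ∀ x ∈ X, f x = Function.update f v d x :=
      fun f d x hx => by
        rw [Function.update_of_ne]
        rintro rfl
        exact hv hx
    refine ⟨Function.update μ v du, Function.update ν v dv,
      (Mk_union hXv).mpr ⟨b1, du, h4, h5, h6.congr (e1 _ _), by rw [Mk_singleton]; simp⟩,
      (Mk_union hXv).mpr ⟨b2, dv, h8, h9, h11.congr (e1 _ _), by rw [Mk_singleton]; simp⟩, ?_, ?_⟩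
    · intro x hx
      rcases hx with hx | hx
      · rw [← e1 μ du x hx, ← e1 ν dv x hx]
        exact h12 x hx
      · have hx' : x = v := hx
        subst hx'
        rw [Function.update_self, Function.update_self]
        rintro ⟨rfl, rfl⟩
        simp at h10
    · rw [hR, Function.update_self, Function.update_self,
        Rset_congr P (m' := m) (fun _ _ => rfl) (e1 μ du) (e1 ν dv)]

theorem ty_slot {X : Set V} {F : Finset (V × V)} {β : Fin K → Option V} {i : Fin K}
    (h : ∀ y, β i = some y → ∀ e ∈ F, e.1 ≠ y ∧ e.2 ≠ y) (m : V → ℕ) :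
    ty P X F (Function.update β i none) m = ty P X F β m := by
  have hs : ∀ ℓ : V × V → Λ, ∀ j, slotSum P F ℓ (Function.update β i none j) =
      slotSum P F ℓ (β j) := by
    intro ℓ j
    by_cases hj : j = i
    · subst hj
      rw [Function.update_self]
      cases hb : β j with
      | none => rfl
      | some y => exact (sumAt_zero P (h y hb)).symm
    · rw [Function.update_of_ne hj]
  have hR : ∀ μ ν : V → Bool, Rset P X F (Function.update β i none) m μ ν =
      Rset P X F β m μ ν := by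
    intro μ ν
    ext r
    constructor
    · rintro ⟨ℓ, h1, h2⟩
      exact ⟨ℓ, h1, fun j => by rw [h2 j, hs]⟩
    · rintro ⟨ℓ, h1, h2⟩
      exact ⟨ℓ, h1, fun j => by rw [h2 j, hs]⟩
  unfold ty
  simp only [hR]

omit [DecidableEq V] in
theorem Mk_empty {b : Bool} {μ : V → Bool} : Mk (∅ : Set V) b μ ↔ b = false := by
  unfold Mk
  simp

theorem ty_zero (β : Fin K → Option V) (m : V → ℕ) [Nonempty Λ] :
    ty P ∅ ∅ β m = zeroTy := by
  have h0 : ∀ (ℓ : V × V → Λ) (o : Option V), slotSum P ∅ ℓ o = 0 := by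
    intro ℓ o
    cases o with
    | none => rfl
    | some y => exact sumAt_zero P (by simp)
  have hR : ∀ μ ν : V → Bool, Rset P ∅ ∅ β m μ ν = {0} := by
    intro μ ν
    ext r
    constructor
    · rintro ⟨ℓ, -, h2⟩
      exact funext fun i => by rw [h2 i, h0]; rfl
    · rintro rfl
      exact ⟨fun _ => Classical.arbitrary Λ, by simp, fun i => by rw [h0]; rfl⟩
  funext bu bv
  ext S
  constructor
  · rintro ⟨μ, ν, h1, h2, -, rfl⟩
    exact ⟨Mk_empty.mp h1, Mk_empty.mp h2, hR μ ν⟩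
  · rintro ⟨h1, h2, rfl⟩
    exact ⟨fun _ => false, fun _ => false, Mk_empty.mpr h1, Mk_empty.mpr h2, by simp,
      (hR _ _).symm⟩

theorem ty_arc {x y : V} (β : Fin K → Option V) (m : V → ℕ) (d : Fin K → Fin 4)
    (h1 : ∀ i, d i = 1 ↔ β i = some x) (h2 : ∀ i, d i = 2 ↔ β i = some y) :
    ty P ∅ {(x, y)} β m = arcTy P d := by
  have h0 : ∀ (ℓ : V × V → Λ) (i : Fin K), slotSum P {(x, y)} ℓ (β i) =
      (if d i = 1 then P.wo (ℓ (x, y)) else 0) + (if d i = 2 then P.wi (ℓ (x, y)) else 0) := by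
    intro ℓ i
    cases hb : β i with
    | none =>
      have e1 : ¬ d i = 1 := fun h => by rw [h1, hb] at h; cases h
      have e2 : ¬ d i = 2 := fun h => by rw [h2, hb] at h; cases h
      rw [if_neg e1, if_neg e2, add_zero]
      rfl
    | some z =>
      have e1 : d i = 1 ↔ x = z := by
        rw [h1, hb, Option.some.injEq]
        exact eq_comm
      have e2 : d i = 2 ↔ y = z := by
        rw [h2, hb, Option.some.injEq]
        exact eq_comm
      simp only [slotSum, sumAt]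
      rw [Finset.sum_filter, Finset.sum_filter, Finset.sum_singleton, Finset.sum_singleton]
      congr 1
      · exact if_congr e1.symm rfl rfl
      · exact if_congr e2.symm rfl rfl
  have hR : ∀ μ ν : V → Bool, Rset P ∅ {(x, y)} β m μ ν = {r | ∃ l : Λ, ∀ i,
      r i = (if d i = 1 then P.wo l else 0) + (if d i = 2 then P.wi l else 0)} := by
    intro μ ν
    ext r
    constructor
    · rintro ⟨ℓ, -, h3⟩
      exact ⟨ℓ (x, y), fun i => by rw [h3 i, h0]⟩
    · rintro ⟨l, hl⟩
      exact ⟨fun _ => l, by simp, fun i => by rw [h0, hl i]⟩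
  funext bu bv
  ext S
  constructor
  · rintro ⟨μ, ν, h1, h2, -, rfl⟩
    exact ⟨Mk_empty.mp h1, Mk_empty.mp h2, hR μ ν⟩
  · rintro ⟨h1, h2, rfl⟩
    exact ⟨fun _ => false, fun _ => false, Mk_empty.mpr h1, Mk_empty.mpr h2, by simp,
      (hR _ _).symm⟩

end Pool.Agent.Helper7.ACP
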